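import Pool.Agent.Work.MP_2482e4_mp.Gn.Sm
import Mathlib

-- merged part: Pool.Agent.Work.MP_2482e4_mp.Dt.Ampl
section
/-! The amplification lemma of `Gn.Ampl` when the jets are independent on a dense set only. -/

set_option linter.unusedSectionVars false

namespace Pool.Agent.Work.MP_2482e4_mp.Dt
open Gn

theorem ampl {X ι D : Type} [Fintype ι] [TopologicalSpace X] (Der : D → (X → ℝ) → (X → ℝ) → Prop)
    (hc : ∀ d (c : ℝ), Der d (fun _ => c) 0)
    (hadd : ∀ d g g' h h', Der d g g' → Der d h h' → Der d (g + h) (g' + h'))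
    (hmul : ∀ d g g' h h', Der d g g' → Der d h h' → Der d (g * h) (g' * h + g * h'))
    (hzero : ∀ d g', Der d 0 g' → g' = 0)
    (G : Set (X → ℝ)) (hG : G.Finite) (y : ι → ℕ → X → ℝ) (θ : D → ι → X → ℝ)
    (hGd : ∀ d, ∀ g ∈ G, ∃ g' ∈ Algebra.adjoin ℝ (G ∪ Set.range fun i => y i 0), Der d g g')
    (hθ : ∀ d i, θ d i ∈ Algebra.adjoin ℝ (G ∪ Set.range fun i => y i 0))
    (hy : ∀ d i k, Der d (y i k) (θ d i * y i (k + 1)))
    (hne : ∀ x i, ∃ d, θ d i x ≠ 0)
    (hGc : ∀ g ∈ G, Continuous g) (hyc : ∀ i k, Continuous (y i k))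
    (hgen : Dense {x | AlgebraicIndependent ℚ fun p : ι × ℕ => y p.1 p.2 x})
    {F : X × (ι × ℕ → ℝ) → ℝ}
    (hF : F ∈ Algebra.adjoin ℝ ((fun (g : X → ℝ) (q : X × (ι × ℕ → ℝ)) => g q.1) '' G ∪
      Set.range fun (p : ι × ℕ) (q : X × (ι × ℕ → ℝ)) => q.2 p))
    (h0 : ∀ x, F (x, fun p => y p.1 p.2 x) = 0) : F = 0 := by
  classical
  have : Fintype G := hG.fintype
  let val : X → (ι × ℕ → ℝ) → G ⊕ (ι × ℕ) → ℝ := fun x η => Sum.elim (fun g => g.1 x) η
  let jet : X → ι × ℕ → ℝ := fun x p => y p.1 p.2 x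
  let Φ : MvPolynomial (G ⊕ (ι × ℕ)) ℝ →ₐ[ℝ] (X → ℝ) :=
    MvPolynomial.aeval (Sum.elim (fun g => g.1) fun p => y p.1 p.2)
  have hΦ : ∀ Q x, Φ Q x = MvPolynomial.aeval (val x (jet x)) Q := by
    intro Q x
    induction Q using MvPolynomial.induction_on with
    | C a => simp [Φ]
    | add p q hp hq => rw [map_add, map_add, Pi.add_apply, hp, hq]
    | mul_X p s hp =>
      rw [map_mul, map_mul, Pi.mul_apply, hp]
      congr 1
      rcases s with g | v <;> simp [Φ, val, jet]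
  have hcont : ∀ Q, Continuous (Φ Q) := by
    intro Q
    induction Q using MvPolynomial.induction_on with
    | C a =>
      rw [MvPolynomial.algHom_C]
      exact continuous_const
    | add p q hp hq =>
      rw [map_add]
      exact hp.add hq
    | mul_X p s hp =>
      rw [map_mul, MvPolynomial.aeval_X]
      refine hp.mul ?_
      rcases s with g | v
      exacts [hGc _ g.2, hyc _ _]
  have hrep : ∀ f ∈ Algebra.adjoin ℝ (G ∪ Set.range fun i => y i 0),
      ∃ Q ∈ AmplF Set.univ {p : ι × ℕ | p.2 < 1}, Φ Q = f := by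
    intro f hf
    induction hf using Algebra.adjoin_induction with
    | mem f hf =>
      rcases hf with hf | ⟨i, rfl⟩
      · exact ⟨_, Ampl_inl _ _ ⟨f, hf⟩, by simp [Φ]⟩
      · exact ⟨_, Ampl_inr _ (p := (i, 0)) (by simp), by simp [Φ]⟩
    | algebraMap r => exact ⟨_, Ampl_C _ (Set.mem_univ r), by simp [Φ]⟩
    | add f g _ _ hf hg =>
      obtain ⟨p, hp, rfl⟩ := hf
      obtain ⟨q, hq, rfl⟩ := hg
      exact ⟨p + q, add_mem hp hq, map_add _ _ _⟩
    | mul f g _ _ hf hg =>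
      obtain ⟨p, hp, rfl⟩ := hf
      obtain ⟨q, hq, rfl⟩ := hg
      exact ⟨p * q, mul_mem hp hq, map_mul _ _ _⟩
  have hδ : ∀ d (g : G), ∃ Q ∈ AmplF Set.univ {p : ι × ℕ | p.2 < 1}, Der d g.1 (Φ Q) := by
    intro d g
    obtain ⟨g', h1, h2⟩ := hGd d g.1 g.2
    obtain ⟨Q, h3, rfl⟩ := hrep g' h1
    exact ⟨Q, h3, h2⟩
  choose δ hδ1 hδ2 using hδ
  choose ϑ hϑ1 hϑ2 using fun d i => hrep _ (hθ d i)
  have hchain : ∀ d Q, Der d (Φ Q) (Φ (AmplD (δ d) (ϑ d) Q)) := by
    intro d Q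
    induction Q using MvPolynomial.induction_on with
    | C a =>
      rw [MvPolynomial.derivation_C, map_zero]
      have : Φ (MvPolynomial.C a) = fun _ => a := by
        funext x
        simp [Φ]
      rw [this]
      exact hc d a
    | add p q hp hq =>
      rw [map_add, map_add, map_add]
      exact hadd d _ _ _ _ hp hq
    | mul_X p s hp =>
      have hs : Der d (Φ (MvPolynomial.X s)) (Φ (AmplD (δ d) (ϑ d) (MvPolynomial.X s))) := by
        rcases s with g | ⟨i, k⟩
        · rw [AmplD_inl]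
          simpa [Φ] using hδ2 d g
        · rw [AmplD_inr, map_mul, hϑ2]
          simpa [Φ] using hy d i k
      have h1 := hmul d _ _ _ _ hp hs
      rw [map_mul, Derivation.leibniz, smul_eq_mul, smul_eq_mul, map_add, map_mul, map_mul]
      convert h1 using 1
      ring
  have hiter : ∀ d j Q, Φ Q = 0 → Φ ((AmplD (δ d) (ϑ d))^[j] Q) = 0 := by
    intro d j
    induction j with
    | zero => exact fun Q h => h
    | succ j ih =>
      intro Q h
      rw [Function.iterate_succ_apply]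
      refine ih _ (hzero d _ ?_)
      have h1 := hchain d Q
      rwa [h] at h1
  have hstep : ∀ i K Q, Q ∈ AmplF Set.univ {p : ι × ℕ | p.2 < K + 1} → Φ Q = 0 →
      Φ (MvPolynomial.pderiv (Sum.inr (i, K)) Q) = 0 := by
    intro i K Q hQ h
    refine Continuous.ext_on hgen (hcont _) continuous_zero fun x hK₀ => ?_
    obtain ⟨d, hd⟩ := hne x i
    rw [hΦ]
    refine Ampl_step (val x (jet x)) (hδ1 d) (hϑ1 d) hQ (fun j => ?_) ?_ (K₀ := 0)
      (by
        simp only [zero_add]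
        exact hK₀)
    · rw [← hΦ, hiter d j Q h]
      rfl
    · rw [← hΦ, hϑ2]
      exact hd
  have hsteps : ∀ i K j Q, Q ∈ AmplF Set.univ {p : ι × ℕ | p.2 < K + 1} → Φ Q = 0 →
      Φ ((MvPolynomial.pderiv (Sum.inr (i, K)))^[j] Q) = 0 := by
    intro i K j
    induction j with
    | zero => exact fun Q _ h => h
    | succ j ih =>
      intro Q hQ h
      rw [Function.iterate_succ_apply]
      exact ih _ (Ampl_pderiv _ hQ) (hstep i K Q hQ h)
  have hmain : ∀ (V : Finset (ι × ℕ)) Q, Q ∈ AmplF Set.univ (V : Set (ι × ℕ)) → Φ Q = 0 →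
      ∀ x η, MvPolynomial.aeval (val x η) Q = 0 := by
    intro V
    induction V using Finset.induction_on_max_value (fun p : ι × ℕ => p.2) with
    | empty =>
      intro Q hQ h x η
      have h1 : Q ∈ RingHom.eqLocus
          (MvPolynomial.aeval (val x η) : MvPolynomial (G ⊕ (ι × ℕ)) ℝ →ₐ[ℝ] ℝ).toRingHom
          (MvPolynomial.aeval (val x (jet x)) : MvPolynomial (G ⊕ (ι × ℕ)) ℝ →ₐ[ℝ] ℝ).toRingHom := by
        refine Ampl_map (RingHom.id _) _ (fun c _ => ?_) (fun g => ?_) (fun p hp => ?_) hQ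
        · simp [RingHom.mem_eqLocus]
        · simp [RingHom.mem_eqLocus, val]
        · simp at hp
      have h2 : MvPolynomial.aeval (val x η) Q = MvPolynomial.aeval (val x (jet x)) Q := h1
      rw [h2, ← hΦ, h]
      rfl
    | insert a V ha hmax ih =>
      intro Q hQ h x η
      let s : G ⊕ (ι × ℕ) := Sum.inr a
      let τ : MvPolynomial (G ⊕ (ι × ℕ)) ℝ →ₐ[ℝ] MvPolynomial (G ⊕ (ι × ℕ)) ℝ :=
        MvPolynomial.aeval (Function.update MvPolynomial.X s (MvPolynomial.C (η a)))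
      have hτ : ∀ (w : G ⊕ (ι × ℕ) → ℝ) R,
          MvPolynomial.aeval w (τ R) = MvPolynomial.aeval (Function.update w s (η a)) R := by
        intro w R
        induction R using MvPolynomial.induction_on with
        | C c => simp [τ]
        | add p q hp hq => rw [map_add, map_add, hp, hq, map_add]
        | mul_X p s' hp =>
          rw [map_mul, map_mul, hp, map_mul]
          congr 1
          by_cases hs : s' = s
          · subst hs
            simp [τ]
          · simp [τ, hs]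
      have hQ1 : Q ∈ AmplF Set.univ {p : ι × ℕ | p.2 < a.2 + 1} := by
        refine Ampl_mono le_rfl (fun p hp => ?_) hQ
        rcases Finset.mem_insert.mp (Finset.mem_coe.mp hp) with rfl | hp
        · exact Nat.lt_succ_self _
        · exact Nat.lt_succ_of_le (hmax p hp)
      have hQ2 : τ Q ∈ AmplF Set.univ (V : Set (ι × ℕ)) := by
        refine Ampl_map τ.toRingHom _ (fun c _ => ?_) (fun g => ?_) (fun p hp => ?_) hQ
        · simpa [τ] using Ampl_C _ (Set.mem_univ c)
        · simpa [τ, s] using Ampl_inl _ _ g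
        · rcases Finset.mem_insert.mp (Finset.mem_coe.mp hp) with rfl | hp
          · simpa [τ, s] using Ampl_C _ (Set.mem_univ (η p))
          · have hpa : p ≠ a := fun e => ha (e ▸ hp)
            simpa [τ, s, hpa] using Ampl_inr _ (Finset.mem_coe.mpr hp)
      have hQ3 : Φ (τ Q) = 0 := by
        funext x'
        rw [hΦ, hτ]
        refine Ampl_subst _ s Q (fun j => ?_) _
        rw [← hΦ, hsteps a.1 a.2 j Q hQ1 h]
        rfl
      have h1 := ih _ hQ2 hQ3 x η
      rw [hτ] at h1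
      have h2 : Function.update (val x η) s (η a) = val x η := Function.update_eq_self s (val x η)
      rwa [h2] at h1
  have hrepF : ∃ Q : MvPolynomial (G ⊕ (ι × ℕ)) ℝ, ∀ x η,
      F (x, η) = MvPolynomial.aeval (val x η) Q := by
    clear h0
    induction hF using Algebra.adjoin_induction with
    | mem f hf =>
      rcases hf with ⟨g, hg, rfl⟩ | ⟨p, rfl⟩
      · exact ⟨MvPolynomial.X (Sum.inl ⟨g, hg⟩), fun x η => by simp [val]⟩
      · exact ⟨MvPolynomial.X (Sum.inr p), fun x η => by simp [val]⟩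
    | algebraMap r => exact ⟨MvPolynomial.C r, fun x η => by simp⟩
    | add f g _ _ hf hg =>
      obtain ⟨p, hp⟩ := hf
      obtain ⟨q, hq⟩ := hg
      exact ⟨p + q, fun x η => by rw [map_add, Pi.add_apply, hp, hq]⟩
    | mul f g _ _ hf hg =>
      obtain ⟨p, hp⟩ := hf
      obtain ⟨q, hq⟩ := hg
      exact ⟨p * q, fun x η => by rw [map_mul, Pi.mul_apply, hp, hq]⟩
  obtain ⟨Q, hQ⟩ := hrepF
  obtain ⟨V, hV⟩ := Ampl_vars Q
  have h1 : Φ Q = 0 := by
    funext x
    rw [hΦ, ← hQ]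
    exact h0 x
  funext q
  obtain ⟨x, η⟩ := q
  rw [hQ]
  exact hmain V Q hV h1 x η

end Pool.Agent.Work.MP_2482e4_mp.Dt
end

-- merged part: Pool.Agent.Work.MP_2482e4_mp.Dt.Alg
section
/-!
Jets of a differentially transcendental function at pairwise non proportional linear forms are
algebraically independent as functions on every open set.
-/

open scoped Topology
open MvPolynomial Filter

namespace Pool.Agent.Work.MP_2482e4_mp.Dt

section Alg
variable {I : Type}

/-- The derivation `X (i, k) ↦ c i * X (i, k + 1)`. -/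
noncomputable def sh (c : I → ℝ) :
    Derivation ℝ (MvPolynomial (I × ℕ) ℝ) (MvPolynomial (I × ℕ) ℝ) :=
  mkDerivation ℝ fun p => C (c p.1) * X (p.1, p.2 + 1)

theorem sh_X (c : I → ℝ) (p : I × ℕ) : sh c (X p) = C (c p.1) * X (p.1, p.2 + 1) :=
  mkDerivation_X _ _ _

theorem pderiv_sh (c : I → ℝ) (i : I) (k : ℕ) (a : MvPolynomial (I × ℕ) ℝ) :
    pderiv (i, k + 1) (sh c a) = sh c (pderiv (i, k + 1) a) + C (c i) * pderiv (i, k) a := by
  classical
  induction a using MvPolynomial.induction_on with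
  | C r => simp
  | add p q hp hq => simp only [map_add, hp, hq]; ring
  | mul_X p s hp =>
    obtain ⟨j, m⟩ := s
    have h1 : pderiv (i, k + 1) (sh c (X (j, m))) =
        sh c (pderiv (i, k + 1) (X (j, m))) + C (c i) * pderiv (i, k) (X (j, m)) := by
      rw [sh_X, pderiv_C_mul, pderiv_X, pderiv_X, pderiv_X]
      have e : sh c (Pi.single (M := fun _ : I × ℕ => MvPolynomial (I × ℕ) ℝ) (i, k + 1) 1
          (j, m)) = 0 := by
        rw [Pi.single_apply]
        split_ifs <;> simp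
      rw [e, zero_add, Pi.single_apply, Pi.single_apply]
      by_cases h : (j, m) = (i, k)
      · obtain ⟨rfl, rfl⟩ := Prod.mk.inj h
        simp
      · have h' : (j, m + 1) ≠ (i, k + 1) := fun e => h (by
          obtain ⟨e1, e2⟩ := Prod.mk.inj e
          exact Prod.ext e1 (Nat.succ_injective e2))
        simp only [if_neg h, if_neg h', mul_zero]
    simp only [Derivation.leibniz, smul_eq_mul, map_add, hp, h1]
    ring

theorem pderiv_of_dvd {σ : Type} {a : MvPolynomial σ ℝ} {s : σ} (h : a ∣ pderiv s a) :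
    pderiv s a = 0 := by
  classical
  by_contra h0
  obtain ⟨b, hb⟩ := h
  have ha : a ≠ 0 := fun e => h0 (by rw [hb, e, zero_mul])
  have hb0 : b ≠ 0 := fun e => h0 (by rw [hb, e, mul_zero])
  have h1 : degreeOf s a ≤ degreeOf s (pderiv s a) := by
    rw [hb, degreeOf_mul_eq ha hb0]
    exact Nat.le_add_right _ _
  obtain ⟨m, hm, e⟩ := Finset.exists_mem_eq_sup (pderiv s a).support
    (support_nonempty.2 h0) (fun m => m s)
  rw [← degreeOf_eq_sup] at e
  have h2 : m + Finsupp.single s 1 ∈ a.support := by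
    rw [mem_support_iff] at hm ⊢
    intro h3
    exact hm (by rw [coeff_pderiv, h3, zero_mul])
  have h3 := monomial_le_degreeOf s h2
  simp only [Finsupp.add_apply, Finsupp.single_eq_same] at h3
  omega

theorem const_of_pderiv {σ : Type} {a : MvPolynomial σ ℝ} (h : ∀ s, pderiv s a = 0) :
    a = C (coeff 0 a) := by
  classical
  ext m
  rw [coeff_C]
  split_ifs with hm
  · rw [hm]
  · obtain ⟨s, hs⟩ := Finsupp.ne_iff.1 (Ne.symm hm)
    have e : m = (m - Finsupp.single s 1) + Finsupp.single s 1 := by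
      rw [tsub_add_cancel_of_le]
      rw [Finsupp.single_le_iff]
      exact Nat.one_le_iff_ne_zero.2 hs
    have h1 := coeff_pderiv (i := s) a (m - Finsupp.single s 1)
    rw [h s, coeff_zero, ← e] at h1
    exact (mul_eq_zero.1 h1.symm).resolve_right (by positivity)

theorem const_of_dvd {c : I → ℝ} (hc : ∀ i, c i ≠ 0) {a : MvPolynomial (I × ℕ) ℝ}
    (h : a ∣ sh c a) : a = C (coeff 0 a) := by
  classical
  obtain ⟨b, hb⟩ := h
  obtain ⟨N, hN⟩ : ∃ N, ∀ p ∈ a.vars, p.2 < N :=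
    ⟨a.vars.sup (fun p => p.2) + 1, fun p hp =>
      Nat.lt_succ_of_le (Finset.le_sup (f := fun p : I × ℕ => p.2) hp)⟩
  refine const_of_pderiv fun ⟨i, k⟩ => ?_
  have step : ∀ k, pderiv (i, k + 1) a = 0 → pderiv (i, k) a = 0 := fun k hk => by
    have h1 := pderiv_sh c i k a
    rw [hk, map_zero, zero_add, hb, Derivation.leibniz, hk, smul_zero, add_zero, smul_eq_mul] at h1
    refine pderiv_of_dvd ⟨C (c i)⁻¹ * pderiv (i, k + 1) b, ?_⟩
    rw [mul_left_comm, h1, ← mul_assoc, ← map_mul, inv_mul_cancel₀ (hc i), map_one, one_mul]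
  have key : ∀ j k, N ≤ k + j → pderiv (i, k) a = 0 := fun j => by
    induction j with
    | zero => exact fun k hk => pderiv_eq_zero_of_notMem_vars fun h => absurd (hN _ h) (by simpa using hk)
    | succ j ih => exact fun k hk => step k (ih _ (by omega))
  exact key N k (by omega)

theorem wronsk {c : I → ℝ} (hc : ∀ i, c i ≠ 0) {a b : MvPolynomial (I × ℕ) ℝ} (ha : a ≠ 0)
    (h : a * sh c b = b * sh c a) : ∃ r : ℝ, b = C r * a := by
  obtain ⟨a', b', g, hab, rfl, rfl⟩ := UniqueFactorizationMonoid.exists_reduced_factors a ha b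
  have hg : g ≠ 0 := left_ne_zero_of_mul ha
  have ha' : a' ≠ 0 := right_ne_zero_of_mul ha
  have h1 : a' * sh c b' = b' * sh c a' := by
    simp only [Derivation.leibniz, smul_eq_mul] at h
    refine mul_left_cancel₀ (mul_ne_zero hg hg) ?_
    linear_combination h
  have e1 := const_of_dvd hc (hab.dvd_of_dvd_mul_left ⟨_, h1.symm⟩)
  have e2 := const_of_dvd hc (hab.symm.dvd_of_dvd_mul_left ⟨_, h1⟩)
  have h2 : coeff 0 a' ≠ 0 := fun e => ha' (by rw [e1, e, map_zero])
  refine ⟨coeff 0 b' * (coeff 0 a')⁻¹, ?_⟩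
  rw [mul_left_comm]
  congr 1
  rw [e2, e1, ← map_mul]
  simp [h2]

end Alg

section Ind
variable {V : Type} [NormedAddCommGroup V] [NormedSpace ℝ V] {F : ℝ → ℝ}

theorem jet_hasDerivAt (hF : AnalyticOnNhd ℝ F Set.univ) (k : ℕ) (u : ℝ) :
    HasDerivAt (iteratedDeriv k F) (iteratedDeriv (k + 1) F u) u := by
  rw [iteratedDeriv_succ, iteratedDeriv_eq_iterate]
  exact ((hF.iterated_deriv k) u trivial).differentiableAt.hasDerivAt

theorem jet_analytic (hF : AnalyticOnNhd ℝ F Set.univ) (k : ℕ) (u : ℝ) :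
    AnalyticAt ℝ (iteratedDeriv k F) u := by
  rw [iteratedDeriv_eq_iterate]
  exact (hF.iterated_deriv k) u trivial

theorem aeval_analytic {σ W : Type} [NormedAddCommGroup W] [NormedSpace ℝ W] {z : σ → W → ℝ}
    {x : W} (hz : ∀ s, AnalyticAt ℝ (z s) x) (a : MvPolynomial σ ℝ) :
    AnalyticAt ℝ (fun y => aeval (fun s => z s y) a) x := by
  induction a using MvPolynomial.induction_on with
  | C r => simpa using analyticAt_const
  | add p q hp hq =>
    simp only [map_add]
    exact hp.add hq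
  | mul_X p s hp =>
    simp only [map_mul, aeval_X]
    exact hp.mul (hz s)

/-- The value of a polynomial at the jets of `F` at the points `ℓ i x`. -/
noncomputable def ev {I : Type} (F : ℝ → ℝ) (ℓ : I → V →L[ℝ] ℝ) (x : V) :
    MvPolynomial (I × ℕ) ℝ →ₐ[ℝ] ℝ := aeval fun p => iteratedDeriv p.2 F (ℓ p.1 x)

theorem ev_analytic {I : Type} (hF : AnalyticOnNhd ℝ F Set.univ) (ℓ : I → V →L[ℝ] ℝ)
    (a : MvPolynomial (I × ℕ) ℝ) (x : V) : AnalyticAt ℝ (fun y => ev F ℓ y a) x :=
  aeval_analytic (z := fun (p : I × ℕ) y => iteratedDeriv p.2 F (ℓ p.1 y))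
    (fun p => (jet_analytic hF _ _).comp ((ℓ p.1).analyticAt x)) a

theorem ev_deriv {I : Type} (hF : AnalyticOnNhd ℝ F Set.univ) (ℓ : I → V →L[ℝ] ℝ) (x v : V)
    (a : MvPolynomial (I × ℕ) ℝ) :
    HasDerivAt (fun s : ℝ => ev F ℓ (x + s • v) a) (ev F ℓ x (sh (fun i => ℓ i v) a)) 0 := by
  induction a using MvPolynomial.induction_on with
  | C r => simpa using hasDerivAt_const (0 : ℝ) r
  | add p q hp hq =>
    simp only [map_add]
    exact hp.add hq
  | mul_X p s hp =>
    have h1 : HasDerivAt (fun t : ℝ => ℓ s.1 (x + t • v)) (ℓ s.1 v) 0 := by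
      simpa using ((hasDerivAt_id (0 : ℝ)).mul_const (ℓ s.1 v)).const_add (ℓ s.1 x)
    have h2 := HasDerivAt.comp_of_eq (0 : ℝ) (jet_hasDerivAt hF s.2 (ℓ s.1 x)) h1 (by simp)
    have h3 := hp.mul h2
    simp only [map_mul, Derivation.leibniz, smul_eq_mul, map_add, sh_X]
    refine (h3.congr_deriv ?_).congr_of_eventuallyEq (Eventually.of_forall fun t => ?_)
    · simp [ev]
      ring
    · simp [ev]

theorem one_var (hF : AnalyticOnNhd ℝ F Set.univ)
    (hT : AlgebraicIndependent ℝ fun k : ℕ => iteratedDeriv k F) {Q : MvPolynomial ℕ ℝ} {u : ℝ}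
    (h : ∀ᶠ t in 𝓝 u, aeval (fun k => iteratedDeriv k F t) Q = 0) : Q = 0 := by
  have h1 : AnalyticOnNhd ℝ (fun t => aeval (fun k => iteratedDeriv k F t) Q) Set.univ :=
    fun t _ => aeval_analytic (z := fun k t => iteratedDeriv k F t)
      (fun k => jet_analytic hF k t) Q
  have h2 := h1.eqOn_zero_of_preconnected_of_eventuallyEq_zero isPreconnected_univ
    (Set.mem_univ u) h
  refine hT.eq_zero_of_aeval_eq_zero Q (funext fun t => ?_)
  have h3 := DFunLike.congr_fun (comp_aeval (fun k : ℕ => iteratedDeriv k F)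
    (Pi.evalAlgHom ℝ (fun _ : ℝ => ℝ) t)) Q
  exact h3.trans (h2 (Set.mem_univ t))

theorem step {I : Type} [Finite I] (hF : AnalyticOnNhd ℝ F Set.univ)
    (hT : AlgebraicIndependent ℝ fun k : ℕ => iteratedDeriv k F) (ℓ : I → V →L[ℝ] ℝ)
    (ℓ₀ : V →L[ℝ] ℝ) (h0 : ℓ₀ ≠ 0) (hℓ : ∀ i, ∃ v, ℓ₀ v = 0 ∧ ℓ i v ≠ 0)
    (ih : ∀ Ω : Set V, IsOpen Ω → Ω.Nonempty → ∀ a, (∀ x ∈ Ω, ev F ℓ x a = 0) → a = 0)
    {Ω : Set V} (hΩ : IsOpen Ω) (hne : Ω.Nonempty) (A : Finset (ℕ →₀ ℕ))
    (a : (ℕ →₀ ℕ) → MvPolynomial (I × ℕ) ℝ)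
    (h : ∀ x ∈ Ω, ∑ α ∈ A, ev F ℓ x (a α) *
      aeval (fun k => iteratedDeriv k F (ℓ₀ x)) (monomial α (1 : ℝ)) = 0) : ∀ α ∈ A, a α = 0 := by
  classical
  obtain ⟨v, hv0, hv⟩ := Module.Dual.exists_forall_mem_ne_zero_of_forall_exists
    (LinearMap.ker ℓ₀.toLinearMap) (fun i => (ℓ i).toLinearMap) hℓ
  have hv0' : ℓ₀ v = 0 := hv0
  induction A using Finset.induction_on generalizing a with
  | empty => simp
  | insert β A hβ IH =>
    simp only [Finset.sum_insert hβ] at h
    by_cases hb : a β = 0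
    · refine Finset.forall_mem_insert _ _ _ |>.2 ⟨hb, IH a fun x hx => ?_⟩
      simpa [hb] using h x hx
    exfalso
    have hD : ∀ x ∈ Ω, ev F ℓ x (sh (fun i => ℓ i v) (a β)) *
        aeval (fun k => iteratedDeriv k F (ℓ₀ x)) (monomial β (1 : ℝ)) +
        ∑ α ∈ A, ev F ℓ x (sh (fun i => ℓ i v) (a α)) *
          aeval (fun k => iteratedDeriv k F (ℓ₀ x)) (monomial α (1 : ℝ)) = 0 := fun x hx => by
      have h1 := ((ev_deriv hF ℓ x v (a β)).mul_const
        (aeval (fun k => iteratedDeriv k F (ℓ₀ x)) (monomial β (1 : ℝ)))).add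
        (HasDerivAt.fun_sum (u := A) fun α _ => (ev_deriv hF ℓ x v (a α)).mul_const
          (aeval (fun k => iteratedDeriv k F (ℓ₀ x)) (monomial α (1 : ℝ))))
      refine h1.unique ((hasDerivAt_const (0 : ℝ) (0 : ℝ)).congr_of_eventuallyEq ?_)
      have h2 : ContinuousAt (fun s : ℝ => x + s • v) 0 := by fun_prop
      filter_upwards [h2.eventually (hΩ.mem_nhds (by simpa using hx))] with s hs
      have h3 := h _ hs
      rwa [map_add, map_smul, hv0', smul_zero, add_zero] at h3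
    have h1 := IH (fun α => a β * sh (fun i => ℓ i v) (a α) - a α * sh (fun i => ℓ i v) (a β))
      fun x hx => by
        simp only [map_sub, map_mul, sub_mul, Finset.sum_sub_distrib, mul_assoc,
          mul_left_comm (ev F ℓ x (a _)) (ev F ℓ x (sh _ (a β))), ← Finset.mul_sum]
        linear_combination ev F ℓ x (a β) * hD x hx - ev F ℓ x (sh (fun i => ℓ i v) (a β)) * h x hx
    have h2 : ∀ α, ∃ r : ℝ, α ∈ A → a α = C r * a β := fun α => by
      by_cases hα : α ∈ A
      · obtain ⟨r, hr⟩ := wronsk hv hb (sub_eq_zero.1 (h1 α hα))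
        exact ⟨r, fun _ => hr⟩
      · exact ⟨0, fun h => absurd h hα⟩
    choose r hr using h2
    obtain ⟨x, hx, hx0⟩ : ∃ x ∈ Ω, ev F ℓ x (a β) ≠ 0 := by
      by_contra hc
      push Not at hc
      exact hb (ih Ω hΩ hne _ hc)
    obtain ⟨w, hw⟩ : ∃ w, ℓ₀ w = 1 := by
      obtain ⟨w, hw⟩ := DFunLike.ne_iff.1 h0
      exact ⟨(ℓ₀ w)⁻¹ • w, by rw [map_smul, smul_eq_mul, inv_mul_cancel₀ hw]⟩
    have h3 : ContinuousAt (fun t : ℝ => x + (t - ℓ₀ x) • w) (ℓ₀ x) := by fun_prop
    have h4 : ∀ᶠ y in 𝓝 (x + (ℓ₀ x - ℓ₀ x) • w), y ∈ Ω ∧ ev F ℓ y (a β) ≠ 0 := by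
      rw [sub_self, zero_smul, add_zero]
      exact (hΩ.eventually_mem hx).and
        ((ev_analytic hF ℓ (a β) x).continuousAt.eventually_ne hx0)
    have h5 := one_var hF hT (Q := monomial β 1 + ∑ α ∈ A, C (r α) * monomial α 1) (u := ℓ₀ x) (by
      filter_upwards [h3.eventually h4] with t ht
      have h6 := h _ ht.1
      rw [Finset.sum_congr rfl fun α hα => by rw [hr α hα]] at h6
      rw [map_add, map_smul, hw, smul_eq_mul, mul_one, add_sub_cancel] at h6
      refine mul_left_cancel₀ ht.2 ?_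
      rw [mul_zero, ← h6, map_add, map_sum, mul_add, Finset.mul_sum]
      congr 1
      refine Finset.sum_congr rfl fun α _ => ?_
      simp only [map_mul, algHom_C, Algebra.algebraMap_self_apply]
      ring)
    have h6 := congrArg (coeff β) h5
    rw [coeff_add, coeff_sum, Finset.sum_eq_zero fun α hα => by
      rw [coeff_C_mul, coeff_monomial, if_neg (fun e : α = β => hβ (e ▸ hα)), mul_zero]] at h6
    simp at h6

theorem indep (hF : AnalyticOnNhd ℝ F Set.univ)
    (hT : AlgebraicIndependent ℝ fun k : ℕ => iteratedDeriv k F) (I : Type) [Finite I] :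
    ∀ (ℓ : I → V →L[ℝ] ℝ), (∀ i, ℓ i ≠ 0) → (∀ i j, i ≠ j → ∃ v, ℓ i v = 0 ∧ ℓ j v ≠ 0) →
      ∀ Ω : Set V, IsOpen Ω → Ω.Nonempty → ∀ a, (∀ x ∈ Ω, ev F ℓ x a = 0) → a = 0 := by
  induction I using Finite.induction_empty_option with
  | @of_equiv I J e ih =>
    intro ℓ h0 h1 Ω hΩ hne a h
    refine (renameEquiv ℝ (e.symm.prodCongr (Equiv.refl ℕ))).injective ?_
    rw [map_zero]
    refine ih (fun i => ℓ (e i)) (fun i => h0 _) (fun i j hij => h1 _ _ (e.injective.ne hij))
      Ω hΩ hne _ fun x hx => ?_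
    rw [← h x hx, renameEquiv_apply, ev, aeval_rename, ev]
    congr 2
    funext p
    simp
  | h_empty =>
    intro ℓ _ _ Ω _ ⟨x, hx⟩ a h
    have h1 := h x hx
    rw [eq_C_of_isEmpty a] at h1 ⊢
    simpa using h1
  | @h_option I _ ih =>
    intro ℓ h0 h1 Ω hΩ hne a h
    let φ : MvPolynomial (Option I × ℕ) ℝ →ₐ[ℝ] MvPolynomial ℕ (MvPolynomial (I × ℕ) ℝ) :=
      aeval fun p => p.1.elim (X p.2) fun i => C (X (i, p.2))
    let ψ : MvPolynomial ℕ (MvPolynomial (I × ℕ) ℝ) →+* MvPolynomial (Option I × ℕ) ℝ :=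
      eval₂Hom (rename fun p : I × ℕ => (some p.1, p.2)).toRingHom fun k => X (none, k)
    have hψ : ∀ b, ψ (φ b) = b := fun b => by
      induction b using MvPolynomial.induction_on with
      | C r => simp [φ, ψ]
      | add p q hp hq => rw [map_add, map_add, hp, hq]
      | mul_X p s hp =>
        rw [map_mul, map_mul, hp]
        obtain ⟨_ | i, k⟩ := s <;> simp [φ, ψ]
    have hev : ∀ x b, eval₂Hom (ev F (fun i => ℓ (some i)) x).toRingHom
        (fun k => iteratedDeriv k F (ℓ none x)) (φ b) = ev F ℓ x b := fun x b => by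
      induction b using MvPolynomial.induction_on with
      | C r => simp [φ]
      | add p q hp hq => rw [map_add, map_add, hp, hq, map_add]
      | mul_X p s hp =>
        rw [map_mul, map_mul, hp, map_mul]
        obtain ⟨_ | i, k⟩ := s <;> simp [φ, ev]
    have h2 := step hF hT (fun i => ℓ (some i)) (ℓ none) (h0 none)
      (fun i => h1 none (some i) (by simp))
      (ih _ (fun i => h0 _) fun i j hij => h1 _ _ (by simpa using hij)) hΩ hne (φ a).support
      (fun α => coeff α (φ a)) fun x hx => by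
        rw [← h x hx, ← hev, coe_eval₂Hom, eval₂_eq]
        refine Finset.sum_congr rfl fun α _ => ?_
        rw [aeval_monomial, map_one, one_mul]
        rfl
    rw [← hψ a, show φ a = 0 from by
      ext1 α
      by_contra hc
      exact hc (h2 α (mem_support_iff.2 hc)), map_zero]

end Ind

end Pool.Agent.Work.MP_2482e4_mp.Dt
end

-- merged part: Pool.Agent.Work.MP_2482e4_mp.Dt.Null
section
/-!
Zero sets of analytic functions are null; jets at differences of coordinates are algebraically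
independent over the rationals at almost every point.
-/

open scoped Topology
open MvPolynomial Filter MeasureTheory

namespace Pool.Agent.Work.MP_2482e4_mp.Dt

theorem zeros_countable {g : ℝ → ℝ} {U : Set ℝ} (hg : AnalyticOnNhd ℝ g U) (hU : IsConnected U)
    {x : ℝ} (hx : x ∈ U) (h : g x ≠ 0) : {t | t ∈ U ∧ g t = 0}.Countable := by
  have h1 : IsDiscrete ((g ⁻¹' {0}) ∩ U) := isDiscrete_of_codiscreteWithin
    (by simpa using hg.preimage_zero_mem_codiscreteWithin h hx hU)
  exact ((HereditarilyLindelofSpace.isLindelof _).countable_of_isDiscrete h1).mono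
    fun t ht => Set.mem_inter ht.2 ht.1

theorem countable_mv {σ : Type} [Countable σ] : Countable (MvPolynomial σ ℚ) :=
  AddMonoidAlgebra.coeff_injective.countable

theorem ae_ne_fin (m : ℕ) : ∀ g : (Fin m → ℝ) → ℝ, AnalyticOnNhd ℝ g Set.univ →
    ∀ x, g x ≠ 0 → ∀ᵐ y, g y ≠ 0 := by
  induction m with
  | zero =>
    intro g _ x hx
    exact ae_of_all _ fun y => Subsingleton.elim x y ▸ hx
  | succ m ih =>
    intro g hg x hx
    let L : ℝ × (Fin m → ℝ) →L[ℝ] Fin (m + 1) → ℝ := ContinuousLinearMap.pi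
      (Fin.cases (ContinuousLinearMap.fst ℝ _ _) fun j =>
        (ContinuousLinearMap.proj j).comp (ContinuousLinearMap.snd ℝ _ _))
    have hL : ∀ y : Fin (m + 1) → ℝ, L (MeasurableEquiv.piFinSuccAbove (fun _ => ℝ) 0 y) = y :=
      fun y => funext fun j => by
        refine Fin.cases ?_ (fun j => ?_) j <;> rfl
    have hg' : AnalyticOnNhd ℝ (fun p => g (L p)) Set.univ := fun p _ =>
      (hg _ trivial).comp (L.analyticAt p)
    have h1 : ∀ᵐ p : ℝ × (Fin m → ℝ), g (L p) ≠ 0 := by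
      refine (Measure.ae_prod_iff_ae_ae ?_).2 ?_
      · exact (isOpen_ne_fun (continuousOn_univ.1 hg'.continuousOn) continuous_const).measurableSet
      · set p := MeasurableEquiv.piFinSuccAbove (fun _ => ℝ) 0 x
        have h2 := zeros_countable (g := fun t => g (L (t, p.2))) (U := Set.univ)
          (fun t _ => AnalyticAt.comp (g := fun p => g (L p)) (hg' _ trivial)
            (analyticAt_id.prod analyticAt_const)) isConnected_univ (Set.mem_univ p.1)
          (by rw [← hL x] at hx; exact hx)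
        filter_upwards [h2.ae_notMem volume] with t ht
        exact ih (fun y => g (L (t, y))) (fun y _ => AnalyticAt.comp (g := fun p => g (L p))
          (hg' _ trivial) (analyticAt_const.prod analyticAt_id)) p.2 fun h => ht ⟨trivial, h⟩
    filter_upwards [(volume_preserving_piFinSuccAbove (fun _ : Fin (m + 1) => ℝ)
      0).quasiMeasurePreserving.ae h1] with y hy
    rwa [hL] at hy

theorem ae_ne {n : Type} [Fintype n] {g : (n → ℝ) → ℝ} (hg : AnalyticOnNhd ℝ g Set.univ)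
    {x : n → ℝ} (hx : g x ≠ 0) : ∀ᵐ y, g y ≠ 0 := by
  let e := Fintype.equivFin n
  let L : (Fin (Fintype.card n) → ℝ) →L[ℝ] n → ℝ :=
    ContinuousLinearMap.pi fun i => ContinuousLinearMap.proj (e i)
  have hL : ∀ y : n → ℝ, L (MeasurableEquiv.piCongrLeft (fun _ => ℝ) e y) = y := fun y =>
    funext fun i => by
      change MeasurableEquiv.piCongrLeft (fun _ => ℝ) e y (e i) = y i
      rw [MeasurableEquiv.coe_piCongrLeft, Equiv.piCongrLeft_apply_apply]
  have h1 := ae_ne_fin _ (fun y => g (L y)) (fun y _ => (hg _ trivial).comp (L.analyticAt y))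
    (MeasurableEquiv.piCongrLeft (fun _ => ℝ) e x) (by rwa [hL])
  filter_upwards [(volume_measurePreserving_piCongrLeft (fun _ => ℝ)
    e).quasiMeasurePreserving.ae h1] with y hy
  rwa [hL] at hy

/-- The jets of `F` at the positive differences of the coordinates of `x` are independent. -/
def GenAt {n : Type} (F : ℝ → ℝ) (x : n → ℝ) : Prop :=
  ∀ s : Set (n × n), (∀ p ∈ s, p.1 ≠ p.2) → (∀ p ∈ s, p.swap ∉ s) →
    AlgebraicIndependent ℚ fun q : s × ℕ => iteratedDeriv q.2 F (x q.1.1.1 - x q.1.1.2)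

theorem ae_genAt {n : Type} [Fintype n] {F : ℝ → ℝ} (hF : AnalyticOnNhd ℝ F Set.univ)
    (hT : AlgebraicIndependent ℝ fun k : ℕ => iteratedDeriv k F) : ∀ᵐ x : n → ℝ, GenAt F x := by
  classical
  refine ae_all_iff.2 fun s => ?_
  by_cases h1 : ∀ p ∈ s, p.1 ≠ p.2
  swap
  · exact ae_of_all _ fun x h => absurd h h1
  by_cases h2 : ∀ p ∈ s, p.swap ∉ s
  swap
  · exact ae_of_all _ fun x _ h => absurd h h2
  let ℓ : s → (n → ℝ) →L[ℝ] ℝ := fun p =>
    ContinuousLinearMap.proj (R := ℝ) (φ := fun _ : n => ℝ) p.1.1 - ContinuousLinearMap.proj p.1.2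
  have hℓ : ∀ p x, ℓ p x = x p.1.1 - x p.1.2 := fun p x => rfl
  have key := indep hF hT s ℓ (fun p e => by
    have := hℓ p (Pi.single p.1.1 1)
    rw [e, Pi.single_eq_same, Pi.single_eq_of_ne (h1 _ p.2).symm] at this
    simp at this) (fun p q hpq => by
      obtain ⟨⟨a, b⟩, hp⟩ := p
      obtain ⟨⟨c, d⟩, hq⟩ := q
      have hab : a ≠ b := h1 _ hp
      have hcd : c ≠ d := h1 _ hq
      by_cases hc : c = a ∨ c = b
      · have hd : d ≠ a ∧ d ≠ b := by
          rcases hc with rfl | rfl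
          · exact ⟨hcd.symm, fun e => hpq (by subst e; rfl)⟩
          · exact ⟨fun e => h2 _ hp (by subst e; exact hq), hcd.symm⟩
        refine ⟨Pi.single d 1, ?_, ?_⟩
        · simp [hℓ, Pi.single_eq_of_ne hd.1.symm, Pi.single_eq_of_ne hd.2.symm]
        · simp [hℓ, Pi.single_eq_of_ne hcd]
      · push Not at hc
        refine ⟨Pi.single c 1, ?_, ?_⟩
        · simp [hℓ, Pi.single_eq_of_ne hc.1.symm, Pi.single_eq_of_ne hc.2.symm]
        · simp [hℓ, Pi.single_eq_of_ne hcd.symm]) Set.univ isOpen_univ Set.univ_nonempty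
  have h3 : ∀ᵐ x : n → ℝ, ∀ Q : MvPolynomial (s × ℕ) ℚ, Q ≠ 0 →
      ev F ℓ x (map (algebraMap ℚ ℝ) Q) ≠ 0 := by
    have := countable_mv (σ := s × ℕ)
    refine ae_all_iff.2 fun Q => ?_
    by_cases hQ : Q = 0
    · exact ae_of_all _ fun x h => absurd hQ h
    obtain ⟨x, hx⟩ : ∃ x, ev F ℓ x (map (algebraMap ℚ ℝ) Q) ≠ 0 := by
      by_contra hc
      push Not at hc
      exact hQ (map_injective _ (algebraMap ℚ ℝ).injective
        ((key _ fun x _ => hc x).trans (map_zero _).symm))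
    filter_upwards [ae_ne (fun y _ => ev_analytic hF ℓ _ y) hx] with y hy _ using hy
  filter_upwards [h3] with x hx _ _
  refine algebraicIndependent_iff.2 fun Q hQ => by_contra fun h => hx Q h ?_
  rw [ev, aeval_map_algebraMap]
  exact hQ

end Pool.Agent.Work.MP_2482e4_mp.Dt
end

-- merged part: Pool.Agent.Work.MP_2482e4_mp.Dt.Amp
section
/-! The amplification lemma on a good piece with a dense set of generic points. -/

open scoped ComplexOrder Topology ContDiff Matrix.Norms.L2Operator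
open Matrix Filter Module

set_option linter.unusedSectionVars false

namespace Pool.Agent.Work.MP_2482e4_mp.Dt
open Gn

variable {n : Type} [Fintype n] [DecidableEq n] {m : ℕ}

theorem good_amp {f : ℝ → ℝ} (hfs : ∀ t, 0 < t → f t = t * f t⁻¹)
    (hf1 : f 1 = 1) (hfd : ContDiffOn ℝ ∞ f (Set.Ioi 0))
    (hfa : AnalyticOnNhd ℝ (fun x => f (Real.exp x)) Set.univ)
    {𝒜 : Submodule ℝ (Mt n)} {N : Set (Mt n)} {l : Mt n → Fin m → ℝ} {P : Mt n → Fin m → Mt n}
    {R : Fin m → Fin m → Prop} (h : Good (wf f) 𝒜 N l P R)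
    (hg : Dense {H : N | GenAt (fun x => f (Real.exp x)) (l H)}) {F : Om N m → ℝ}
    (hF : F ∈ PP (wf f) N l P R) (h0 : ∀ H : N, F (H, jet (wf f) (deriv (wf f)) (l H)) = 0)
    (H : N) (η η' : ℝ → ℝ) : F (H, jet η η' (l H)) = 0 := by
  classical
  have w0 := wf_zero hf1
  have hS := h.strat
  let I := {φ : N → ℝ // ∃ a b, ¬ R a b ∧ φ = fun H : N => |l H a - l H b|}
  let idx : ∀ a b, ¬ R a b → I := fun a b hab => ⟨_, a, b, hab, rfl⟩
  have : Finite I := Finite.of_surjective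
    (fun p : {p : Fin m × Fin m // ¬ R p.1 p.2} => idx p.1.1 p.1.2 p.2)
    (by rintro ⟨_, a, b, hab, rfl⟩; exact ⟨⟨(a, b), hab⟩, rfl⟩)
  have := Fintype.ofFinite I
  have hne : ∀ a b, ¬ R a b → ∀ H : N, l H a - l H b ≠ 0 := fun a b hab H e => by
    obtain ⟨A, -, h1⟩ := h.ncst a b hab H H.2
    exact h1 (by rw [hS.inj H H.2 (sub_eq_zero.1 e)])
  have hor : ∀ i : I, ∃ a b, (∀ H : N, i.1 H = l H a - l H b) ∧
      ∀ H : N, ∃ A ∈ 𝒜, mu (P H) A a ≠ mu (P H) A b := by
    rintro ⟨_, a, b, hab, rfl⟩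
    rcases h.sgn a b with h1 | h1
    · refine ⟨b, a, fun H => ?_, fun H => ?_⟩
      · simp only [abs_of_nonpos (sub_nonpos.2 (h1 H H.2)), neg_sub]
      · obtain ⟨A, hA, h2⟩ := h.ncst a b hab H H.2
        exact ⟨A, hA, h2.symm⟩
    · exact ⟨a, b, fun H => abs_of_pos (sub_pos.2 (h1 H H.2)), fun H => h.ncst a b hab H H.2⟩
  choose pa pb hφ hmu using hor
  have hpos : ∀ (i : I) (H : N), 0 < i.1 H := by
    rintro ⟨_, a, b, hab, rfl⟩ H
    exact abs_pos.2 (hne a b hab H)
  have he : ∀ (i : I) (H : N), Real.exp (i.1 H) - 1 ≠ 0 := fun i H =>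
    (sub_pos.2 (Real.one_lt_exp_iff.2 (hpos i H))).ne'
  have cl : ∀ a, Continuous fun H : N => l H a := fun a =>
    continuousOn_iff_continuous_domRestrict.1 (hS.cl a)
  have cP : ∀ a, Continuous fun H : N => P H a := fun a =>
    continuousOn_iff_continuous_domRestrict.1 (hS.cP a)
  have cφ : ∀ i : I, Continuous i.1 := fun i => by
    rw [funext (hφ i)]
    exact (cl _).sub (cl _)
  let gen : (Fin m × n × n) ⊕ (Fin m × n × n) ⊕ Fin m ⊕ (Fin m × Fin m) ⊕ Fin m ⊕
      {p : Fin m × Fin m // R p.1 p.2} ⊕ I ⊕ I → N → ℝ :=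
    Sum.elim (fun p H => (P H p.1 p.2.1 p.2.2).re) <| Sum.elim (fun p H => (P H p.1 p.2.1 p.2.2).im) <|
    Sum.elim (fun a H => l H a) <| Sum.elim (fun p H => (l H p.1 - l H p.2)⁻¹) <|
    Sum.elim (fun a H => ((P H a).trace.re)⁻¹) <|
    Sum.elim (fun p H => wf f (l H p.1.1 - l H p.1.2)) <|
    Sum.elim (fun i H => Real.exp (i.1 H)) fun i H => (Real.exp (i.1 H) - 1)⁻¹
  let 𝒢 := Algebra.adjoin ℝ (Set.range gen)
  have gm : ∀ j, gen j ∈ 𝒢 := fun j => Algebra.subset_adjoin ⟨j, rfl⟩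
  have gl : ∀ a, (fun H : N => l H a) ∈ 𝒢 := fun a => gm (.inr (.inr (.inl a)))
  have gi : ∀ a b, (fun H : N => (l H a - l H b)⁻¹) ∈ 𝒢 :=
    fun a b => gm (.inr (.inr (.inr (.inl (a, b)))))
  have gt : ∀ a, (fun H : N => ((P H a).trace.re)⁻¹) ∈ 𝒢 :=
    fun a => gm (.inr (.inr (.inr (.inr (.inl a)))))
  have gw : ∀ a b, R a b → (fun H : N => wf f (l H a - l H b)) ∈ 𝒢 :=
    fun a b hab => gm (.inr (.inr (.inr (.inr (.inr (.inl ⟨(a, b), hab⟩))))))
  have ge : ∀ i : I, (fun H : N => Real.exp (i.1 H)) ∈ 𝒢 :=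
    fun i => gm (.inr (.inr (.inr (.inr (.inr (.inr (.inl i)))))))
  have gd : ∀ i : I, (fun H : N => (Real.exp (i.1 H) - 1)⁻¹) ∈ 𝒢 :=
    fun i => gm (.inr (.inr (.inr (.inr (.inr (.inr (.inr i)))))))
  have gφ : ∀ i : I, (fun H : N => i.1 H) ∈ 𝒢 := fun i => by
    simp only [hφ]
    exact fsub (gl _) (gl _)
  let y : I → ℕ → N → ℝ := fun i k H => iteratedDeriv k (fun x => f (Real.exp x)) (i.1 H)
  let 𝒮 := Algebra.adjoin ℝ (Set.range gen ∪ Set.range fun i => y i 0)
  have hle : 𝒢 ≤ 𝒮 := Algebra.adjoin_mono Set.subset_union_left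
  have sP : ∀ a, PM 𝒮 fun H : N => P H a := fun a j k =>
    ⟨hle (gm (.inl (a, j, k))), hle (gm (.inr (.inl (a, j, k))))⟩
  have habs : ∀ x, wf f |x| = wf f x := fun x => by
    rcases abs_choice x with h | h <;> rw [h]
    exact wf_neg hfs x
  have sw : ∀ a b, (fun H : N => wf f (l H a - l H b)) ∈ 𝒮 := fun a b => by
    by_cases hab : R a b
    · exact hle (gw a b hab)
    · have e : (fun H : N => wf f (l H a - l H b)) = fun H : N => (idx a b hab).1 H *
          (Real.exp ((idx a b hab).1 H) - 1)⁻¹ * y (idx a b hab) 0 H := funext fun H => by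
        rw [← habs, wf_eq f (abs_pos.2 (hne a b hab H)).ne']
        rfl
      rw [e]
      exact fmul (hle (fmul (gφ _) (gd _))) (Algebra.subset_adjoin (Or.inr ⟨_, rfl⟩))
  have sZ : ∀ A : Mt n, PM 𝒮 fun H : N => Zf (wf f) (H : Mt n) A := fun A => by
    rw [funext fun H : N => hS.Zf_eq H.2 (wf f) A]
    exact PM.mult sP sw (PM.const A)
  have sm : ∀ A a, (fun H : N => mu (P H) A a) ∈ 𝒮 := fun A a =>
    PM.mean (sP a) (hle (gt a)) (PM.const A)
  let θ : 𝒜 → I → N → ℝ := fun A i H => mu (P H) A (pa i) - mu (P H) A (pb i)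
  have sθ : ∀ A i, θ A i ∈ 𝒮 := fun A i => fsub (sm _ _) (sm _ _)
  let Der : 𝒜 → (N → ℝ) → (N → ℝ) → Prop := fun A g g' => ∀ (H : N) (γ : ℝ → N), γ 0 = H →
    HasDerivAt (fun s => (γ s : Mt n)) (Zf (wf f) (H : Mt n) A) 0 → HasDerivAt (fun s => g (γ s)) (g' H) 0
  have dl : ∀ (A : 𝒜) a b, Der A (fun H => l H a - l H b) fun H => mu (P H) A a - mu (P H) A b :=
    fun A a b H γ h0 hγ => by
      have h1 := fun a => hS.deriv_l H.2 (congrArg Subtype.val h0)
        (Eventually.of_forall fun s => (γ s).2) hγ a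
      simp only [hS.mu_Zf H.2 w0] at h1
      exact (h1 a).sub (h1 b)
  have dφ : ∀ (A : 𝒜) i, Der A (fun H => i.1 H) (θ A i) := fun A i H γ h0 hγ => by
    have h1 := dl A (pa i) (pb i) H γ h0 hγ
    simp only [← hφ] at h1
    exact h1
  have dθ : ∀ (A : 𝒜) i, Der A (fun H => Real.exp (i.1 H)) (fun H => Real.exp (i.1 H) * θ A i H) :=
    fun A i H γ h0 hγ => by
    have h1 := (dφ A i H γ h0 hγ).exp
    simp only [h0] at h1
    exact h1
  let Ψ : N × (I × ℕ → ℝ) → Om N m := fun q => (q.1,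
    fun a b => if hab : R a b then 0 else (idx a b hab).1 q.1 *
      (Real.exp ((idx a b hab).1 q.1) - 1)⁻¹ * q.2 (idx a b hab, 0),
    fun a b => if hab : R a b then 0 else (SignType.sign (l q.1 a - l q.1 b) : ℝ) *
      (((Real.exp ((idx a b hab).1 q.1) - 1)⁻¹ - (idx a b hab).1 q.1 * Real.exp ((idx a b hab).1 q.1) *
        (Real.exp ((idx a b hab).1 q.1) - 1)⁻¹ ^ 2) * q.2 (idx a b hab, 0) +
      (idx a b hab).1 q.1 * (Real.exp ((idx a b hab).1 q.1) - 1)⁻¹ * q.2 (idx a b hab, 1)))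
  have loc : ∀ (H : N) (u v : (Fin m → Fin m → ℝ) × (Fin m → Fin m → ℝ)),
      (∀ a b, ¬ R a b → u.1 a b = v.1 a b ∧ u.2 a b = v.2 a b) → F (H, u) = F (H, v) := by
    intro H u v huv
    refine adj_eq ?_ hF
    rintro _ (⟨a, j, k, rfl⟩ | ⟨a, j, k, rfl⟩ | ⟨a, rfl⟩ | ⟨a, b, rfl⟩ | ⟨a, rfl⟩ | ⟨a, b, -, rfl⟩ |
      ⟨a, b, hab, rfl⟩ | ⟨a, b, hab, rfl⟩)
    exacts [rfl, rfl, rfl, rfl, rfl, rfl, (huv a b hab).1, (huv a b hab).2]
  have key : F ∘ Ψ = 0 := by
    refine Dt.ampl Der (fun _ c _ _ _ _ => hasDerivAt_const 0 c)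
      (fun _ _ _ _ _ h1 h2 H γ h0 hγ => (h1 H γ h0 hγ).add (h2 H γ h0 hγ))
      (fun _ _ _ _ _ h1 h2 H γ h0 hγ => by
        have := (h1 H γ h0 hγ).mul (h2 H γ h0 hγ)
        simp only [h0] at this
        exact this)
      (fun A g' h1 => funext fun H => ?_) (Set.range gen) (Set.finite_range gen) y θ ?_ sθ
      (fun A i k H γ h0 hγ => ?_) (fun H i => ?_) ?_ (fun i k => ?_) (hg.mono fun H hH => ?_) ?_
      fun H => ?_
    · obtain ⟨γ, h0, h2, h3⟩ := h.leaf.curve H H.2 A A.2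
      refine (h1 H (fun s => if hs : γ s ∈ N then ⟨γ s, hs⟩ else H) ?_
        (h3.congr_of_eventuallyEq ?_)).unique (hasDerivAt_const 0 0)
      · simp only [h0, H.2, dite_true]
      · filter_upwards [h2] with s hs
        simp only [hs, dite_true]
    · have dP' : ∀ (A : 𝒜) a (L : Mt n →ₗ[ℝ] ℝ), Der A (fun H => L (P H a))
          fun H => L (dP (P H) (l H) (Zf (wf f) (H : Mt n) A) a) := fun A a L H γ h0 hγ =>
        entry_deriv (hS.deriv_P H.2 (congrArg Subtype.val h0)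
          (Eventually.of_forall fun s => (γ s).2) hγ a) L
      have sd := fun (A : Mt n) a => PM.dproj sP (fun a b => hle (gi a b)) (sZ A) a
      rintro A _ ⟨⟨a, j, k⟩ | ⟨a, j, k⟩ | a | ⟨a, b⟩ | a | ⟨⟨a, b⟩, hab⟩ | i | i, rfl⟩
      · exact ⟨_, (sd A a j k).1, dP' A a (reE j k)⟩
      · exact ⟨_, (sd A a j k).2, dP' A a (imE j k)⟩
      · refine ⟨_, sm A a, fun H γ h0 hγ => ?_⟩
        have h1 := hS.deriv_l H.2 (congrArg Subtype.val h0)
          (Eventually.of_forall fun s => (γ s).2) hγ a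
        rwa [hS.mu_Zf H.2 w0] at h1
      · refine ⟨_, fneg (fmul (fsub (sm A a) (sm A b)) (fpow (hle (gi a b)) 2)),
          fun H γ h0 hγ => ?_⟩
        rcases eq_or_ne a b with rfl | hab
        · simpa [gen] using hasDerivAt_const (0 : ℝ) (0 : ℝ)
        · have h1 := (dl A a b H γ h0 hγ).inv (by
            simp only [h0]
            exact sub_ne_zero.2 fun e => hab (hS.inj H H.2 e))
          simp only [h0] at h1
          refine HasDerivAt.congr_deriv h1 ?_
          rw [inv_pow, neg_div, div_eq_mul_inv]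
      · exact ⟨_, fconst 0, fun H γ h0 hγ => hS.trinv H.2 (congrArg Subtype.val h0)
          (Eventually.of_forall fun s => (γ s).2) hγ a⟩
      · refine ⟨_, fconst 0, fun H γ h0 hγ => ?_⟩
        rcases eq_or_ne a b with rfl | hab'
        · simpa [gen] using hasDerivAt_const (0 : ℝ) (wf f 0)
        · have h1 := dl A a b H γ h0 hγ
          simp only [h.cst a b hab H H.2 A A.2, sub_self] at h1
          have h2 := HasDerivAt.comp_of_eq (0 : ℝ) (wf_hasDerivAt hfd
            (sub_ne_zero.2 fun e => hab' (hS.inj H H.2 e))) h1 (by simp only [h0])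
          rw [mul_zero] at h2
          exact h2
      · exact ⟨_, fmul (hle (ge i)) (sθ A i), dθ A i⟩
      · refine ⟨_, fneg (fmul (fmul (hle (ge i)) (sθ A i)) (fpow (hle (gd i)) 2)),
          fun H γ h0 hγ => ?_⟩
        have h1 := ((dθ A i H γ h0 hγ).sub_const 1).inv (by simp only [h0]; exact he i H)
        simp only [h0] at h1
        refine HasDerivAt.congr_deriv h1 ?_
        rw [inv_pow, neg_div, div_eq_mul_inv]
    · have h1 := HasDerivAt.comp_of_eq (0 : ℝ) (jet_hasDerivAt hfa k (i.1 H))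
        (dφ A i H γ h0 hγ) (by simp only [h0])
      rw [mul_comm] at h1
      exact h1
    · obtain ⟨A, hA, h1⟩ := hmu i H
      exact ⟨⟨A, hA⟩, sub_ne_zero.2 h1⟩
    · rintro _ ⟨⟨a, j, k⟩ | ⟨a, j, k⟩ | a | ⟨a, b⟩ | a | ⟨⟨a, b⟩, hab⟩ | i | i, rfl⟩
      · exact Complex.continuous_re.comp ((cP a).matrix_elem j k)
      · exact Complex.continuous_im.comp ((cP a).matrix_elem j k)
      · exact cl a
      · rcases eq_or_ne a b with rfl | hab
        · simpa [gen] using continuous_const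
        · exact ((cl a).sub (cl b)).inv₀ fun H => sub_ne_zero.2 fun e => hab (hS.inj H H.2 e)
      · exact (Complex.continuous_re.comp (cP a).matrix_trace).inv₀ fun H =>
          ((hS.res H H.2).trace_pos (hS.ne H H.2 a)).ne'
      · rcases eq_or_ne a b with rfl | hab'
        · simpa [gen] using continuous_const
        · exact continuous_iff_continuousAt.2 fun H => ContinuousAt.comp (g := wf f)
            (wf_hasDerivAt hfd (sub_ne_zero.2 fun e => hab' (hS.inj H H.2 e))).continuousAt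
            ((cl a).sub (cl b)).continuousAt
      · exact Real.continuous_exp.comp (cφ i)
      · exact ((Real.continuous_exp.comp (cφ i)).sub continuous_const).inv₀ (he i)
    · exact (continuous_iff_continuousAt.2 fun u => (jet_hasDerivAt hfa k u).continuousAt).comp
        (cφ i)
    · have hK := hH (Set.range fun i : I => (pa i, pb i)) (by
        rintro _ ⟨i, rfl⟩ e
        have h1 := hpos i H
        rw [hφ, show pa i = pb i from e, sub_self] at h1
        exact lt_irrefl _ h1) (by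
        rintro _ ⟨i, rfl⟩ ⟨j, e⟩
        obtain ⟨e1, e2⟩ := Prod.mk.inj e
        have h1 := hpos i H
        have h2 := hpos j H
        rw [hφ] at h1 h2
        rw [e1, e2] at h2
        linarith)
      have hK' := hK.comp (fun p : I × ℕ => (⟨(pa p.1, pb p.1), p.1, rfl⟩, p.2)) (by
        rintro ⟨i, k⟩ ⟨j, k'⟩ e
        obtain ⟨e1, e2⟩ := Prod.mk.inj e
        obtain ⟨e3, e4⟩ := Prod.mk.inj (congrArg Subtype.val e1)
        refine Prod.ext (Subtype.ext (funext fun H' => ?_)) e2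
        rw [hφ, hφ]
        exact congrArg₂ (fun a b => l H' a - l H' b) e3 e4)
      simp only [Set.mem_ofPred_eq, y, hφ]
      exact hK'
    · set 𝒯 := Algebra.adjoin ℝ ((fun (g : N → ℝ) (q : N × (I × ℕ → ℝ)) => g q.1) '' Set.range gen ∪
        Set.range fun (p : I × ℕ) (q : N × (I × ℕ → ℝ)) => q.2 p)
      have up : ∀ {g : N → ℝ}, g ∈ 𝒢 → (fun q : N × (I × ℕ → ℝ) => g q.1) ∈ 𝒯 := fun hg =>
        adj_comp Prod.fst (fun g hg => Algebra.subset_adjoin (Or.inl ⟨g, hg, rfl⟩)) hg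
      have fr : ∀ p, (fun q : N × (I × ℕ → ℝ) => q.2 p) ∈ 𝒯 :=
        fun p => Algebra.subset_adjoin (Or.inr ⟨p, rfl⟩)
      refine adj_comp Ψ ?_ hF
      rintro _ (⟨a, j, k, rfl⟩ | ⟨a, j, k, rfl⟩ | ⟨a, rfl⟩ | ⟨a, b, rfl⟩ | ⟨a, rfl⟩ |
        ⟨a, b, hab, rfl⟩ | ⟨a, b, hab, rfl⟩ | ⟨a, b, hab, rfl⟩)
      · exact up (gm (.inl (a, j, k)))
      · exact up (gm (.inr (.inl (a, j, k))))
      · exact up (gl a)
      · exact up (gi a b)
      · exact up (gt a)
      · exact up (gw a b hab)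
      · simp only [Function.comp_def, Ψ, dif_neg hab]
        exact fmul (up (fmul (gφ _) (gd _))) (fr _)
      · simp only [Function.comp_def, Ψ, dif_neg hab]
        refine fmul (up (g := fun H => (SignType.sign (l H a - l H b) : ℝ)) ?_)
          (fadd (fmul (up (fsub (gd _) (fmul (fmul (gφ _) (ge _)) (fpow (gd _) 2)))) (fr _))
            (fmul (up (fmul (gφ _) (gd _))) (fr _)))
        rcases h.sgn a b with h1 | h1
        · have e : ∀ H : N, SignType.sign (l H a - l H b) = -1 := fun H =>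
            sign_neg ((sub_nonpos.2 (h1 H H.2)).lt_of_ne (hne a b hab H))
          simp only [e]
          exact fconst _
        · have e : ∀ H : N, SignType.sign (l H a - l H b) = 1 := fun H =>
            sign_pos (sub_pos.2 (h1 H H.2))
          simp only [e]
          exact fconst _
    · refine (loc H _ _ fun a b hab => ?_).trans (h0 H)
      have h1 := (abs_pos.2 (hne a b hab H)).ne'
      have h2 : deriv (fun x => f (Real.exp x)) |l H a - l H b| =
          deriv f (Real.exp |l H a - l H b|) * Real.exp |l H a - l H b| :=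
        (((hfd.contDiffAt (Ioi_mem_nhds (Real.exp_pos _))).differentiableAt
          (by simp)).hasDerivAt.comp _ (Real.hasDerivAt_exp _)).deriv
      simp only [dif_neg hab, jet, wf_eq f h1, (wf_hasDerivAt hfd h1).deriv, y,
        iteratedDeriv_zero, iteratedDeriv_one]
      refine ⟨rfl, ?_⟩
      simp only [idx, h2]
      ring
  let ξ : I → ℝ := fun i => η (i.1 H) / (i.1 H * (Real.exp (i.1 H) - 1)⁻¹)
  refine (loc H _ _ fun a b hab => ?_).trans (congrFun key (H, fun p => if p.2 = 0 then ξ p.1 else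
    (η' (p.1.1 H) - ((Real.exp (p.1.1 H) - 1)⁻¹ - p.1.1 H * Real.exp (p.1.1 H) *
      (Real.exp (p.1.1 H) - 1)⁻¹ ^ 2) * ξ p.1) /
        (p.1.1 H * (Real.exp (p.1.1 H) - 1)⁻¹)))
  have h1 := (hpos (idx a b hab) H).ne'
  have h2 := inv_ne_zero (he (idx a b hab) H)
  simp only [dif_neg hab, jet, if_true, one_ne_zero, if_false]
  rw [mul_div_cancel₀ _ (mul_ne_zero h1 h2), mul_div_cancel₀ _ (mul_ne_zero h1 h2), add_sub_cancel]
  exact ⟨rfl, rfl⟩

end Pool.Agent.Work.MP_2482e4_mp.Dt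
end

-- merged part: Pool.Agent.Work.MP_2482e4_mp.Dt.Rel
section
/-!
The relations that hold on a good piece of a leaf with a dense set of generic points.
-/

open scoped ComplexOrder Topology ContDiff Matrix.Norms.L2Operator
open Matrix Filter Module

set_option linter.unusedSectionVars false

namespace Pool.Agent.Work.MP_2482e4_mp.Dt
open Gn

variable {n : Type} [Fintype n] [DecidableEq n]

variable {m : ℕ} {f : ℝ → ℝ} {𝒜 : Submodule ℝ (Mt n)} {N : Set (Mt n)} {l : Mt n → Fin m → ℝ}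
  {P : Mt n → Fin m → Mt n} {R : Fin m → Fin m → Prop}

/-- The hypotheses on `f`. -/
structure AnF (f : ℝ → ℝ) : Prop where
  pos : ∀ t, 0 < t → 0 < f t
  symm : ∀ t, 0 < t → f t = t * f t⁻¹
  one : f 1 = 1
  smooth : ContDiffOn ℝ ∞ f (Set.Ioi 0)
  an : AnalyticOnNhd ℝ (fun x => f (Real.exp x)) Set.univ

/-- The generic points are dense. -/
def Dn (f : ℝ → ℝ) (N : Set (Mt n)) (l : Mt n → Fin m → ℝ) : Prop :=
  Dense {H : N | GenAt (fun x => f (Real.exp x)) (l H)}

theorem wf_abs' (hf : AnF f) (x : ℝ) : wf f |x| = wf f x := by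
  rcases abs_choice x with h | h <;> rw [h]
  exact wf_neg hf.symm x

theorem g_irr (hf : AnF f) (h : Good (wf f) 𝒜 N l P R) (hg : Dn f N l)
    (hA : ∀ A ∈ 𝒜, A.IsHermitian)
    {H : Mt n} (hH : H ∈ N) {A : Mt n} (hA' : A ∈ 𝒜) {a b : Fin m} (hab : R a b) (hne : a ≠ b) :
    P H a * A * P H b = 0 := by
  classical
  have hS := h.strat
  let K : Om N m → Fin m → Fin m → ℝ := fun x a b =>
    if R a b then wf f (l x.1 a - l x.1 b) else x.2.1 a b
  have hK : ∀ a b, (fun x => K x a b) ∈ PP (wf f) N l P R := fun a b => by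
    by_cases hab : R a b
    · simpa only [K, if_pos hab] using PP_w hab
    · simpa only [K, if_neg hab] using PP_k hab
  let S : Om N m → Fin m → ℝ := fun x a =>
    (dP (P x.1) (l x.1) (mlt (P x.1) (K x) A) a * A).trace.re * ((P x.1 a).trace.re)⁻¹
  have hSm : ∀ a, (fun x => S x a) ∈ PP (wf f) N l P R := fun a =>
    fmul ((PM.dproj PP_P PP_i (PM.mult PP_P hK (PM.const A)) a).mul (PM.const A)).trace (PP_t a)
  have key : ∀ a b, R a b → S (⟨H, hH⟩, jet 0 0 (l H)) a = S (⟨H, hH⟩, jet 0 0 (l H)) b := by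
    intro a b hab
    refine sub_eq_zero.1 (good_amp hf.symm hf.one hf.smooth hf.an h hg (fsub (hSm a) (hSm b))
      (fun H' => ?_) ⟨H, hH⟩ 0 0)
    obtain ⟨γ, h0, h1, h2⟩ := h.leaf.curve H' H'.2 A hA'
    have e : mlt (P H') (K (H', jet (wf f) (deriv (wf f)) (l H'))) A = Zf (wf f) H' A := by
      rw [hS.Zf_eq H'.2]
      congr 2
      funext a b
      simp only [K, jet, wf_abs' hf, ite_self]
    have d : ∀ a, HasDerivAt (fun s => mu (P (γ s)) A a)
        (S (H', jet (wf f) (deriv (wf f)) (l H')) a) 0 := fun a => by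
      have h3 := (entry_deriv ((hS.deriv_P H'.2 h0 h1 h2 a).mul_const A) trE).mul
        (hS.trinv H'.2 h0 h1 h2 a)
      simp only [mul_zero, add_zero, h0] at h3
      simp only [S, e]
      exact h3
    exact sub_eq_zero.2 ((d a).unique ((d b).congr_of_eventuallyEq
      (h1.mono fun s hs => h.cst a b hab _ hs A hA')))
  have hr := hS.res H hH
  let K0 : Fin m → Fin m → ℝ := K (⟨H, hH⟩, jet 0 0 (l H))
  have K0n : ∀ a b, 0 ≤ K0 a b := fun a b => by
    by_cases hab : R a b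
    · simpa only [K0, K, if_pos hab] using (wf_pos hf.pos _).le
    · simp [K0, K, if_neg hab, jet]
  have h1 := irr_alg (M := fun a c => (K0 a c + K0 c a) * ip (P H a * A * P H c) (P H a * A * P H c))
    (S := S (⟨H, hH⟩, jet 0 0 (l H))) (hS.inj H hH) (fun a => hr.trace_pos (hS.ne H hH a))
    (fun a c => by
      rw [← (hr.trace_comp (hA A hA') a c).1, ← (hr.trace_comp (hA A hA') c a).2, add_comm])
    (fun a c => mul_nonneg (add_nonneg (K0n a c) (K0n c a)) (ip_self_nonneg _))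
    (fun a => ?_) (fun a c hac => ?_) hne
  · have h2 : 0 < K0 a b := by simpa only [K0, K, if_pos hab] using wf_pos hf.pos _
    exact ip_self_eq_zero ((mul_eq_zero.1 h1).resolve_left (add_pos_of_pos_of_nonneg h2 (K0n b a)).ne')
  · simp only [S]
    rw [mul_comm ((P H a).trace.re), inv_mul_cancel_right₀ (hr.trace_pos (hS.ne H hH a)).ne']
    simp only [dP, hr.comp_mk, Finset.sum_mul, smul_mul_assoc, add_mul, trace_sum, trace_smul,
      trace_add, Complex.re_sum, Complex.add_re, Complex.smul_re, smul_eq_mul,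
      (hr.trace_comp (hA A hA') a _).1, (hr.trace_comp (hA A hA') a _).2]
    rfl
  · by_cases h2 : R a c
    · exact key a c h2
    · by_cases h3 : R c a
      · exact (key c a h3).symm
      · simp [K0, K, h2, h3, jet] at hac

theorem g_Zf_Kc (hf : AnF f) (h : Good (wf f) 𝒜 N l P R) (hg : Dn f N l)
    (hA : ∀ A ∈ 𝒜, A.IsHermitian)
    (c : ℝ) {e : ℕ} (he : e ≠ 0) (w' : ℝ → ℝ) {H : Mt n} (hH : H ∈ N) {A : Mt n} (hA' : A ∈ 𝒜) :
    Zf (wf f) H A = mlt (P H) (Kc R c e (l H) (jet (wf f) w' (l H)).1) A := by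
  rw [h.strat.Zf_eq hH]
  refine mk_congr fun a b hab => ?_
  by_cases h1 : R a b
  · obtain rfl : a = b := by_contra fun hne => hab (g_irr hf h hg hA hH hA' h1 hne)
    simp [Kc, h1, wf_zero hf.one, he]
  · simp only [Kc, if_neg h1, jet, wf_abs' hf]

theorem g_Kc_deriv (hf : AnF f) (h : Good (wf f) 𝒜 N l P R) (c : ℝ) (e : ℕ) {H v : Mt n}
    (hH : H ∈ N) {γ : ℝ → Mt n} (h0 : γ 0 = H) (hN : ∀ᶠ s in 𝓝 (0 : ℝ), γ s ∈ N)
    (hγ : HasDerivAt γ v 0) (a b : Fin m) :
    HasDerivAt (fun s => Kc R c e (l (γ s)) (jet (wf f) (deriv (wf f)) (l (γ s))).1 a b)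
      (Kd R c e (l H) (jet (wf f) (deriv (wf f)) (l H)).2 a b * (mu (P H) v a - mu (P H) v b)) 0 := by
  have h1 := (h.strat.deriv_l hH h0 hN hγ a).sub (h.strat.deriv_l hH h0 hN hγ b)
  by_cases hab : R a b
  · simp only [Kc, Kd, if_pos hab]
    have h2 := ((h1.pow e).const_mul c).const_add 1
    simp only [Pi.sub_apply, h0] at h2
    exact HasDerivAt.congr_deriv h2 (by ring)
  · simp only [Kc, Kd, if_neg hab, jet]
    have h2 : l H a - l H b ≠ 0 := fun e => by
      obtain ⟨A, -, h3⟩ := h.ncst a b hab H hH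
      exact h3 (by rw [h.strat.inj H hH (sub_eq_zero.1 e)])
    have h3 := (wf_hasDerivAt hf.smooth (abs_pos.2 h2).ne').differentiableAt.hasDerivAt.comp
      (l H a - l H b) (hasDerivAt_abs h2)
    have h4 := HasDerivAt.comp_of_eq (0 : ℝ) h3 h1 (by simp only [Pi.sub_apply, h0])
    exact HasDerivAt.congr_deriv h4 (by ring)

theorem g_stab (hf : AnF f) (h : Good (wf f) 𝒜 N l P R) (hg : Dn f N l)
    (hA : ∀ A ∈ 𝒜, A.IsHermitian)
    {F : Mt n → ℝ} (hF : F ∈ Pol n) (h0 : ∀ H ∈ N, F H = 0) {H : Mt n} (hH : H ∈ N) {A : Mt n}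
    (hA' : A ∈ 𝒜) : fderiv ℝ F H A = 0 ∧ fderiv ℝ F H ⁅H, ⁅H, A⁆⁆ = 0 := by
  have hS := h.strat
  have hr := hS.res H hH
  have hid : PM (PP (wf f) N l P R) fun x : Om N m => (x.1 : Mt n) := by
    have : (fun x : Om N m => (x.1 : Mt n)) = fun x => ∑ a, l x.1 a • P x.1 a :=
      funext fun x => hS.eq _ x.1.2
    rw [this]
    exact PM.sum _ fun a _ => PM.smul (PP_l a) (PP_P a)
  have key : ∀ c : ℝ, fderiv ℝ F H (mlt (P H) (fun a b => 1 + c * (l H a - l H b) ^ 2) A) = 0 := by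
    intro c
    have := good_amp hf.symm hf.one hf.smooth hf.an h hg
      (pol_fderiv hF hid (PM.mult PP_P (Kc_mem (wf f) c 2) (PM.const A))) (fun H' => ?_) ⟨H, hH⟩
      (fun x => 1 + c * x ^ 2) 0
    · rwa [Kc_free c even_two] at this
    · obtain ⟨γ, e0, h1, h2⟩ := h.leaf.curve H' H'.2 A hA'
      simp only [← g_Zf_Kc hf h hg hA c two_ne_zero _ H'.2 hA']
      exact (HasFDerivAt.comp_hasDerivAt_of_eq (0 : ℝ) (pol_differentiable hF H').hasFDerivAt h2
        e0.symm).unique ((hasDerivAt_const (0 : ℝ) (0 : ℝ)).congr_of_eventuallyEq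
          (h1.mono fun s hs => h0 _ hs))
  have h1 : fderiv ℝ F H A = 0 := by
    have := key 0
    simp only [zero_mul, add_zero, hr.mk_one] at this
    exact this
  refine ⟨h1, ?_⟩
  have h2 := key 1
  have h3 : ⁅H, ⁅H, A⁆⁆ = mlt (P H) (fun a b => (l H a - l H b) ^ 2) A := by
    rw [← hr.ad_pow, ← hS.eq H hH]
    rfl
  simp only [one_mul] at h2
  rwa [mk_add, hr.mk_one, map_add, h1, zero_add, ← h3] at h2

theorem g_tor_true (hf : AnF f) (h : Good (wf f) 𝒜 N l P R) (hg : Dn f N l)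
    (hA : ∀ A ∈ 𝒜, A.IsHermitian)
    (c : ℝ) {e : ℕ} (he0 : e ≠ 0) {H : Mt n} (hH : H ∈ N) {A B : Mt n} (hA' : A ∈ 𝒜) (hB : B ∈ 𝒜) :
    ∃ C ∈ 𝒜, TT (P H) (l H) (Kc R c e (l H) (jet (wf f) (deriv (wf f)) (l H)).1)
      (Kd R c e (l H) (jet (wf f) (deriv (wf f)) (l H)).2)
      (Kc R c e (l H) (jet (wf f) (deriv (wf f)) (l H)).1) A B =
        mlt (P H) (Kc R c e (l H) (jet (wf f) (deriv (wf f)) (l H)).1) C := by
  obtain ⟨γ, γ0, γN, γd⟩ := h.leaf.curve H hH A hA'
  obtain ⟨δ, δ0, δN, δd⟩ := h.leaf.curve H hH B hB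
  have h1 := (h.strat.hasDerivAt_mk hH γ0 γN γd
    (κ := fun s => Kc R c e (l (γ s)) (jet (wf f) (deriv (wf f)) (l (γ s))).1)
    (g_Kc_deriv hf h c e hH γ0 γN γd) B).congr_of_eventuallyEq
      (f₁ := fun s => Zf (wf f) (γ s) B) (γN.mono fun s hs => g_Zf_Kc hf h hg hA c he0 _ hs hB)
  have h2 := (h.strat.hasDerivAt_mk hH δ0 δN δd
    (κ := fun s => Kc R c e (l (δ s)) (jet (wf f) (deriv (wf f)) (l (δ s))).1)
    (g_Kc_deriv hf h c e hH δ0 δN δd) A).congr_of_eventuallyEq
      (f₁ := fun s => Zf (wf f) (δ s) A) (δN.mono fun s hs => g_Zf_Kc hf h hg hA c he0 _ hs hA')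
  obtain ⟨C, hC, e1⟩ := h.leaf.invol H hH A hA' B hB γ δ _ _ γ0 δ0 γN δN γd δd h1 h2
  refine ⟨C, hC, ?_⟩
  rw [γ0, δ0, g_Zf_Kc hf h hg hA c he0 (deriv (wf f)) hH hA', g_Zf_Kc hf h hg hA c he0 (deriv (wf f)) hH hB,
    g_Zf_Kc hf h hg hA c he0 (deriv (wf f)) hH hC] at e1
  exact e1

theorem g_tor_mem (hf : AnF f) (h : Good (wf f) 𝒜 N l P R) (hg : Dn f N l)
    (hA : ∀ A ∈ 𝒜, A.IsHermitian)
    {H : Mt n} (hH : H ∈ N) {A B : Mt n} (hA' : A ∈ 𝒜) (hB : B ∈ 𝒜) (k : ℕ) :
    tor (2 * k) H A B ∈ 𝒜 := by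
  rcases eq_or_ne k 0 with rfl | hk
  · simp [tor, dad]
  have he : Even (2 * k) := even_two_mul k
  have he0 : 2 * k ≠ 0 := by omega
  generalize 2 * k = e at he he0
  have hS := h.strat
  refine mem_of_perp fun M hM => ?_
  have h3 : tor e H A B = tor e (dg (P H) (l H)) A B := by rw [← hS.eq H hH]
  rw [h3]
  refine (hS.res H hH).tor_lim (hS.inj H hH) e M A B fun c => ?_
  have hm := TT_mem (𝒮 := PP (wf f) N l P R) (P := fun x => P x.1) (l := fun x => l x.1)
    PP_P PP_i (Kc_mem (wf f) c e) (Kd_mem (wf f) c e) (Kc_mem (wf f) c e) M A B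
  have := good_amp hf.symm hf.one hf.smooth hf.an h hg hm (fun H' => by
    obtain ⟨C, hC, e1⟩ := g_tor_true hf h hg hA c he0 H'.2 hA' hB
    rw [e1, (hS.res H' H'.2).oth_mlt, map_smul, ip_comm, hM C hC, smul_zero])
    ⟨H, hH⟩ (fun x => 1 + c * x ^ e) fun x => c * (e * x ^ (e - 1))
  beta_reduce at this
  rwa [Kc_free c he, Kd_free c he he0, TT_lin, map_smul, map_smul, smul_eq_mul] at this

end Pool.Agent.Work.MP_2482e4_mp.Dt
end

-- merged part: Pool.Agent.Work.MP_2482e4_mp.Dt.Ode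
section
/-! Solutions of analytic autonomous differential equations are analytic. -/

open scoped Topology ContDiff
open Filter Set

namespace Pool.Agent.Work.MP_2482e4_mp.Dt

variable {E : Type} [NormedAddCommGroup E] [NormedSpace ℝ E]

/-- Pointwise application of a multilinear map. -/
noncomputable def liftM {k : ℕ} (p : ContinuousMultilinearMap ℝ (fun _ : Fin k => E) E) :
    MultilinearMap ℝ (fun _ : Fin k => C(Icc (0 : ℝ) 1, E)) C(Icc (0 : ℝ) 1, E) where
  toFun γ := ⟨fun s => p fun i => γ i s,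
    p.cont.comp (continuous_pi fun i => (γ i).continuous)⟩
  map_update_add' γ i a b := by
    ext s
    simp only [ContinuousMap.coe_mk, ContinuousMap.add_apply,
      Function.apply_update (fun _ (g : C(Icc (0 : ℝ) 1, E)) => g s)]
    exact p.map_update_add (fun i => γ i s) i (a s) (b s)
  map_update_smul' γ i c a := by
    ext s
    simp only [ContinuousMap.coe_mk, ContinuousMap.smul_apply,
      Function.apply_update (fun _ (g : C(Icc (0 : ℝ) 1, E)) => g s)]
    exact p.map_update_smul (fun i => γ i s) i c (a s)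

theorem liftM_bound {k : ℕ} (p : ContinuousMultilinearMap ℝ (fun _ : Fin k => E) E)
    (γ : Fin k → C(Icc (0 : ℝ) 1, E)) : ‖liftM p γ‖ ≤ ‖p‖ * ∏ i, ‖γ i‖ := by
  refine (ContinuousMap.norm_le _ (by positivity)).2 fun s => (p.le_opNorm _).trans ?_
  gcongr with i
  exact (γ i).norm_coe_le_norm s

/-- The Volterra operator. -/
noncomputable def vol [CompleteSpace E] : C(Icc (0 : ℝ) 1, E) →L[ℝ] C(Icc (0 : ℝ) 1, E) :=
  LinearMap.mkContinuous
    { toFun := fun ζ => ⟨fun t => ∫ s in (0 : ℝ)..t, ζ (projIcc 0 1 zero_le_one s),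
        (intervalIntegral.continuous_primitive (fun a b =>
          (ζ.continuous.comp continuous_projIcc).intervalIntegrable a b) 0).comp
          continuous_subtype_val⟩
      map_add' := fun ζ η => by
        ext t
        exact intervalIntegral.integral_add
          ((ζ.continuous.comp continuous_projIcc).intervalIntegrable _ _)
          ((η.continuous.comp continuous_projIcc).intervalIntegrable _ _)
      map_smul' := fun c ζ => by
        ext t
        exact intervalIntegral.integral_smul c _ } 1 fun ζ => by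
    refine (ContinuousMap.norm_le _ (by positivity)).2 fun t => ?_
    refine (intervalIntegral.norm_integral_le_of_norm_le_const (C := ‖ζ‖)
      fun s _ => ζ.norm_coe_le_norm _).trans ?_
    rw [sub_zero, abs_of_nonneg t.2.1, mul_comm]
    gcongr
    exact t.2.2

theorem ode_analytic' [CompleteSpace E] {X : E → E} {y : ℝ → E} {t₀ : ℝ} (hc : Continuous y)
    (hX : AnalyticAt ℝ X (y t₀)) (hy : ∀ᶠ t in 𝓝 t₀, HasDerivAt y (X (y t)) t) :
    AnalyticAt ℝ y t₀ := by
  obtain ⟨p, r, hp⟩ := hX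
  let q : FormalMultilinearSeries ℝ C(Icc (0 : ℝ) 1, E) C(Icc (0 : ℝ) 1, E) :=
    fun k => (liftM (p k)).mkContinuous ‖p k‖ (liftM_bound (p k))
  have hr : r ≤ q.radius := hp.r_le.trans (FormalMultilinearSeries.radius_le_of_le fun k =>
    MultilinearMap.mkContinuous_norm_le _ (norm_nonneg _) _)
  have hq := q.hasFPowerSeriesOnBall (hp.r_pos.trans_le hr)
  have hqs : ∀ γ ∈ Metric.eball (0 : C(Icc (0 : ℝ) 1, E)) r, ∀ s, q.sum γ s = X (y t₀ + γ s) := by
    intro γ hγ s
    have h1 := (ContinuousMap.evalCLM ℝ s).hasSum (q.hasSum (Metric.eball_subset_eball hr hγ))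
    refine h1.unique (hp.hasSum ?_)
    rw [Metric.mem_eball, edist_zero_right] at hγ ⊢
    exact lt_of_le_of_lt (enorm_le_iff_norm_le.2 (γ.norm_coe_le_norm s)) hγ
  let G : ℝ × C(Icc (0 : ℝ) 1, E) → C(Icc (0 : ℝ) 1, E) := fun v => v.2 - v.1 • vol (q.sum v.2)
  have hG : ContDiffAt ℝ ω G (0, 0) :=
    contDiffAt_snd.sub (contDiffAt_fst.smul (vol.contDiff.contDiffAt.comp _
      (ContDiffAt.comp (g := q.sum) ((0 : ℝ), (0 : C(Icc (0 : ℝ) 1, E)))
        hq.analyticAt.contDiffAt contDiffAt_snd)))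
  have hinv : (fderiv ℝ G (0, 0) ∘L .inr ℝ ℝ C(Icc (0 : ℝ) 1, E)).IsInvertible := by
    have h1 := HasFDerivAt.comp (0 : C(Icc (0 : ℝ) 1, E))
      (f := ContinuousLinearMap.inr ℝ ℝ C(Icc (0 : ℝ) 1, E))
      (hG.differentiableAt (by simp)).hasFDerivAt (ContinuousLinearMap.hasFDerivAt _)
    have h2 : G ∘ ContinuousLinearMap.inr ℝ ℝ C(Icc (0 : ℝ) 1, E) = id := funext fun γ => by
      simp [G]
    rw [h2] at h1
    rw [h1.unique (hasFDerivAt_id _)]
    exact ContinuousLinearMap.isInvertible_equiv (f := ContinuousLinearEquiv.refl ℝ _)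
  have hψ := (hG.contDiffAt_implicitFunction (by simp) hinv).analyticAt
  let η : C(ℝ, C(Icc (0 : ℝ) 1, E)) := ContinuousMap.curry
    ⟨fun v : ℝ × Icc (0 : ℝ) 1 => y (t₀ + v.1 * v.2) - y t₀, by fun_prop⟩
  have hη : ∀ τ s, η τ s = y (t₀ + τ * s) - y t₀ := fun _ _ => rfl
  have η0 : η 0 = 0 := by
    ext s
    simp [hη]
  have h1 : Tendsto (fun τ => (τ, η τ)) (𝓝 0) (𝓝 (0, 0)) := by
    have := (continuous_id.prodMk η.continuous).tendsto 0
    rwa [η0] at this
  obtain ⟨δ, hδ, hb⟩ := Metric.eventually_nhds_iff_ball.1 hy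
  have h2 : ∀ᶠ τ in 𝓝 (0 : ℝ), η τ ∈ Metric.eball (0 : C(Icc (0 : ℝ) 1, E)) r :=
    η.continuous.continuousAt.eventually (η0 ▸ Metric.eball_mem_nhds _ hp.r_pos)
  have h3 : ∀ᶠ τ in 𝓝 (0 : ℝ), y (t₀ + τ) = y t₀ +
      hG.implicitFunction (by simp) hinv τ ⟨1, zero_le_one, le_rfl⟩ := by
    filter_upwards [h1.eventually (hG.eventually_apply_eq_iff_implicitFunction (by simp) hinv), h2,
      Metric.ball_mem_nhds (0 : ℝ) hδ] with τ e hτ hτ'
    rw [e.1, hη]
    · simp
    ext s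
    have h4 : ∫ u in (0 : ℝ)..s, τ • q.sum (η τ) (projIcc 0 1 zero_le_one u) =
        y (t₀ + τ * s) - y (t₀ + τ * 0) := by
      refine intervalIntegral.integral_eq_sub_of_hasDerivAt (f := fun u => y (t₀ + τ * u))
        (fun u hu => ?_) (((q.sum (η τ)).continuous.comp
          continuous_projIcc).const_smul τ |>.intervalIntegrable _ _)
      rw [uIcc_of_le s.2.1] at hu
      have hu' : u ∈ Icc (0 : ℝ) 1 := ⟨hu.1, hu.2.trans s.2.2⟩
      have h5 : HasDerivAt (fun u => t₀ + τ * u) τ u := by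
        simpa using ((hasDerivAt_id u).const_mul τ).const_add t₀
      have h6 := (hb (t₀ + τ * u) (by
        rw [mem_ball_iff_norm, add_sub_cancel_left, norm_mul, Real.norm_of_nonneg hu.1]
        exact (mul_le_of_le_one_right (norm_nonneg _) hu'.2).trans_lt
          (mem_ball_zero_iff.1 hτ'))).scomp u h5
      rw [projIcc_of_mem _ hu', hqs _ hτ, hη, add_sub_cancel]
      exact h6
    rw [intervalIntegral.integral_smul, mul_zero, add_zero] at h4
    change η τ s - τ • ∫ u in (0 : ℝ)..s, q.sum (η τ) (projIcc 0 1 zero_le_one u) = G (0, 0) s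
    rw [h4, hη]
    simp [G]
  have h4 : AnalyticAt ℝ (fun τ => y (t₀ + τ)) 0 :=
    (analyticAt_const.add (((ContinuousMap.evalCLM ℝ (⟨1, zero_le_one, le_rfl⟩ :
      Icc (0 : ℝ) 1)).analyticAt _).comp hψ)).congr (h3.mono fun τ e => e.symm)
  have h5 := AnalyticAt.comp_of_eq h4 (analyticAt_id.sub analyticAt_const : AnalyticAt ℝ
    (fun t => t - t₀) t₀) (sub_self t₀)
  exact h5.congr (Eventually.of_forall fun t => by simp)

theorem ode_analytic [CompleteSpace E] {X : E → E} {y : ℝ → E} {t₀ : ℝ}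
    (hX : AnalyticAt ℝ X (y t₀)) (hy : ∀ᶠ t in 𝓝 t₀, HasDerivAt y (X (y t)) t) :
    AnalyticAt ℝ y t₀ := by
  obtain ⟨δ, hδ, hb⟩ := Metric.nhds_basis_closedBall.eventually_iff.1 hy
  rw [Real.closedBall_eq_Icc] at hb
  have hle : t₀ - δ ≤ t₀ + δ := by linarith
  have hc : Continuous fun t => y (projIcc _ _ hle t) :=
    (continuousOn_iff_continuous_domRestrict.1 fun t ht =>
      (hb ht).continuousAt.continuousWithinAt).comp continuous_projIcc
  have he : ∀ᶠ t in 𝓝 t₀, y (projIcc _ _ hle t) = y t := by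
    filter_upwards [Icc_mem_nhds (by linarith : t₀ - δ < t₀) (by linarith : t₀ < t₀ + δ)] with t ht
    rw [projIcc_of_mem _ ht]
  refine (ode_analytic' (X := X) hc (by rwa [he.self_of_nhds]) ?_).congr he
  filter_upwards [hy, he.eventually_nhds] with t h1 h2
  rw [h2.self_of_nhds]
  exact h1.congr_of_eventuallyEq h2

end Pool.Agent.Work.MP_2482e4_mp.Dt
end

-- merged part: Pool.Agent.Work.MP_2482e4_mp.Dt.An
section
/-! Analyticity of `fMeas ν` and of the eigenvalues along the integral curves. -/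

open scoped ComplexOrder Topology ContDiff Matrix.Norms.L2Operator
open Matrix Filter Module MeasureTheory

set_option linter.unusedSectionVars false

namespace Pool.Agent.Work.MP_2482e4_mp.Dt
open Gn

/-- Integration of continuous functions. -/
noncomputable def intR (ν : PrI) : C(II, ℝ) →L[ℝ] ℝ :=
  LinearMap.mkContinuous
    { toFun := fun φ : C(II, ℝ) => ∫ s, φ s ∂(ν : Measure II)
      map_add' := fun φ ψ => integral_add
        (φ.continuous.integrable_of_hasCompactSupport (HasCompactSupport.of_compactSpace _))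
        (ψ.continuous.integrable_of_hasCompactSupport (HasCompactSupport.of_compactSpace _))
      map_smul' := fun a φ => integral_smul a _ } 1 fun φ => by
    simpa using norm_integral_le_of_norm_le_const (μ := (ν : Measure II))
      (Eventually.of_forall fun s => φ.norm_coe_le_norm s)

theorem inv_an {c e : C(II, ℝ)} (h : ∀ t, 0 < t → ∀ s, t * c s + e s ≠ 0) {t : ℝ} (ht : 0 < t) :
    AnalyticAt ℝ (fun t : ℝ => Ring.inverse (t • c + e)) t ∧
      ∀ s, Ring.inverse (t • c + e) s = (t * c s + e s)⁻¹ := by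
  have hu : IsUnit (t • c + e) :=
    (ContinuousMap.isUnit_iff_forall_isUnit _).2 fun s => (h t ht s).isUnit
  refine ⟨AnalyticAt.comp (g := Ring.inverse) (f := fun t : ℝ => t • c + e)
    (analyticAt_inverse hu.unit) ((analyticAt_id.smul analyticAt_const).add analyticAt_const),
    fun s => ?_⟩
  have h1 : Ring.inverse (t • c + e) s * (t • c + e) s = 1 := by
    rw [← ContinuousMap.mul_apply, Ring.inverse_mul_cancel _ hu]
    rfl
  exact eq_inv_of_mul_eq_one_left h1

theorem fMeas_analytic (ν : PrI) {t : ℝ} (ht : 0 < t) : AnalyticAt ℝ (fMeas ν) t := by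
  have h1 : ∀ t, 0 < t → ∀ s, t * cI s + eI s ≠ 0 := fun t ht s => by
    have := s.2.1
    change t * (2 / (1 + (s : ℝ))) + 2 * (s : ℝ) / (1 + (s : ℝ)) ≠ 0
    positivity
  have h2 : ∀ t, 0 < t → ∀ s, t * eI s + cI s ≠ 0 := fun t ht s => by
    have := s.2.1
    change t * (2 * (s : ℝ) / (1 + (s : ℝ))) + 2 / (1 + (s : ℝ)) ≠ 0
    positivity
  have h3 : AnalyticAt ℝ
      (fun t : ℝ => intR ν (t • (Ring.inverse (t • cI + eI) + Ring.inverse (t • eI + cI)))) t :=
    ((intR ν).analyticAt _).comp (analyticAt_id.smul ((inv_an h1 ht).1.add (inv_an h2 ht).1))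
  refine h3.congr ((lt_mem_nhds ht).mono fun u hu => ?_)
  refine integral_congr_ae (Eventually.of_forall fun s => ?_)
  have := s.2.1
  change u * (Ring.inverse (u • cI + eI) s + Ring.inverse (u • eI + cI) s) = _
  rw [(inv_an h1 hu).2, (inv_an h2 hu).2]
  change u * ((u * (2 / (1 + (s : ℝ))) + 2 * (s : ℝ) / (1 + (s : ℝ)))⁻¹ +
    (u * (2 * (s : ℝ) / (1 + (s : ℝ))) + 2 / (1 + (s : ℝ)))⁻¹) = _
  field_simp
  ring

theorem anF_meas (ν : PrI) : AnF (fMeas ν) :=
  ⟨fun _ => fMeas_pos ν, fun _ => fMeas_symm ν, fMeas_one ν, fMeas_smooth ν, fun x _ =>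
    (fMeas_analytic ν (Real.exp_pos x)).comp analyticAt_rexp⟩

theorem wf_analytic {f : ℝ → ℝ} (hf : AnF f) {x : ℝ} (hx : x ≠ 0) : AnalyticAt ℝ (wf f) x := by
  have h1 : Real.exp x - 1 ≠ 0 := by
    rwa [sub_ne_zero, Ne, Real.exp_eq_one_iff]
  have h2 : AnalyticAt ℝ (fun x => x * (Real.exp x - 1)⁻¹ * f (Real.exp x)) x :=
    (analyticAt_id.mul ((analyticAt_rexp.sub analyticAt_const).inv h1)).mul (hf.an x trivial)
  exact h2.congr ((eventually_ne_nhds hx).mono fun u hu => (wf_eq f hu).symm)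

variable {n : Type} [Fintype n] [DecidableEq n] {m : ℕ}

/-- The kernel with value one on the diagonal. -/
noncomputable def Kw (w : ℝ → ℝ) (l : Fin m → ℝ) (a b : Fin m) : ℝ :=
  if a = b then 1 else w (l a - l b)

/-- The field that moves the spectral data. -/
noncomputable def Yf (w : ℝ → ℝ) (A : Mt n) (z : (Fin m → ℝ) × (Fin m → Mt n)) :
    (Fin m → ℝ) × (Fin m → Mt n) :=
  (fun a => mu z.2 A a, fun a => dP z.2 z.1 (mlt z.2 (Kw w z.1) A) a)

theorem Yf_analytic {w : ℝ → ℝ} (hw : ∀ x, x ≠ 0 → AnalyticAt ℝ w x) (A : Mt n)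
    {z : (Fin m → ℝ) × (Fin m → Mt n)} (hl : Function.Injective z.1)
    (hP : ∀ a, (z.2 a).trace.re ≠ 0) : AnalyticAt ℝ (Yf w A) z := by
  have l1 : ∀ a, AnalyticAt ℝ (fun z : (Fin m → ℝ) × (Fin m → Mt n) => z.1 a) z := fun a =>
    ((ContinuousLinearMap.proj a).comp
      (ContinuousLinearMap.fst ℝ (Fin m → ℝ) (Fin m → Mt n))).analyticAt z
  have p1 : ∀ a, AnalyticAt ℝ (fun z : (Fin m → ℝ) × (Fin m → Mt n) => z.2 a) z := fun a =>
    ((ContinuousLinearMap.proj a).comp
      (ContinuousLinearMap.snd ℝ (Fin m → ℝ) (Fin m → Mt n))).analyticAt z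
  have k1 : ∀ a b, AnalyticAt ℝ (fun z : (Fin m → ℝ) × (Fin m → Mt n) => Kw w z.1 a b) z := by
    intro a b
    by_cases h : a = b
    · simpa only [Kw, if_pos h] using analyticAt_const
    · simp only [Kw, if_neg h]
      exact AnalyticAt.comp (g := w) (hw _ (sub_ne_zero.2 (hl.ne h))) ((l1 a).sub (l1 b))
  have i1 : ∀ a b, AnalyticAt ℝ (fun z : (Fin m → ℝ) × (Fin m → Mt n) => (z.1 a - z.1 b)⁻¹) z := by
    intro a b
    by_cases h : a = b
    · simpa only [h, sub_self] using analyticAt_const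
    · exact ((l1 a).sub (l1 b)).inv (sub_ne_zero.2 (hl.ne h))
  have m1 : AnalyticAt ℝ (fun z : (Fin m → ℝ) × (Fin m → Mt n) => mlt z.2 (Kw w z.1) A) z := by
    simp only [mk_apply]
    exact Finset.analyticAt_fun_sum _ fun a _ => Finset.analyticAt_fun_sum _ fun b _ =>
      (k1 a b).smul (((p1 a).mul analyticAt_const).mul (p1 b))
  refine (AnalyticAt.pi fun a => ?_).prod (AnalyticAt.pi fun a => ?_)
  · exact (((Der_tr (n := n)).analyticAt _).comp ((p1 a).mul analyticAt_const)).mul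
      ((((Der_tr (n := n)).analyticAt _).comp (p1 a)).inv (hP a))
  · exact Finset.analyticAt_fun_sum _ fun c _ => (i1 a c).smul
      ((((p1 a).mul m1).mul (p1 c)).add (((p1 c).mul m1).mul (p1 a)))

theorem l_analytic {w : ℝ → ℝ} (hw : ∀ x, x ≠ 0 → AnalyticAt ℝ w x) (w0 : w 0 = 1)
    {N : Set (Mt n)} {l : Mt n → Fin m → ℝ} {P : Mt n → Fin m → Mt n} (hS : Strat N l P) {A : Mt n}
    {γ : ℝ → Mt n} {t : ℝ} (h : ∀ᶠ s in 𝓝 t, γ s ∈ N ∧ HasDerivAt γ (Zf w (γ s) A) s) (a : Fin m) :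
    AnalyticAt ℝ (fun s => l (γ s) a) t := by
  have h0 := h.self_of_nhds.1
  have h1 := ode_analytic (y := fun s => (l (γ s), P (γ s))) (t₀ := t)
    (Yf_analytic hw A (hS.inj _ h0) fun a => ((hS.res _ h0).trace_pos (hS.ne _ h0 a)).ne') (by
    filter_upwards [h.eventually_nhds] with s hs
    have h2 := hs.self_of_nhds
    have h3 : ∀ᶠ u in 𝓝 (0 : ℝ), γ (s + u) ∈ N := by
      have h6 : Tendsto (fun u => s + u) (𝓝 0) (𝓝 s) := by
        simpa using (continuous_const_add s).tendsto 0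
      exact h6.eventually (hs.mono fun _ h => h.1)
    have h4 : HasDerivAt (fun u => γ (s + u)) (Zf w (γ s) A) 0 :=
      HasDerivAt.comp_const_add s 0 (by simpa using h2.2)
    have back : ∀ {W : Type} [NormedAddCommGroup W] [NormedSpace ℝ W] (φ : Mt n → W) (v : W),
        HasDerivAt (fun u => φ (γ (s + u))) v 0 → HasDerivAt (fun u => φ (γ u)) v s := by
      intro W _ _ φ v hv
      have := HasDerivAt.comp_sub_const (f := fun u => φ (γ (s + u))) s s (by simpa using hv)
      simpa using this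
    have e : Zf w (γ s) A = mlt (P (γ s)) (Kw w (l (γ s))) A := by
      rw [hS.Zf_eq h2.1]
      congr 2
      funext a b
      unfold Kw
      split_ifs with h5
      · rw [h5, sub_self, w0]
      · rfl
    refine (hasDerivAt_pi.2 fun a => ?_).prodMk (hasDerivAt_pi.2 fun a => ?_)
    · have := hS.deriv_l h2.1 (by simp) h3 h4 a
      rw [hS.mu_Zf h2.1 w0] at this
      exact back (fun H => l H a) _ this
    · have := hS.deriv_P h2.1 (by simp) h3 h4 a
      rw [e] at this
      exact back (fun H => P H a) _ this)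
  exact (((ContinuousLinearMap.proj a).comp
    (ContinuousLinearMap.fst ℝ (Fin m → ℝ) (Fin m → Mt n))).analyticAt _).comp h1

end Pool.Agent.Work.MP_2482e4_mp.Dt
end
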