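import Pool.Agent.Work.MP_2482e4_mp.Dt.Hol2
import Pool.Agent.Work.MP_2482e4_mp.Dt.An

/-! An explicit differentially transcendental operator monotone function. -/

open scoped Topology ContDiff
open Filter MvPolynomial MeasureTheory

namespace Pool.Agent.Work.MP_2482e4_mp.Dt
open Gn

/-- `e ^ x + e ^ (-x) - 2`. -/
noncomputable def sg (x : ℝ) : ℝ := Real.exp x + Real.exp (-x) - 2

/-- The inverse of `sg` on the positive half line. -/
noncomputable def xi (u : ℝ) : ℝ := 2 * Real.arsinh (√u / 2)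

theorem sg_eq (x : ℝ) : sg x = (2 * Real.sinh (x / 2)) ^ 2 := by
  have h1 : Real.exp x = Real.exp (x / 2) ^ 2 := by rw [sq, ← Real.exp_add, add_halves]
  have h2 : Real.exp (-x) = Real.exp (-(x / 2)) ^ 2 := by
    rw [sq, ← Real.exp_add, ← neg_add, add_halves]
  have h3 : Real.exp (x / 2) * Real.exp (-(x / 2)) = 1 := by rw [← Real.exp_add]; simp
  rw [sg, Real.sinh_eq, h1, h2]
  linear_combination 2 * h3

theorem sg_pos {x : ℝ} (hx : x ≠ 0) : 0 < sg x := by
  have : Real.sinh (x / 2) ≠ 0 := Real.sinh_ne_zero.2 (by simpa using hx)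
  rw [sg_eq]
  positivity

theorem xi_sg {x : ℝ} (hx : 0 < x) : xi (sg x) = x := by
  have : 0 < Real.sinh (x / 2) := Real.sinh_pos_iff.2 (by positivity)
  rw [xi, sg_eq, Real.sqrt_sq (by positivity), mul_div_cancel_left₀ _ two_ne_zero,
    Real.arsinh_sinh]
  ring

theorem sg_xi {u : ℝ} (hu : 0 < u) : sg (xi u) = u := by
  rw [sg_eq, xi, mul_div_cancel_left₀ _ two_ne_zero, Real.sinh_arsinh,
    mul_div_cancel₀ _ two_ne_zero, Real.sq_sqrt hu.le]

theorem xi_pos {u : ℝ} (hu : 0 < u) : 0 < xi u := by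
  have : 0 < Real.arsinh (√u / 2) := Real.arsinh_pos_iff.2 (by positivity)
  rw [xi]
  positivity

theorem xi_smooth : ContDiffOn ℝ ∞ xi (Set.Ioi 0) := fun u hu =>
  (contDiffAt_const.mul (Real.contDiff_arsinh.contDiffAt.comp u
    ((Real.contDiffAt_sqrt (ne_of_gt hu)).div_const 2))).contDiffWithinAt

theorem exists_ab : ∃ a b : ℕ → MvPolynomial (Bool ⊕ ℕ) ℝ, ∀ Y : ℝ → ℝ,
    ContDiffOn ℝ ∞ Y (Set.Ioi 0) → ∀ (F : ℝ → ℝ) (W : Set ℝ), IsOpen W → (∀ x ∈ W, x ≠ 0) →
      (∀ x ∈ W, F x = (1 + Real.exp x) * Y (sg x) * (sg x)⁻¹) → ∀ k, ∀ x ∈ W,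
        iteratedDeriv k F x = aeval (pt (sg x + 4) fun j => iteratedDeriv j Y (sg x)) (a k) +
          aeval (pt (sg x + 4) fun j => iteratedDeriv j Y (sg x)) (b k) * Real.exp x := by
  let D : Derivation ℝ (MvPolynomial (Bool ⊕ ℕ) ℝ) (MvPolynomial (Bool ⊕ ℕ) ℝ) :=
    mkDerivation ℝ (Sum.elim (fun b => cond b 1 (-X (.inl false) ^ 2)) fun j => X (.inr (j + 1)))
  let s : MvPolynomial (Bool ⊕ ℕ) ℝ := X (.inl true) - 2
  let T : MvPolynomial (Bool ⊕ ℕ) ℝ × MvPolynomial (Bool ⊕ ℕ) ℝ →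
      MvPolynomial (Bool ⊕ ℕ) ℝ × MvPolynomial (Bool ⊕ ℕ) ℝ :=
    fun p => (-s * D p.1 - 2 * D p.2, 2 * D p.1 + s * D p.2 + p.2)
  let c : MvPolynomial (Bool ⊕ ℕ) ℝ := X (.inl false) * X (.inr 0)
  refine ⟨fun k => (T^[k] (c, c)).1, fun k => (T^[k] (c, c)).2, fun Y hY F W hW h0 hF k => ?_⟩
  induction k with
  | zero =>
    intro x hx
    simp only [iteratedDeriv_zero, hF x hx, Function.iterate_zero_apply, c, map_mul, aeval_X, pt,
      Sum.elim_inl, Sum.elim_inr, cond_false, add_sub_cancel_right]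
    ring
  | succ k ih =>
    intro x hx
    have hs := sg_pos (h0 x hx)
    have d1 : HasDerivAt sg (Real.exp x - Real.exp (-x)) x :=
      (((Real.hasDerivAt_exp x).add (hasDerivAt_neg x).exp).sub_const 2).congr_deriv (by ring)
    have d2 : ∀ p, HasDerivAt (fun x => aeval (pt (sg x + 4) fun j => iteratedDeriv j Y (sg x)) p)
        (aeval (pt (sg x + 4) fun j => iteratedDeriv j Y (sg x)) (D p) *
          (Real.exp x - Real.exp (-x))) x := fun p =>
      HasDerivAt.comp x (h₂ := fun u => aeval (pt (u + 4) fun j => iteratedDeriv j Y u) p)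
        (aeval_hasDerivAt D (v := fun u => pt (u + 4) fun j => iteratedDeriv j Y u) (fun o => by
          rcases o with (_ | _) | j
          · simp only [pt, Sum.elim_inl, cond_false, add_sub_cancel_right]
            exact (hasDerivAt_inv hs.ne').congr_deriv (by simp [D])
          · exact ((hasDerivAt_id _).add_const 4).congr_deriv (by simp [D])
          · exact (iter_hasDerivAt hY j hs).congr_deriv (by simp [D, pt])) p) d1
    rw [iteratedDeriv_succ, EventuallyEq.deriv_eq ((hW.eventually_mem hx).mono ih)]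
    refine (((d2 _).add ((d2 _).mul (Real.hasDerivAt_exp x))).deriv).trans ?_
    have h3 : Real.exp x * Real.exp (-x) = 1 := by rw [← Real.exp_add]; simp
    have h4 : aeval (pt (sg x + 4) fun j => iteratedDeriv j Y (sg x)) s =
        Real.exp x + Real.exp (-x) := by
      simp only [s, map_sub, aeval_X, pt, Sum.elim_inl, cond_true, map_ofNat, sg]
      ring
    simp only [Function.iterate_succ_apply', T, map_sub, map_add, map_mul, map_neg, h4, map_ofNat]
    linear_combination (-2 * aeval (pt (sg x + 4) fun j => iteratedDeriv j Y (sg x))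
      (D (T^[k] (c, c)).2)) * h3

theorem exists_AB (a b : ℕ → MvPolynomial (Bool ⊕ ℕ) ℝ) (P : MvPolynomial ℕ ℝ) :
    ∃ A B : MvPolynomial (Bool ⊕ ℕ) ℝ, ∀ (z t : ℝ) (η : ℕ → ℝ), t ^ 2 = (z - 2) * t - 1 →
      aeval (fun k => aeval (pt z η) (a k) + aeval (pt z η) (b k) * t) P =
        aeval (pt z η) A + aeval (pt z η) B * t := by
  induction P using MvPolynomial.induction_on with
  | C r => exact ⟨C r, 0, fun z t η _ => by simp⟩
  | add p q hp hq =>
    obtain ⟨A, B, h⟩ := hp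
    obtain ⟨A', B', h'⟩ := hq
    refine ⟨A + A', B + B', fun z t η e => ?_⟩
    simp only [map_add, h z t η e, h' z t η e]
    ring
  | mul_X p k hp =>
    obtain ⟨A, B, h⟩ := hp
    refine ⟨A * a k - B * b k, A * b k + B * a k + (X (.inl true) - 2) * B * b k,
      fun z t η e => ?_⟩
    have h1 : pt z η (.inl true) = z := rfl
    simp only [map_add, map_mul, map_sub, h z t η e, aeval_X, map_ofNat, h1]
    linear_combination (aeval (pt z η) B * aeval (pt z η) (b k)) * e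

theorem exp_sq (x : ℝ) : Real.exp x ^ 2 = (sg x + 4 - 2) * Real.exp x - 1 := by
  have h3 : Real.exp x * Real.exp (-x) = 1 := by rw [← Real.exp_add]; simp
  rw [sg]
  linear_combination -h3

theorem dt_of_shift {f Y : ℝ → ℝ} (hY : ContDiffOn ℝ ∞ Y (Set.Ioi 0)) {c : ℝ} (hc : c ≠ 0)
    (h1 : ∀ u, 0 < u → Y (u + 1) = Y u + c * (u + 4)⁻¹)
    (h2 : ∀ x, x ≠ 0 → f (Real.exp x) = (1 + Real.exp x) * Y (sg x) * (sg x)⁻¹) :
    IsDiffTransc f := by
  obtain ⟨a, b, hab⟩ := exists_ab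
  refine algebraicIndependent_iff.2 fun P hP => ?_
  obtain ⟨A, B, hAB⟩ := exists_AB a b P
  have h3 : ∀ j u, 0 < u → iteratedDeriv j Y (u + 1) =
      iteratedDeriv j Y u + c * (-1) ^ j * j.factorial * (u + 4)⁻¹ ^ (j + 1) := by
    intro j
    induction j with
    | zero => simpa using h1
    | succ j ih =>
      intro u hu
      have a1 := (iter_hasDerivAt hY j (by linarith : 0 < u + 1)).comp_add_const
      have a2 := (iter_hasDerivAt hY j hu).add (((((hasDerivAt_id u).add_const 4).inv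
        (by simp only [id]; linarith)).pow (j + 1)).const_mul (c * (-1) ^ j * j.factorial))
      refine (a1.unique (a2.congr_of_eventuallyEq ((lt_mem_nhds hu).mono ih))).trans ?_
      simp only [id, Pi.inv_apply, Nat.factorial_succ, Nat.add_sub_cancel, div_eq_mul_inv,
        ← inv_pow]
      push_cast
      ring
  have h4 : ∀ x, x ≠ 0 → aeval (pt (sg x + 4) fun j => iteratedDeriv j Y (sg x)) A +
      aeval (pt (sg x + 4) fun j => iteratedDeriv j Y (sg x)) B * Real.exp x = 0 := fun x hx => by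
    have := congrFun hP x
    rw [aeval_fun] at this
    simp only [fun k => hab Y hY _ {x | x ≠ 0} isOpen_ne (fun _ h => h) h2 k x hx] at this
    rwa [hAB _ _ _ (exp_sq x)] at this
  have h5 : ∀ z, 4 < z → aeval (pt z fun j => iteratedDeriv j Y (z - 4)) A = 0 ∧
      aeval (pt z fun j => iteratedDeriv j Y (z - 4)) B = 0 := fun z hz => by
    have hu := sub_pos.2 hz
    have a1 := h4 _ (xi_pos hu).ne'
    have a2 := h4 _ (neg_ne_zero.2 (xi_pos hu).ne')
    rw [show sg (-xi (z - 4)) = sg (xi (z - 4)) by rw [sg, sg, neg_neg, add_comm]] at a2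
    rw [sg_xi hu, sub_add_cancel] at a1 a2
    have a3 : Real.exp (-xi (z - 4)) < Real.exp (xi (z - 4)) :=
      Real.exp_lt_exp.2 (by linarith [xi_pos hu])
    have a4 : aeval (pt z fun j => iteratedDeriv j Y (z - 4)) B = 0 :=
      (mul_eq_zero.1 (by linear_combination a1 - a2)).resolve_right (sub_pos.2 a3).ne'
    rw [a4, zero_mul, add_zero] at a1
    exact ⟨a1, a4⟩
  have h6 := fun Q (h : ∀ z, 4 < z → aeval (pt z fun j => iteratedDeriv j Y (z - 4)) Q = 0) =>
    @hoelder (fun j z => iteratedDeriv j Y (z - 4)) (fun j => c * (-1) ^ j * j.factorial)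
      (fun j => by positivity) (fun j z hz => by
        have := h3 j _ (sub_pos.2 hz)
        rwa [sub_add_cancel, sub_add_eq_add_sub] at this) Q h
  refine zero_of_jets 1 fun G hG => ?_
  have h7 : ContDiffOn ℝ ∞ (fun u => G (xi u) * u * (1 + Real.exp (xi u))⁻¹) (Set.Ioi 0) :=
    ((hG.comp_contDiffOn xi_smooth).mul contDiffOn_id).mul
      ((contDiffOn_const.add xi_smooth.exp).inv fun u _ => by positivity)
  have h8 := fun k => hab _ h7 G (Set.Ioi 0) isOpen_Ioi (fun x hx => ne_of_gt hx) (fun x hx => by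
    have := sg_pos (ne_of_gt hx)
    rw [xi_sg hx]
    field_simp) k 1 (Set.mem_Ioi.2 one_pos)
  have h9 : 4 < sg 1 + 4 := by linarith [sg_pos one_ne_zero]
  simp only [h8]
  rw [hAB _ _ _ (exp_sq 1), h6 A (fun z hz => (h5 z hz).1) h9, h6 B (fun z hz => (h5 z hz).2) h9]
  simp

theorem summ {u : ℝ} (hu : 0 ≤ u) : Summable fun k : ℕ => 1 / (((k : ℝ) + 4) * (k + 4 + u)) := by
  have h1 : Summable fun k : ℕ => 1 / ((k + 4 : ℕ) : ℝ) ^ 2 :=
    (summable_nat_add_iff (f := fun k : ℕ => 1 / (k : ℝ) ^ 2) 4).2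
      (Real.summable_one_div_nat_pow.2 one_lt_two)
  refine h1.of_nonneg_of_le (fun k => by positivity) fun k => ?_
  push_cast
  exact one_div_le_one_div_of_le (by positivity) (by nlinarith [Nat.cast_nonneg (α := ℝ) k])

theorem tele {u : ℝ} (hu : 0 < u) :
    (u + 1) * ∑' k : ℕ, 1 / (((k : ℝ) + 4) * (k + 4 + (u + 1))) =
      u * ∑' k : ℕ, 1 / (((k : ℝ) + 4) * (k + 4 + u)) + (u + 4)⁻¹ := by
  have h1 := ((summ (by linarith : 0 ≤ u + 1)).hasSum.mul_left (u + 1)).sub
    ((summ hu.le).hasSum.mul_left u)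
  have h2 : ∀ n : ℕ, ∑ k ∈ Finset.range n, ((u + 1) * (1 / (((k : ℝ) + 4) * (k + 4 + (u + 1)))) -
      u * (1 / (((k : ℝ) + 4) * (k + 4 + u)))) = (u + 4)⁻¹ - ((n : ℝ) + (u + 4))⁻¹ := by
    intro n
    induction n with
    | zero => simp
    | succ n ih =>
      rw [Finset.sum_range_succ, ih]
      push_cast
      field_simp
      ring
  have h3 := h1.tendsto_sum_nat
  simp only [h2] at h3
  have h4 := (tendsto_inv_atTop_zero.comp (tendsto_atTop_add_const_right _ (u + 4)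
    tendsto_natCast_atTop_atTop)).const_sub (u + 4)⁻¹
  have h5 := tendsto_nhds_unique h3 h4
  linarith

theorem exists_atom (k : ℕ) : ∃ s : II, 0 < (s : ℝ) ∧ (1 + (s : ℝ)) ^ 2 = (k + 4) * s := by
  have h0 : (0 : ℝ) ≤ k := Nat.cast_nonneg k
  have h1 := Real.sq_sqrt (by positivity : (0 : ℝ) ≤ k ^ 2 + 4 * k)
  have h2 : √((k : ℝ) ^ 2 + 4 * k) < k + 2 := (Real.sqrt_lt' (by positivity)).2 (by nlinarith)
  have h3 : (k : ℝ) ≤ √((k : ℝ) ^ 2 + 4 * k) := Real.le_sqrt_of_sq_le (by linarith)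
  exact ⟨⟨(k + 2 - √((k : ℝ) ^ 2 + 4 * k)) / 2, by linarith, by linarith⟩, by
    simp only
    linarith, by
    simp only
    linear_combination (1 / 4) * h1⟩

theorem exists_example : ∃ ν : PrI, (∀ t, 0 < t → fMeas ν t = (1 + t) / 2 *
    (∑' k : ℕ, 1 / (((k : ℝ) + 4) * (k + 2 + t + t⁻¹))) / ∑' k : ℕ, 1 / ((k : ℝ) + 4) ^ 2) ∧
    IsDiffTransc (fMeas ν) := by
  choose s hs using exists_atom
  have h0 : Summable fun k : ℕ => 1 / ((k : ℝ) + 4) ^ 2 := by simpa [sq] using summ le_rfl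
  set Z := ∑' k : ℕ, 1 / ((k : ℝ) + 4) ^ 2 with hZ
  have hZ0 : 0 < Z := h0.tsum_pos (fun k => by positivity) 0 (by positivity)
  let μ : Measure II := Measure.sum fun k : ℕ =>
    ENNReal.ofReal (1 / ((k : ℝ) + 4) ^ 2 / Z) • Measure.dirac (s k)
  have hμ : IsProbabilityMeasure μ := ⟨by
    simp only [μ, Measure.sum_apply _ MeasurableSet.univ, Measure.smul_apply, measure_univ,
      smul_eq_mul, mul_one]
    rw [← ENNReal.ofReal_tsum_of_nonneg (fun k => by positivity) (h0.div_const Z), tsum_div_const,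
      div_self hZ0.ne', ENNReal.ofReal_one]⟩
  have key : ∀ t, 0 < t → fMeas ⟨μ, hμ⟩ t = (1 + t) / 2 *
      (∑' k : ℕ, 1 / (((k : ℝ) + 4) * (k + 2 + t + t⁻¹))) / Z := fun t ht => by
    refine (integral_sum_measure (Ker_int ⟨μ, hμ⟩ (Ker_cont ht))).trans ?_
    rw [← tsum_mul_left, ← tsum_div_const]
    refine tsum_congr fun k => ?_
    rw [integral_smul_measure, integral_dirac, ENNReal.toReal_ofReal (by positivity), smul_eq_mul]
    obtain ⟨h1, h2⟩ := hs k
    have h3 : (k : ℝ) + 4 = (1 + s k) ^ 2 / s k := by rw [h2, mul_div_cancel_right₀ _ h1.ne']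
    have h4 : (k : ℝ) + 2 + t + t⁻¹ = (t + s k) * (1 + t * s k) / (t * s k) := by
      rw [show (k : ℝ) + 2 = (1 + s k) ^ 2 / s k - 2 by linarith]
      field_simp
      ring
    rw [h3, h4]
    field_simp
    ring
  have h1 : ∀ x, fMeas ⟨μ, hμ⟩ (Real.exp x) = (1 + Real.exp x) * ((2 * Z)⁻¹ *
      ∑' k : ℕ, 1 / (((k : ℝ) + 4) * (k + 4 + sg x))) := fun x => by
    rw [key _ (Real.exp_pos x), ← Real.exp_neg]
    simp only [show ∀ k : ℕ, (k : ℝ) + 4 + sg x = k + 2 + Real.exp x + Real.exp (-x) from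
      fun k => by rw [sg]; ring]
    ring
  refine ⟨⟨μ, hμ⟩, key, dt_of_shift
    (Y := fun u => (2 * Z)⁻¹ * (u * ∑' k : ℕ, 1 / (((k : ℝ) + 4) * (k + 4 + u)))) ?_
    (c := (2 * Z)⁻¹) (by positivity) (fun u hu => by rw [tele hu, mul_add]) fun x hx => ?_⟩
  · refine ((((fMeas_smooth ⟨μ, hμ⟩).comp xi_smooth.exp fun u _ => Real.exp_pos _).mul
      contDiffOn_id).mul ((contDiffOn_const (c := (1 : ℝ)).add xi_smooth.exp).inv
        fun u _ => by positivity)).congr fun u hu => ?_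
    simp only [Function.comp_apply, h1, sg_xi hu, id, Pi.inv_apply]
    field_simp
  · have := sg_pos hx
    rw [h1]
    field_simp

end Pool.Agent.Work.MP_2482e4_mp.Dt
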