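import Pool.Agent.Work.MP_2482e4_mp.Harm
import Pool.Agent.Work.MP_2482e4_mp.FamSmooth

/-! One criterion for the families `fKappa` and `fHarm` (not a hand-in). -/

open scoped ComplexOrder Topology ContDiff Matrix.Norms.L2Operator
open Matrix

namespace Pool.Agent.Work.MP_2482e4_mp.Dt

variable {n : Type} [Fintype n] [DecidableEq n] {U : Matrix n n ℂ}

theorem lyap_iff (hU : U * star U = 1) {r : n → ℝ} (hr : ∀ i, 0 < r i) (D M : Matrix n n ℂ) :
    Dg U r * D + D * Dg U r = ⁅Dg U r, M⁆ ↔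
      D = Sch U (fun i j => (r i + r j)⁻¹ * (r i - r j)) M := by
  have h : ∀ i j, r i + r j ≠ 0 := fun i j => (add_pos (hr i) (hr j)).ne'
  rw [Dg_mul hU, mul_Dg hU, ← Sch_add hU, lie_Dg hU]
  constructor
  · intro e
    refine Sch_inj hU h ?_
    rw [e, Sch_Sch hU]
    exact Sch_congr (fun i j => (mul_inv_cancel_left₀ (h i j) _).symm) M
  · rintro rfl
    rw [Sch_Sch hU]
    exact Sch_congr (fun i j => mul_inv_cancel_left₀ (h i j) _) M

theorem Sch_skew (hU : U * star U = 1) {k : n → n → ℝ} (hk : ∀ i j, k j i = -1 * k i j)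
    {M : Matrix n n ℂ} (hM : star M = -M) : (Sch U k M).IsHermitian := by
  change star (Sch U k M) = _
  rw [star_Sch hU, hM, Sch_congr hk, Sch_const_mul hU, map_neg, neg_one_smul, neg_neg]

theorem both_iff {E : Type} [NormedAddCommGroup E] [NormedSpace ℝ E]
    {ι : E →ₗ[ℝ] Matrix n n ℂ} {g : E → E →L[ℝ] E →L[ℝ] ℝ} (hι : IsHermModel ι) {κ : ℝ}
    (hκ : 0 < κ) {θ : ℕ} (hθ : θ ≤ 1)
    (hg : IsPetz ι (fun t => fKappa κ t * (4 * t ^ κ / (1 + t ^ κ) ^ 2) ^ θ) g) {ρ : E}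
    (hρ : ρ ∈ states ι) {V : Submodule ℝ E} (hV : ∀ X ∈ V, (ι X).trace = 0) {S : Matrix n n ℂ}
    (hS : S = cfc (fun t : ℝ => t ^ (κ / 2)) (ι ρ)) :
    Admissible ι g ρ V ↔ IsLieTriple (twist (S ^ θ) (eRep ι g ρ V)) ∧
      ∀ B ∈ twist (S ^ θ) (eRep ι g ρ V), ∀ C ∈ twist (S ^ θ) (eRep ι g ρ V),
        ∃ D ∈ twist (S ^ θ) (eRep ι g ρ V), S ^ 2 * D + D * S ^ 2 = ⁅S ^ 2, ⁅B, C⁆⁆ := by
  have : FiniteDimensional ℝ E := FiniteDimensional.of_injective ι hι.1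
  obtain ⟨U, d, hU, hx, hcfc⟩ := exists_Dg_cfc (herm_ι hι ρ)
  have hd := (posDef_Dg hU d).1 (hx ▸ hρ.1)
  have hS1 := hS.trans (hcfc _)
  have hs : ∀ i, 0 < d i ^ (κ / 2) := fun i => Real.rpow_pos_of_pos (hd i) _
  have hr : ∀ i, 0 < d i ^ κ := fun i => Real.rpow_pos_of_pos (hd i) _
  have hsq : ∀ i, d i ^ κ = d i ^ (κ / 2) * d i ^ (κ / 2) := fun i => by
    rw [← Real.rpow_add (hd i), add_halves]
  have hS2 : S ^ 2 = Dg U fun i => d i ^ κ := by
    simp only [sq, hS1, Dg_mul_Dg hU, hsq]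
  have hh : ∀ {B C : Matrix n n ℂ}, B.IsHermitian → C.IsHermitian →
      (Sch U (fun i j => (d i ^ κ + d j ^ κ)⁻¹ * (d i ^ κ - d j ^ κ)) ⁅B, C⁆).IsHermitian :=
    fun hB hC => Sch_skew hU (fun i j => by rw [add_comm]; ring) (star_lie hB hC)
  simp only [hS2, lyap_iff hU hr, exists_eq_right]
  obtain rfl | rfl : θ = 0 ∨ θ = 1 := by omega
  · simp only [pow_zero, mul_one] at hg ⊢
    have e : twist 1 (eRep ι g ρ V) = eRep ι g ρ V := by
      ext B
      simp only [twist, inv_one, Matrix.mul_one, Matrix.one_mul, Set.mem_ofPred_eq, ← two_smul ℝ B]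
      exact ⟨fun h => ((eRepS ι g ρ V).smul_mem_iff two_ne_zero).1 h.2,
        fun h => ⟨h.1, (eRepS ι g ρ V).smul_mem 2 h⟩⟩
    rw [e, family_iff hι hκ hg hρ hV]
    refine and_congr_right fun _ => forall₄_congr fun A hA B hB => ?_
    have h1 : ⁅⁅A, B⁆, ι ρ⁆ = Sch U (fun i j => -1 * (d i - d j)) ⁅A, B⁆ := by
      rw [Sch_const_mul hU, ← lie_Dg hU, ← hx, Ring.lie_def _ (ι ρ), Ring.lie_def (ι ρ),
        neg_one_smul, neg_sub]
    have h2 : Sch U (fun i j => (d j * fKappa κ (d i / d j))⁻¹) ⁅⁅A, B⁆, ι ρ⁆ = (-(2 / κ)) •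
        Sch U (fun i j => (d i ^ κ + d j ^ κ)⁻¹ * (d i ^ κ - d j ^ κ)) ⁅A, B⁆ := by
      rw [h1, Sch_Sch hU, ← Sch_const_mul hU]
      refine Sch_congr (fun i j => ?_) _
      by_cases h : d i = d j
      · simp [h]
      · have a1 := (hd j).ne'
        have a2 := (hr j).ne'
        have a3 := sub_ne_zero.2 h
        have a4 : d i ^ κ - d j ^ κ ≠ 0 := sub_ne_zero.2 fun e =>
          h ((Real.rpow_left_inj (hd i).le (hd j).le hκ.ne').1 e)
        have a5 := (add_pos (hr i) (hr j)).ne'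
        rw [fKappa, if_neg (fun e => h ((div_eq_one_iff_eq a1).1 e)),
          Real.div_rpow (hd i).le (hd j).le]
        field_simp
    have hc : (-(2 / κ) : ℝ) ≠ 0 := neg_ne_zero.2 (by positivity)
    refine Iff.trans ?_ ((eRepS ι g ρ V).smul_mem_iff hc)
    rw [← h2]
    have h3 : (Sch U (fun i j => (d j * fKappa κ (d i / d j))⁻¹) ⁅⁅A, B⁆, ι ρ⁆).IsHermitian := by
      rw [h2, ← Sch_const_mul hU]
      exact Sch_skew hU (fun i j => by rw [add_comm]; ring) (star_lie hA.1 hB.1)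
    constructor
    · rintro ⟨X, hX, e⟩
      exact ⟨h3, X, hX, fun Y _ => by rw [petz_rep hι hg hU hx hd, e]⟩
    · rintro ⟨-, X, hX, e⟩
      obtain ⟨X', hX'⟩ := (hι.2 ⁅⁅A, B⁆, ι ρ⁆).1
        (h1 ▸ Sch_skew hU (fun i j => by ring) (star_lie hA.1 hB.1))
      have h4 : (ι (X - X')).trace = 0 := by
        rw [map_sub, trace_sub, hV X hX, hX', Ring.lie_def _ (ι ρ), trace_sub,
          trace_mul_comm, sub_self, sub_self]
      refine ⟨X, hX, (congrArg ι (sub_eq_zero.1 (by_contra fun h5 => ?_))).trans hX'⟩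
      refine (petz_pos hι hg (fK_pos hκ) hρ.1 _ h5).ne' ?_
      rw [map_sub (g ρ (X - X')), e _ h4, petz_rep hι hg hU hx hd, hX', sub_self]
  · have e : IsPetz ι (fHarm κ) g := fun q X Y W c h1 h2 h3 => by
      rw [hg q X Y W c h1 h2 h3, petzSum, petzSum]
      refine Finset.sum_congr rfl fun i _ => Finset.sum_congr rfl fun j _ => ?_
      congr 2
      have a1 := div_pos (h2 i) (h2 j)
      generalize c i / c j = t at a1
      have a2 := Real.rpow_pos_of_pos a1 κ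
      rw [fKappa, fHarm, pow_one]
      split_ifs with h
      · subst h
        norm_num
      · have a3 : t ^ κ - 1 ≠ 0 := sub_ne_zero.2 fun e =>
          h ((Real.rpow_left_inj a1.le zero_le_one hκ.ne').1 (by rw [e, Real.one_rpow]))
        rw [mul_comm 2 κ, Real.rpow_mul a1.le, Real.rpow_two,
          show (t ^ κ) ^ 2 - 1 = (t ^ κ - 1) * (t ^ κ + 1) by ring]
        field_simp
        ring
    rw [pow_one, harm_iff hι hκ e hρ hV hS]
    refine and_congr_right fun _ => forall₄_congr fun B hB C hC => ?_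
    have h1 : ∀ (k : n → n → ℝ) (M : Matrix n n ℂ), S * Sch U k M * S⁻¹ =
        Sch U (fun i j => (d j ^ (κ / 2))⁻¹ * (d i ^ (κ / 2) * k i j)) M ∧ S⁻¹ * Sch U k M * S =
        Sch U (fun i j => d j ^ (κ / 2) * ((d i ^ (κ / 2))⁻¹ * k i j)) M := fun k M => by
      rw [hS1, Dg_inv hU fun i => (hs i).ne']
      simp only [mul_Dg hU, Dg_mul hU, Sch_Sch hU, and_self]
    refine Iff.trans ?_ (and_iff_right (hh hB.1 hC.1)).symm
    rw [(h1 _ _).1, (h1 _ _).2, ← Sch_add hU]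
    conv_lhs => rw [← Sch_one hU ⁅B, C⁆, (h1 _ _).1, (h1 _ _).2, ← Sch_sub hU]
    rw [Sch_congr (l := fun i j => (d j ^ (κ / 2))⁻¹ * (d i ^ (κ / 2) *
      ((d i ^ κ + d j ^ κ)⁻¹ * (d i ^ κ - d j ^ κ))) + d j ^ (κ / 2) * ((d i ^ (κ / 2))⁻¹ *
        ((d i ^ κ + d j ^ κ)⁻¹ * (d i ^ κ - d j ^ κ)))) fun i j => ?_]
    have a1 := hs i
    have a2 := hs j
    rw [hsq, hsq]
    field_simp

end Pool.Agent.Work.MP_2482e4_mp.Dt
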