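import Pool.Agent.Work.MP_2482e4_mp.Defs3

namespace Pool.Agent.Work.MP_2482e4_mp

/-- The function `x ↦ f (e ^ x)` on the real line satisfies no algebraic differential equation
`P (F, F', F'', …) = 0` with `P` a nonzero real polynomial. -/
def IsDiffTransc (f : ℝ → ℝ) : Prop :=
  AlgebraicIndependent ℝ fun k : ℕ => iteratedDeriv k fun x => f (Real.exp x)

end Pool.Agent.Work.MP_2482e4_mp
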