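import Pool.Agent.Work.MP_2482e4_mp.Gn.Sm
import Pool.Agent.Work.MP_2482e4_mp.Dt.Defs

/-! Jets of smooth functions fill the jet space; generic functions are differentially
transcendental. -/

open scoped Topology ContDiff
open Filter MvPolynomial

namespace Pool.Agent.Work.MP_2482e4_mp.Dt
open Gn

theorem aeval_hasDerivAt {σ : Type} (D : Derivation ℝ (MvPolynomial σ ℝ) (MvPolynomial σ ℝ))
    {v : ℝ → σ → ℝ} {x : ℝ} (h : ∀ s, HasDerivAt (fun u => v u s) (aeval (v x) (D (X s))) x)
    (a : MvPolynomial σ ℝ) : HasDerivAt (fun u => aeval (v u) a) (aeval (v x) (D a)) x := by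
  induction a using MvPolynomial.induction_on with
  | C r => simpa using hasDerivAt_const x r
  | add p q hp hq =>
    simp only [map_add]
    exact hp.add hq
  | mul_X p s hp =>
    simp only [map_mul, aeval_X, Derivation.leibniz, smul_eq_mul, map_add]
    exact (hp.mul (h s)).congr_deriv (by ring)

theorem zero_of_jets (x₀ : ℝ) {P : MvPolynomial ℕ ℝ}
    (h : ∀ G : ℝ → ℝ, ContDiff ℝ ∞ G → aeval (fun k => iteratedDeriv k G x₀) P = 0) : P = 0 := by
  refine MvPolynomial.funext fun ζ => ?_
  let q : Polynomial ℝ := ∑ k ∈ P.vars, Polynomial.monomial k (ζ k / k.factorial)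
  have h1 : ∀ k, iteratedDeriv k (fun u => q.eval u) =
      fun u => (Polynomial.derivative^[k] q).eval u := by
    intro k
    induction k with
    | zero => rfl
    | succ k ih =>
      rw [iteratedDeriv_succ, ih, Function.iterate_succ_apply']
      exact funext fun u => Polynomial.deriv _
  have h2 := h (fun u => q.eval (u - x₀))
    ((Polynomial.contDiff_aeval q ∞).comp (contDiff_id.sub contDiff_const))
  rw [map_zero, ← h2]
  refine hom_congr_vars (f₁ := eval ζ)
    (f₂ := (aeval fun k => iteratedDeriv k (fun u => q.eval (u - x₀)) x₀).toRingHom)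
    (by ext; simp) (fun k hk _ => ?_) rfl
  have h3 : (k.factorial : ℝ) ≠ 0 := by positivity
  simp only [eval_X, AlgHom.toRingHom_eq_coe, RingHom.coe_coe, aeval_X]
  rw [iteratedDeriv_comp_sub_const (f := fun u => q.eval u), h1]
  simp only [sub_self, ← Polynomial.coeff_zero_eq_eval_zero, Polynomial.coeff_iterate_derivative,
    zero_add, Nat.descFactorial_self, q, Polynomial.finsetSum_coeff, Polynomial.coeff_monomial,
    Finset.sum_ite_eq', if_pos hk, nsmul_eq_mul]
  field_simp

theorem aeval_fun {σ Ω : Type} (y : σ → Ω → ℝ) (P : MvPolynomial σ ℝ) (x : Ω) :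
    aeval y P x = aeval (fun s => y s x) P := by
  induction P using MvPolynomial.induction_on with
  | C r => simp
  | add p q hp hq => simp only [map_add, Pi.add_apply, hp, hq]
  | mul_X p s hp => simp only [map_mul, Pi.mul_apply, hp, aeval_X]

theorem exists_T : ∃ T : ℕ → MvPolynomial (Option ℕ) ℝ, ∀ f : ℝ → ℝ,
    ContDiffOn ℝ ∞ f (Set.Ioi 0) → ∀ k x, iteratedDeriv k (fun x => f (Real.exp x)) x =
      aeval (fun o : Option ℕ => o.elim (Real.exp x) fun j => iteratedDeriv j f (Real.exp x))
        (T k) := by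
  let D : Derivation ℝ (MvPolynomial (Option ℕ) ℝ) (MvPolynomial (Option ℕ) ℝ) :=
    mkDerivation ℝ fun o : Option ℕ => o.elim (X none) fun j => X none * X (some (j + 1))
  refine ⟨fun k => D^[k] (X (some 0)), fun f hf k => ?_⟩
  induction k with
  | zero => simp
  | succ k ih =>
    intro x
    rw [iteratedDeriv_succ, funext ih]
    simp only [Function.iterate_succ_apply']
    refine (aeval_hasDerivAt D (fun s => ?_) _).deriv
    rcases s with _ | j
    · simpa [D] using Real.hasDerivAt_exp x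
    · exact ((iter_hasDerivAt hf j (Real.exp_pos x)).comp x
        (Real.hasDerivAt_exp x)).congr_deriv (by simp [D, mul_comm])

theorem dt_of_generic {f : ℝ → ℝ} (hf : ContDiffOn ℝ ∞ f (Set.Ioi 0)) (h : IsGeneric f) :
    IsDiffTransc f := by
  obtain ⟨T, hT⟩ := exists_T
  refine algebraicIndependent_iff.2 fun P hP => ?_
  let Ω := Set.Ioi (0 : ℝ)
  let Der : Unit → (Ω → ℝ) → (Ω → ℝ) → Prop := fun _ g g' => ∀ (x : Ω) (γ : ℝ → Ω), γ 0 = x →
    HasDerivAt (fun s => (γ s : ℝ)) 1 0 → HasDerivAt (fun s => g (γ s)) (g' x) 0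
  let e : Ω → ℝ := fun x => Real.exp x
  have de : Der () e e := fun x γ h0 hγ => by
    simpa [e, h0] using hγ.exp
  let z : Option ℕ → Ω × (Unit × ℕ → ℝ) → ℝ := fun o q => o.elim (e q.1) fun j => q.2 ((), j)
  have key := ampl Der (fun _ c _ _ _ _ => hasDerivAt_const 0 c)
    (fun _ _ _ _ _ h1 h2 x γ h0 hγ => (h1 x γ h0 hγ).add (h2 x γ h0 hγ))
    (fun _ g g' k k' h1 h2 x γ h0 hγ => by
      have := (h1 x γ h0 hγ).mul (h2 x γ h0 hγ)
      rw [h0] at this
      exact this)
    (fun _ g' h1 => funext fun x => by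
      classical
      have h2 : ∀ᶠ s in 𝓝 (0 : ℝ), 0 < (x : ℝ) + s :=
        (continuous_const_add (x : ℝ)).continuousAt.eventually (lt_mem_nhds
          (show 0 < (x : ℝ) + 0 by rw [add_zero]; exact x.2))
      have := h1 x (fun s => if h : 0 < (x : ℝ) + s then ⟨x + s, h⟩ else x)
        (by rw [dif_pos h2.self_of_nhds]; simp)
        (((hasDerivAt_id (0 : ℝ)).const_add (x : ℝ)).congr_of_eventuallyEq
          (h2.mono fun s hs => by simp [hs]))
      exact this.unique (hasDerivAt_const 0 0))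
    {e} (Set.finite_singleton e) (fun _ k x => iteratedDeriv k f (Real.exp x)) (fun _ _ => e)
    (fun _ g hg => ⟨e, Algebra.subset_adjoin (.inl rfl), hg ▸ de⟩)
    (fun _ _ => Algebra.subset_adjoin (.inl rfl))
    (fun _ _ k x γ h0 hγ => by
      have := HasDerivAt.comp_of_eq (0 : ℝ) (iter_hasDerivAt hf k (Real.exp_pos x)) (de x γ h0 hγ)
        (by simp [e, h0])
      exact this.congr_deriv (mul_comm _ _))
    (fun x _ => ⟨(), (Real.exp_pos _).ne'⟩)
    (fun x => by
      obtain ⟨K, hK⟩ := h {Real.exp x} (by simpa using Set.mem_Ioi.1 x.2)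
      exact ⟨K, hK.comp (fun p : Unit × ℕ => (⟨_, Finset.mem_singleton_self _⟩, p.2))
        fun p q hpq => Prod.ext rfl (by simpa using hpq)⟩)
    (F := aeval z (aeval T P)) (by
      have h1 : aeval z (aeval T P) ∈ Algebra.adjoin ℝ (Set.range z) := by
        rw [Algebra.adjoin_range_eq_range_aeval]
        exact ⟨_, rfl⟩
      refine Algebra.adjoin_mono ?_ h1
      rintro _ ⟨_ | j, rfl⟩
      · exact .inl ⟨e, rfl, rfl⟩
      · exact .inr ⟨((), j), rfl⟩)
    (fun x => by
      have := congrFun hP x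
      rw [aeval_fun] at this
      simp only [hT f hf] at this
      rw [aeval_fun, ← AlgHom.comp_apply, comp_aeval]
      refine Eq.trans ?_ this
      congr 3)
  refine zero_of_jets 1 fun G hG => ?_
  have h1 : ContDiffOn ℝ ∞ (fun t => G (Real.log t)) (Set.Ioi 0) :=
    hG.comp_contDiffOn (Real.contDiffOn_log.mono fun t ht => ne_of_gt ht)
  have h2 := hT _ h1
  simp only [Real.log_exp] at h2
  have h3 := congrFun key (⟨1, Set.mem_Ioi.2 one_pos⟩,
    fun p => iteratedDeriv p.2 (fun t => G (Real.log t)) (Real.exp 1))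
  rw [aeval_fun, ← AlgHom.comp_apply, comp_aeval] at h3
  refine Eq.trans ?_ h3
  congr 3
  funext k
  rw [h2]

end Pool.Agent.Work.MP_2482e4_mp.Dt
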