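import Mathlib
import Pool.Agent.Work.MP_2482e4_mp.Dt.Jet
import Pool.Agent.Work.MP_2482e4_mp.Dt.An

-- merged part: Pool.Agent.Work.MP_2482e4_mp.Dt.Hol1
section
/-! An algebraic relation between solutions of `t y = y + r` gives a linear relation with constant
coefficients (the argument of Ostrowski). -/

open MvPolynomial

namespace Pool.Agent.Work.MP_2482e4_mp.Dt

variable {K J : Type} [Field K]

/-- All monomials have degree less than `d`. -/
def Lt (d : ℕ) (P : MvPolynomial J K) : Prop := ∀ m : J →₀ ℕ, d ≤ m.degree → coeff m P = 0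

theorem Lt.add {d : ℕ} {P Q : MvPolynomial J K} (h : Lt d P) (h' : Lt d Q) : Lt d (P + Q) :=
  fun m hm => by rw [coeff_add, h m hm, h' m hm, add_zero]

theorem Lt.mono {d e : ℕ} {P : MvPolynomial J K} (h : Lt d P) (he : d ≤ e) : Lt e P :=
  fun m hm => h m (he.trans hm)

theorem Lt.C_mul {d : ℕ} {P : MvPolynomial J K} (h : Lt d P) (c : K) : Lt d (C c * P) :=
  fun m hm => by rw [coeff_C_mul, h m hm, mul_zero]

theorem Lt.mul_X {d : ℕ} {P : MvPolynomial J K} (h : Lt d P) (j : J) : Lt (d + 1) (P * X j) := by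
  classical
  intro m hm
  rw [coeff_mul_X']
  split_ifs with hj
  · refine h _ ?_
    have := congrArg Finsupp.degree (Finsupp.sub_add_single_one_cancel (Finsupp.mem_support_iff.1 hj))
    rw [map_add, Finsupp.degree_single] at this
    omega
  · rfl

theorem Lt.pd [CharZero K] {d : ℕ} {P : MvPolynomial J K} (h : Lt (d + 1) P) (j : J) :
    Lt d (pderiv j P) := fun m hm => by
  rw [coeff_pderiv, h _ (by rw [map_add, Finsupp.degree_single]; omega), zero_mul]

theorem lt_monomial {m : J →₀ ℕ} {d : ℕ} (h : m.degree < d) (a : K) : Lt d (monomial m a) := by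
  classical
  intro m' hm
  rw [coeff_monomial, if_neg]
  rintro rfl
  omega

theorem Lt.eq_zero {P : MvPolynomial J K} (h : Lt 0 P) : P = 0 :=
  MvPolynomial.ext _ _ fun m => h m (Nat.zero_le _)

theorem exists_lt (P : MvPolynomial J K) : ∃ d, Lt d P :=
  ⟨P.totalDegree + 1, fun _ hm => coeff_eq_zero_of_totalDegree_lt hm⟩

theorem const_of_pd [CharZero K] {a : MvPolynomial J K} (h : ∀ s, pderiv s a = 0) :
    a = C (coeff 0 a) := by
  classical
  ext m
  rw [coeff_C]
  split_ifs with hm
  · rw [hm]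
  · obtain ⟨s, hs⟩ := Finsupp.ne_iff.1 (Ne.symm hm)
    have h1 := coeff_pderiv (i := s) a (m - Finsupp.single s 1)
    rw [h s, coeff_zero, Finsupp.sub_add_single_one_cancel hs] at h1
    exact (mul_eq_zero.1 h1.symm).resolve_right (Nat.cast_add_one_ne_zero _)

variable (s : K →+* K) (r : J → K)

/-- The twisted shift. -/
noncomputable def tw : MvPolynomial J K →+* MvPolynomial J K :=
  eval₂Hom (C.comp s) fun j => X j + C (r j)

theorem tw_C (c : K) : tw s r (C c) = C (s c) := by simp [tw]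

theorem tw_X (j : J) : tw s r (X j) = X j + C (r j) := by simp [tw]

theorem pd_tw (j : J) (P : MvPolynomial J K) : pderiv j (tw s r P) = tw s r (pderiv j P) := by
  classical
  induction P using MvPolynomial.induction_on with
  | C a => simp [tw_C]
  | add p q hp hq => simp only [map_add, hp, hq]
  | mul_X p i hp =>
    simp only [map_mul, tw_X, Derivation.leibniz, smul_eq_mul, map_add, hp, pderiv_C, add_zero,
      pderiv_X, Pi.single_apply]
    split_ifs <;> simp

theorem tw_monomial (k : ℕ) : ∀ m : J →₀ ℕ, m.degree = k → ∀ a : K,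
    Lt k (tw s r (monomial m a) - monomial m (s a)) := by
  induction k with
  | zero =>
    intro m hm a
    rw [(Finsupp.degree_eq_zero_iff m).1 hm, ← C_apply, ← C_apply, tw_C, sub_self]
    exact fun _ _ => rfl
  | succ k ih =>
    intro m hm a
    obtain ⟨j, hj⟩ := Finsupp.ne_iff.1 (show m ≠ 0 by rintro rfl; simp at hm)
    have e := Finsupp.sub_add_single_one_cancel hj
    set m' := m - Finsupp.single j 1
    have h1 : m'.degree = k := by
      have := congrArg Finsupp.degree e
      rw [map_add, Finsupp.degree_single] at this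
      omega
    have h2 : ∀ b : K, monomial m b = monomial m' b * X j := fun b => by
      rw [← e, monomial_add_single, pow_one]
    have h3 : tw s r (monomial m a) - monomial m (s a) =
        (tw s r (monomial m' a) - monomial m' (s a)) * X j +
          C (r j) * (tw s r (monomial m' a) - monomial m' (s a)) + C (r j) * monomial m' (s a) := by
      rw [h2, h2, map_mul, tw_X]
      ring
    rw [h3]
    exact (((ih m' h1 a).mul_X j).add (((ih m' h1 a).C_mul _).mono (Nat.le_succ k))).add
      ((lt_monomial (by omega) _).C_mul _)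

theorem coeff_tw {d : ℕ} {P : MvPolynomial J K} (h : Lt (d + 1) P) {m : J →₀ ℕ}
    (hm : d ≤ m.degree) : coeff m (tw s r P) = s (coeff m P) := by
  classical
  have h1 : tw s r P - map s P =
      ∑ u ∈ P.support, (tw s r (monomial u (coeff u P)) - monomial u (s (coeff u P))) := by
    conv_lhs => rw [P.as_sum]
    simp only [map_sum, map_monomial, Finset.sum_sub_distrib]
  rw [← coeff_map, ← sub_eq_zero, ← coeff_sub, h1, coeff_sum]
  refine Finset.sum_eq_zero fun u hu => tw_monomial s r _ u rfl _ m ?_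
  have : ¬ d + 1 ≤ u.degree := fun h2 => mem_support_iff.1 hu (h u h2)
  omega

theorem lin_of_fixed [CharZero K] (e : ℕ) : ∀ P : MvPolynomial J K, Lt e P → tw s r P = P →
    (∃ j, pderiv j P ≠ 0) → ∃ (V : Finset J) (c : J → K) (h : K), (∃ j ∈ V, c j ≠ 0) ∧
      (∀ j, s (c j) = c j) ∧ s h + ∑ j ∈ V, c j * r j = h := by
  classical
  induction e with
  | zero =>
    rintro P h1 - ⟨j, hj⟩
    exact absurd (by rw [h1.eq_zero, map_zero]) hj
  | succ e ih =>
    rintro P h1 h2 ⟨j₀, hj₀⟩
    have h3 : ∀ j, tw s r (pderiv j P) = pderiv j P := fun j => by rw [← pd_tw, h2]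
    by_cases h4 : ∃ j i, pderiv i (pderiv j P) ≠ 0
    · obtain ⟨j, hj⟩ := h4
      exact ih _ (h1.pd j) (h3 j) hj
    push Not at h4
    set c : J → K := fun j => coeff 0 (pderiv j P)
    have h5 : ∀ j, pderiv j P = C (c j) := fun j => const_of_pd (h4 j)
    have h6 : ∀ j, s (c j) = c j := fun j => C_injective J K (by rw [← tw_C s r, ← h5, h3])
    have h7 := const_of_pd (a := P - ∑ j ∈ P.vars, C (c j) * X j) fun i => by
      simp only [map_sub, map_sum, pderiv_C_mul, pderiv_X, Pi.single_apply, mul_ite, mul_one,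
        mul_zero, Finset.sum_ite_eq']
      split_ifs with hi
      · rw [h5, sub_self]
      · rw [pderiv_eq_zero_of_notMem_vars hi, sub_self]
    set h := coeff 0 (P - ∑ j ∈ P.vars, C (c j) * X j)
    refine ⟨P.vars, c, h, ⟨j₀, by_contra fun hj => hj₀ (pderiv_eq_zero_of_notMem_vars hj),
      fun e => hj₀ (by rw [h5, e, C_0])⟩, h6, C_injective J K ?_⟩
    have h8 := congrArg (tw s r) h7
    simp only [map_sub, map_sum, map_mul, tw_C, tw_X, h2, h6, mul_add, Finset.sum_add_distrib] at h8
    simp only [map_add, map_sum, map_mul]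
    linear_combination h7 - h8

theorem ostrowski [CharZero K] {A : Type} [CommRing A] [Nontrivial A] [Algebra K A] (t : A →+* A)
    (hst : ∀ c, t (algebraMap K A c) = algebraMap K A (s c)) {y : J → A}
    (hy : ∀ j, t (y j) = y j + algebraMap K A (r j)) (h : ¬ AlgebraicIndependent K y) :
    ∃ (V : Finset J) (c : J → K) (h : K), (∃ j ∈ V, c j ≠ 0) ∧
      (∀ j, s (c j) = c j) ∧ s h + ∑ j ∈ V, c j * r j = h := by
  classical
  have h1 : ∀ P, aeval y (tw s r P) = t (aeval y P) := fun P => by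
    induction P using MvPolynomial.induction_on with
    | C a => simp [tw_C, hst]
    | add p q hp hq => simp only [map_add, hp, hq]
    | mul_X p i hp => simp [tw_X, hp, hy]
  have h2 : ∃ e, ∃ P : MvPolynomial J K, Lt e P ∧ aeval y P = 0 ∧ P ≠ 0 := by
    rw [algebraicIndependent_iff] at h
    push Not at h
    obtain ⟨P, hP⟩ := h
    obtain ⟨e, he⟩ := exists_lt P
    exact ⟨e, P, he, hP⟩
  obtain ⟨d, hd⟩ : ∃ d, Nat.find h2 = d + 1 := Nat.exists_eq_succ_of_ne_zero fun e => by
    obtain ⟨P, a1, -, a2⟩ := Nat.find_spec h2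
    rw [e] at a1
    exact a2 a1.eq_zero
  have h3 : ∃ k, ∃ P : MvPolynomial J K, (Lt (d + 1) P ∧ aeval y P = 0 ∧ P ≠ 0) ∧
      (P.support.filter fun m => d ≤ m.degree).card = k := by
    obtain ⟨P, hP⟩ := Nat.find_spec h2
    exact ⟨_, P, hd ▸ hP, rfl⟩
  obtain ⟨P, ⟨a1, a2, a3⟩, a4⟩ := Nat.find_spec h3
  obtain ⟨m₀, b1, b2⟩ : ∃ m : J →₀ ℕ, d ≤ m.degree ∧ coeff m P ≠ 0 := by
    by_contra hc
    push Not at hc
    exact Nat.find_min h2 (m := d) (by omega) ⟨P, hc, a2, a3⟩
  set Q := C (coeff m₀ P)⁻¹ * P with hQ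
  have c1 : Lt (d + 1) Q := a1.C_mul _
  have c2 : aeval y Q = 0 := by rw [hQ, map_mul, a2, mul_zero]
  have c3 : coeff m₀ Q = 1 := by rw [hQ, coeff_C_mul, inv_mul_cancel₀ b2]
  have c4 : ∀ m : J →₀ ℕ, d ≤ m.degree → coeff m (tw s r Q - Q) = s (coeff m Q) - coeff m Q :=
    fun m hm => by rw [coeff_sub, coeff_tw s r c1 hm]
  have c5 : tw s r Q = Q := by
    by_contra hc
    refine Nat.find_min h3 ?_ ⟨tw s r Q - Q, ⟨fun m hm => ?_, ?_, sub_ne_zero.2 hc⟩, rfl⟩
    · rw [← a4]
      refine Finset.card_lt_card ⟨fun m hm => ?_, fun hs => ?_⟩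
      · rw [Finset.mem_filter, mem_support_iff] at hm ⊢
        refine ⟨fun e => hm.1 ?_, hm.2⟩
        rw [c4 m hm.2, hQ, coeff_C_mul, e, mul_zero, map_zero, sub_zero]
      · have := hs (Finset.mem_filter.2 ⟨mem_support_iff.2 b2, b1⟩)
        rw [Finset.mem_filter, mem_support_iff, c4 m₀ b1, c3, map_one, sub_self] at this
        exact this.1 rfl
    · rw [c4 m (by omega), c1 m hm, map_zero, sub_zero]
    · rw [map_sub, h1, c2, map_zero, sub_zero]
  refine lin_of_fixed s r _ Q c1 c5 (by_contra fun hc => ?_)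
  push Not at hc
  have c6 := const_of_pd hc
  rw [c6, aeval_C, map_eq_zero] at c2
  rw [c6, c2, C_0, coeff_zero] at c3
  exact zero_ne_one c3

end Pool.Agent.Work.MP_2482e4_mp.Dt
end

-- merged part: Pool.Agent.Work.MP_2482e4_mp.Dt.Hol2
section
/-! The theorem of Hoelder for a solution of `y (z + 1) = y z + 1 / z`. -/

open scoped Topology
open Polynomial Filter

namespace Pool.Agent.Work.MP_2482e4_mp.Dt

theorem denom_of_tele {h : RatFunc ℝ} {N : ℕ} {c : ℝ[X]}
    (e : (RatFunc.laurent 1 h - h) * RatFunc.X ^ N = algebraMap _ _ c) :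
    h = algebraMap _ _ h.num := by
  classical
  set a := h.num
  set b := h.denom
  have hb : b ≠ 0 := h.denom_ne_zero
  have hb1 : taylor 1 b ≠ 0 := fun e => hb (taylor_injective 1 (by rw [e, map_zero]))
  have e1 : (taylor 1 a * b - a * taylor 1 b) * X ^ N = c * (b * taylor 1 b) := by
    apply RatFunc.algebraMap_injective ℝ
    have h1 := RatFunc.algebraMap_ne_zero hb
    have h2 := RatFunc.algebraMap_ne_zero hb1
    have hab : h = algebraMap _ _ a / algebraMap _ _ b := h.num_div_denom.symm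
    rw [hab, RatFunc.laurent_div] at e
    simp only [map_mul, map_sub, map_pow, RatFunc.algebraMap_X, ← e]
    field_simp
  have tv : ∀ (p : ℝ[X]) (z : ℂ), aeval z (taylor 1 p) = aeval (z + 1) p := fun p z => by
    simp [taylor_apply, aeval_comp]
  have e2 : ∀ z : ℂ, (aeval (z + 1) a * aeval z b - aeval z a * aeval (z + 1) b) * z ^ N =
      aeval z c * (aeval z b * aeval (z + 1) b) := fun z => by
    simpa only [map_mul, map_sub, map_pow, aeval_X, tv] using congrArg (aeval z) e1
  have cop : ∀ z : ℂ, aeval z b = 0 → aeval z a ≠ 0 := fun z h1 h2 => by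
    obtain ⟨u, v, huv⟩ := h.isCoprime_num_denom
    have := congrArg (aeval z) huv
    simp only [map_add, map_mul, map_one] at this
    rw [h1, h2] at this
    simp at this
  have hd : b.degree = 0 := by
    by_contra hd
    have hne : (b.aroots ℂ).toFinset.Nonempty := by
      obtain ⟨z, hz⟩ := IsAlgClosed.exists_aeval_eq_zero ℂ b hd
      exact ⟨z, Multiset.mem_toFinset.2 (mem_aroots.2 ⟨hb, hz⟩)⟩
    have mem : ∀ z : ℂ, z ∈ (b.aroots ℂ).toFinset ↔ aeval z b = 0 := fun z => by
      rw [Multiset.mem_toFinset, mem_aroots]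
      exact ⟨fun h => h.2, fun h => ⟨hb, h⟩⟩
    obtain ⟨p, hp, hmax⟩ := Finset.exists_max_image _ Complex.re hne
    obtain ⟨q, hq, hmin⟩ := Finset.exists_min_image _ Complex.re hne
    have p0 : p = 0 := by
      by_contra h0
      have h1 := e2 p
      rw [(mem p).1 hp] at h1
      simp only [mul_zero, zero_sub, zero_mul, neg_mul, neg_eq_zero, mul_eq_zero,
        cop p ((mem p).1 hp), pow_ne_zero N h0, false_or, or_false] at h1
      have := hmax _ ((mem _).2 h1)
      simp only [Complex.add_re, Complex.one_re] at this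
      linarith
    have q1 : q - 1 = 0 := by
      by_contra h0
      have h1 := e2 (q - 1)
      rw [sub_add_cancel, (mem q).1 hq] at h1
      simp only [mul_zero, sub_zero, mul_eq_zero, cop q ((mem q).1 hq), pow_ne_zero N h0, false_or,
        or_false] at h1
      have := hmin _ ((mem _).2 h1)
      simp only [Complex.sub_re, Complex.one_re] at this
      linarith
    have := hmax q hq
    rw [p0, sub_eq_zero.1 q1] at this
    norm_num at this
  have hb2 : b = 1 := (h.monic_denom.degree_le_zero_iff_eq_one).1 hd.le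
  have := h.num_div_denom
  rw [show h.denom = 1 from hb2, map_one, div_one] at this
  exact this.symm

theorem const_of_fixed {h : RatFunc ℝ} (e : RatFunc.laurent 1 h = h) : ∃ a, h = RatFunc.C a := by
  have h1 := denom_of_tele (h := h) (N := 0) (c := 0) (by simp [e])
  set p := h.num
  have h2 : taylor 1 p = p := RatFunc.algebraMap_injective ℝ (by
    rw [← RatFunc.laurent_algebraMap, ← h1, e])
  have h3 : ∀ k : ℕ, p.eval (k : ℝ) = p.eval 0 := fun k => by
    induction k with
    | zero => simp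
    | succ k ih => rw [Nat.cast_succ, ← taylor_eval, h2, ih]
  have h4 : p - C (p.eval 0) = 0 := eq_zero_of_infinite_isRoot _
    ((Set.infinite_range_of_injective (Nat.cast_injective (R := ℝ))).mono (by
      rintro _ ⟨k, rfl⟩
      simp [h3]))
  exact ⟨p.eval 0, by rw [h1, ← RatFunc.algebraMap_C, ← sub_eq_zero.1 h4]⟩

theorem no_tele {ε : ℕ → ℝ} (hε : ∀ j, ε j ≠ 0) {V : Finset ℕ} {c : ℕ → RatFunc ℝ} {h : RatFunc ℝ}
    (h1 : ∃ j ∈ V, c j ≠ 0) (h2 : ∀ j, RatFunc.laurent 1 (c j) = c j)
    (h3 : RatFunc.laurent 1 h + ∑ j ∈ V, c j * (RatFunc.C (ε j) * (RatFunc.X⁻¹) ^ (j + 1)) = h) :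
    False := by
  classical
  choose a ha using fun j => const_of_fixed (h2 j)
  obtain ⟨j₁, hj₁, hmax⟩ := Finset.exists_max_image (V.filter fun j => a j ≠ 0) id (by
    obtain ⟨j, hj, hc⟩ := h1
    exact ⟨j, Finset.mem_filter.2 ⟨hj, fun e => hc (by rw [ha, e, map_zero])⟩⟩)
  rw [Finset.mem_filter] at hj₁
  have e : (RatFunc.laurent 1 h - h) * RatFunc.X ^ (j₁ + 1) =
      algebraMap _ _ (-∑ j ∈ V, C (a j * ε j) * X ^ (j₁ - j) : ℝ[X]) := by
    rw [show RatFunc.laurent 1 h - h =
      -∑ j ∈ V, c j * (RatFunc.C (ε j) * (RatFunc.X⁻¹) ^ (j + 1)) by linear_combination h3,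
      map_neg, map_sum, neg_mul, Finset.sum_mul]
    congr 1
    refine Finset.sum_congr rfl fun j hj => ?_
    by_cases h0 : a j = 0
    · simp [ha, h0]
    · have h4 : j ≤ j₁ := hmax j (Finset.mem_filter.2 ⟨hj, h0⟩)
      have h5 := RatFunc.X_ne_zero (K := ℝ)
      rw [ha, show j₁ + 1 = (j₁ - j) + (j + 1) by omega]
      simp only [map_mul, map_pow, RatFunc.algebraMap_C, RatFunc.algebraMap_X, inv_pow,
        pow_add _ (j₁ - j)]
      field_simp
  have e1 := denom_of_tele e
  rw [e1, RatFunc.laurent_algebraMap, ← RatFunc.algebraMap_X, ← map_pow, ← map_sub, ← map_mul] at e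
  have e2 := congrArg (eval 0) (RatFunc.algebraMap_injective ℝ e)
  simp only [eval_mul, eval_pow, eval_X, eval_neg, eval_finsetSum, eval_C] at e2
  rw [Finset.sum_eq_single j₁ (fun j hj hne => ?_) fun hj => absurd hj₁.1 hj] at e2
  · simp [hj₁.2, hε] at e2
  · by_cases h0 : a j = 0
    · simp [h0]
    · have h4 : j ≤ j₁ := hmax j (Finset.mem_filter.2 ⟨hj, h0⟩)
      rw [zero_pow (by omega), mul_zero]

/-- Functions that vanish for large arguments. -/
def evI : Ideal (ℝ → ℝ) where
  carrier := {g | ∀ᶠ z in atTop, g z = 0}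
  add_mem' ha hb := (Eventually.and ha hb).mono fun z hz => by simp [hz.1, hz.2]
  zero_mem' := Eventually.of_forall fun _ => rfl
  smul_mem' c g hg := Eventually.mono hg fun z hz => by simp [hz]

/-- Germs at infinity. -/
abbrev Gm := (ℝ → ℝ) ⧸ evI

theorem gm_eq {g k : ℝ → ℝ} (h : ∀ᶠ z in atTop, g z = k z) :
    Ideal.Quotient.mk evI g = Ideal.Quotient.mk evI k :=
  Ideal.Quotient.eq.2 (Eventually.mono h fun _ hz => sub_eq_zero.2 hz)

/-- The germ of a polynomial. -/
noncomputable def polG : ℝ[X] →+* Gm :=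
  (Ideal.Quotient.mk evI).comp (RingHom.pi fun z : ℝ => evalRingHom z)

theorem polG_unit (p : nonZeroDivisors ℝ[X]) : IsUnit (polG p) := by
  have hp : (p : ℝ[X]) ≠ 0 := nonZeroDivisors.coe_ne_zero p
  refine IsUnit.of_mul_eq_one (Ideal.Quotient.mk evI fun z => ((p : ℝ[X]).eval z)⁻¹) ?_
  refine gm_eq (k := 1) ((eventually_atTop_not_isRoot _ hp).mono fun z hz => ?_)
  exact mul_inv_cancel₀ hz

/-- The germ of a rational function. -/
noncomputable def ratG : RatFunc ℝ →+* Gm := IsLocalization.lift polG_unit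

theorem ratG_pol (p : ℝ[X]) : ratG (algebraMap _ _ p) = Ideal.Quotient.mk evI fun z => p.eval z :=
  IsLocalization.lift_eq polG_unit p

theorem ratG_C (a : ℝ) : ratG (RatFunc.C a) = Ideal.Quotient.mk evI fun _ => a := by
  rw [← RatFunc.algebraMap_C, ratG_pol]
  simp

theorem ratG_inv (a : ℝ) :
    ratG (RatFunc.X - RatFunc.C a)⁻¹ = Ideal.Quotient.mk evI fun z => (z - a)⁻¹ := by
  have h1 : (RatFunc.X - RatFunc.C a : RatFunc ℝ) = algebraMap _ _ (X - C a : ℝ[X]) := by simp
  have h2 : ratG (RatFunc.X - RatFunc.C a) * (Ideal.Quotient.mk evI fun z => (z - a)⁻¹) = 1 := by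
    rw [h1, ratG_pol]
    refine gm_eq (k := 1) ((eventually_gt_atTop a).mono fun z hz => ?_)
    simp [mul_inv_cancel₀ (sub_pos.2 hz).ne']
  rw [← mul_one (ratG _), ← h2, ← mul_assoc, ← map_mul,
    inv_mul_cancel₀ (h1 ▸ RatFunc.algebraMap_ne_zero (X_sub_C_ne_zero a)), map_one, one_mul]

/-- The shift of germs. -/
noncomputable def shG : Gm →+* Gm :=
  Ideal.quotientMap evI (RingHom.pi fun z : ℝ => Pi.evalRingHom (fun _ : ℝ => ℝ) (z + 1))
    fun _ hg => (tendsto_atTop_add_const_right _ 1 tendsto_id).eventually hg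

theorem shG_mk (g : ℝ → ℝ) :
    shG (Ideal.Quotient.mk evI g) = Ideal.Quotient.mk evI fun z => g (z + 1) := rfl

theorem shG_ratG (c : RatFunc ℝ) : shG (ratG c) = ratG (RatFunc.laurent 1 c) := by
  have : shG.comp ratG = ratG.comp (RatFunc.laurent (1 : ℝ)).toRingHom := by
    refine IsLocalization.ringHom_ext (nonZeroDivisors ℝ[X]) (RingHom.ext fun p => ?_)
    change shG (ratG (algebraMap _ _ p)) = ratG (RatFunc.laurent 1 (algebraMap _ _ p))
    rw [RatFunc.laurent_algebraMap, ratG_pol, ratG_pol, shG_mk]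
    simp only [taylor_eval]
  exact RingHom.congr_fun this c

/-- The point `(z, 1 / (z - 4), η)`. -/
noncomputable def pt (z : ℝ) (η : ℕ → ℝ) : Bool ⊕ ℕ → ℝ :=
  Sum.elim (fun b => cond b z (z - 4)⁻¹) η

theorem hoelder {y : ℕ → ℝ → ℝ} {ε : ℕ → ℝ} (hε : ∀ j, ε j ≠ 0)
    (hy : ∀ j z, 4 < z → y j (z + 1) = y j z + ε j * z⁻¹ ^ (j + 1))
    {a : MvPolynomial (Bool ⊕ ℕ) ℝ}
    (h : ∀ z, 4 < z → MvPolynomial.aeval (pt z fun j => y j z) a = 0) {z : ℝ} (hz : 4 < z)
    (η : ℕ → ℝ) : MvPolynomial.aeval (pt z η) a = 0 := by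
  let _ : Algebra (RatFunc ℝ) Gm := ratG.toAlgebra
  have : Nontrivial Gm := Ideal.Quotient.nontrivial_iff.2 fun e => by
    have h1 : (1 : ℝ → ℝ) ∈ evI := e ▸ Submodule.mem_top
    obtain ⟨z, hz⟩ := Eventually.exists h1
    exact one_ne_zero hz
  have h1 : AlgebraicIndependent (RatFunc ℝ) fun j => Ideal.Quotient.mk evI (y j) := by
    by_contra hc
    obtain ⟨V, c, k, a1, a2, a3⟩ := ostrowski (RatFunc.laurent (1 : ℝ)).toRingHom
      (fun j => RatFunc.C (ε j) * (RatFunc.X⁻¹) ^ (j + 1)) shG shG_ratG (fun j => by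
        change _ = _ + ratG _
        have h2 := ratG_inv 0
        simp only [map_zero, sub_zero] at h2
        rw [shG_mk, map_mul, map_pow, ratG_C, h2, ← map_pow, ← map_mul, ← map_add]
        exact gm_eq ((eventually_gt_atTop 4).mono fun z hz => hy j z hz)) hc
    exact no_tele hε a1 a2 a3
  let u : Bool ⊕ ℕ → MvPolynomial ℕ (RatFunc ℝ) := Sum.elim
    (fun b => MvPolynomial.C (cond b RatFunc.X (RatFunc.X - RatFunc.C 4)⁻¹)) MvPolynomial.X
  have h2 : ∀ (w : ℕ → ℝ → ℝ) (a : MvPolynomial (Bool ⊕ ℕ) ℝ),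
      MvPolynomial.aeval (fun j => Ideal.Quotient.mk evI (w j))
        (MvPolynomial.eval₂Hom (MvPolynomial.C.comp (RatFunc.C : ℝ →+* RatFunc ℝ)) u a) =
      Ideal.Quotient.mk evI fun z => MvPolynomial.aeval (pt z fun j => w j z) a := by
    intro w a
    induction a using MvPolynomial.induction_on with
    | C r =>
      simp only [MvPolynomial.eval₂Hom_C, RingHom.comp_apply, MvPolynomial.aeval_C]
      exact ratG_C r
    | add p q hp hq =>
      simp only [map_add, hp, hq]
      rfl
    | mul_X p s hp =>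
      simp only [map_mul, hp, MvPolynomial.eval₂Hom_X', MvPolynomial.aeval_X]
      have h3 : MvPolynomial.aeval (fun j => Ideal.Quotient.mk evI (w j)) (u s) =
          Ideal.Quotient.mk evI fun z => pt z (fun j => w j z) s := by
        rcases s with (_ | _) | j
        · exact (MvPolynomial.aeval_C _ _).trans (ratG_inv 4)
        · refine (MvPolynomial.aeval_C _ _).trans ?_
          change ratG RatFunc.X = _
          rw [← RatFunc.algebraMap_X, ratG_pol]
          simp only [eval_X]
          rfl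
        · exact MvPolynomial.aeval_X _ _
      rw [h3]
      rfl
  have h3 := algebraicIndependent_iff.1 h1 _
    ((h2 y a).trans (gm_eq (k := 0) ((eventually_gt_atTop 4).mono h)))
  have h4 := h2 (fun j _ => η j) a
  rw [h3, map_zero] at h4
  obtain ⟨b, hb⟩ := eventually_atTop.1 (Ideal.Quotient.eq_zero_iff_mem.1 h4.symm)
  have h5 : AnalyticOnNhd ℝ (fun z => MvPolynomial.aeval (pt z η) a) (Set.Ioi 4) := fun z hz =>
    aeval_analytic (z := fun s z => pt z η s) (fun s => by
      rcases s with (_ | _) | j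
      · exact (analyticAt_id.sub analyticAt_const).inv (sub_pos.2 hz).ne'
      · exact analyticAt_id
      · exact analyticAt_const) a
  exact h5.eqOn_zero_of_preconnected_of_eventuallyEq_zero isPreconnected_Ioi
    (z₀ := max b 4 + 1) (by simp [lt_add_of_le_of_pos])
    ((lt_mem_nhds (show b < max b 4 + 1 by linarith [le_max_left b 4])).mono
      fun u hu => hb u hu.le) hz

end Pool.Agent.Work.MP_2482e4_mp.Dt
end
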