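import Pool.Agent.Work.MP_2482e4_mp.Gn.Baire
import Pool.Agent.Work.MP_2482e4_mp.Dt.An
import Mathlib
import Pool.Agent.Work.MP_2482e4_mp.Gn.Main

-- merged part: Pool.Agent.Work.MP_2482e4_mp.Dt.Cen
section
/-! Spectral data near a point with simple spectrum; generic points along analytic curves. -/

open scoped ComplexOrder Topology ContDiff Matrix.Norms.L2Operator
open Matrix Filter Module

set_option linter.unusedSectionVars false

namespace Pool.Agent.Work.MP_2482e4_mp.Dt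
open Gn

variable {n : Type} [Fintype n] [DecidableEq n]

theorem exists_strat_at {N : Set (Mt n)} (hh : ∀ H ∈ N, H.IsHermitian) {H₀ U₀ : Mt n}
    (hH₀ : H₀ ∈ N) (hU₀ : U₀ * star U₀ = 1) {x₀ : n → ℝ} (e₀ : H₀ = Dg U₀ x₀)
    (hx₀ : Function.Injective x₀) :
    ∃ O : Set (Mt n), IsOpen O ∧ H₀ ∈ O ∧
      ∃ (m : ℕ) (l : Mt n → Fin m → ℝ) (P : Mt n → Fin m → Mt n), Strat (N ∩ O) l P := by
  have h1 : ∀ H : Mt n, ∃ (U : Mt n) (y : n → ℝ), H ∈ N → U * star U = 1 ∧ H = Dg U y := fun H => by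
    by_cases h : H ∈ N
    · obtain ⟨U, y, h⟩ := exists_Dg (hh H h)
      exact ⟨U, y, fun _ => h⟩
    · exact ⟨0, 0, fun h' => absurd h' h⟩
  choose U y hUy using h1
  have hnear : ∀ H ∈ N, ∀ H' ∈ N, ∀ i, ∃ j, |y H' j - y H i| ≤ ‖H - H'‖ := fun H hH H' hH' i => by
    have := Strat_near (hUy H hH).1 (hUy H' hH').1 (y H) (y H') i
    rwa [← (hUy H hH).2, ← (hUy H' hH').2] at this
  have hmax : ∀ H, (Finset.univ.image (y H)).card ≤ (Finset.univ.image (y H₀)).card := fun H => by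
    refine Finset.card_image_le.trans ?_
    rw [← Finset.card_image_of_injective _ hx₀]
    refine Finset.card_le_card fun t ht => ?_
    obtain ⟨i, -, rfl⟩ := Finset.mem_image.1 ht
    obtain ⟨j, hj⟩ := Strat_near hU₀ (hUy H₀ hH₀).1 x₀ (y H₀) i
    rw [← e₀, ← (hUy H₀ hH₀).2, sub_self, norm_zero] at hj
    exact Finset.mem_image.2 ⟨j, Finset.mem_univ _, sub_eq_zero.1 (abs_nonpos_iff.1 hj)⟩
  obtain ⟨m, hm⟩ : ∃ m, (Finset.univ.image (y H₀)).card = m := ⟨_, rfl⟩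
  set l₀ := (Finset.univ.image (y H₀)).orderEmbOfFin hm
  obtain ⟨δ, hδ, hgap⟩ := Strat_gap (l := l₀) l₀.injective
  have h2 : ∀ H a, ∃ x, H ∈ N ∩ Metric.ball H₀ δ → (∃ j, y H j = x) ∧ |x - l₀ a| < δ := fun H a => by
    by_cases h : H ∈ N ∩ Metric.ball H₀ δ
    · obtain ⟨i, -, hi⟩ := Finset.mem_image.1 (Finset.orderEmbOfFin_mem _ hm a)
      obtain ⟨j, hj⟩ := hnear H₀ hH₀ H h.1 i
      exact ⟨y H j, fun _ => ⟨⟨j, rfl⟩, (hi ▸ hj).trans_lt (mem_ball_iff_norm'.1 h.2)⟩⟩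
    · exact ⟨0, fun h' => absurd h' h⟩
  choose l hl using h2
  have hinj : ∀ H ∈ N ∩ Metric.ball H₀ δ, Function.Injective (l H) := fun H hH a b e => by
    refine hgap a b ?_
    have a1 := abs_lt.1 (hl H a hH).2
    have a2 := abs_lt.1 (hl H b hH).2
    rw [abs_lt]
    constructor <;> linarith
  have hsur : ∀ H ∈ N ∩ Metric.ball H₀ δ, ∀ i, ∃ a, l H a = y H i := fun H hH i => by
    have e : Finset.univ.image (l H) = Finset.univ.image (y H) := by
      refine Finset.eq_of_subset_of_card_le (fun x hx => ?_) ?_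
      · obtain ⟨a, -, rfl⟩ := Finset.mem_image.1 hx
        obtain ⟨j, hj⟩ := (hl H a hH).1
        exact Finset.mem_image.2 ⟨j, Finset.mem_univ _, hj⟩
      · rw [Finset.card_image_of_injective _ (hinj H hH), Finset.card_fin, ← hm]
        exact hmax H
    simpa using e.ge (Finset.mem_image_of_mem _ (Finset.mem_univ i))
  have hcl : ∀ a, ContinuousOn (fun H => l H a) (N ∩ Metric.ball H₀ δ) := fun a => by
    refine (LipschitzOnWith.of_dist_le_mul (K := 1) fun H' hH' H hH => ?_).continuousOn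
    obtain ⟨i, hi⟩ := (hl H a hH).1
    obtain ⟨j, hj⟩ := hnear H hH.1 H' hH'.1 i
    obtain ⟨b, hb⟩ := hsur H' hH' j
    rw [← hb, hi, ← dist_eq_norm'] at hj
    have e : b = a := by
      refine hgap b a ?_
      have a1 := abs_lt.1 (hl H a hH).2
      have a2 := abs_lt.1 (hl H' b hH').2
      have a3 := abs_le.1 hj
      have a4 := dist_triangle_right H' H H₀
      have a5 := Metric.mem_ball.1 hH.2
      have a6 := Metric.mem_ball.1 hH'.2
      rw [abs_lt]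
      constructor <;> linarith
    rwa [NNReal.coe_one, one_mul, Real.dist_eq, ← congrArg (l H') e]
  refine ⟨Metric.ball H₀ δ, Metric.isOpen_ball, Metric.mem_ball_self hδ, m, l,
    fun H => Strat_P H (l H), fun H hH => ?_, fun H hH a => ?_, fun H hH => ?_, hinj, hcl,
    fun a => ?_⟩
  · have := (Strat_data (hUy H hH.1).1 (hinj H hH) (hsur H hH)).1
    rwa [← (hUy H hH.1).2] at this
  · have := Strat_P_eq (hUy H hH.1).1 (hinj H hH) (hsur H hH) a
    rw [← (hUy H hH.1).2] at this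
    obtain ⟨i, hi⟩ := (hl H a hH).1
    rw [this]
    exact Strat_ne (hUy H hH.1).1 (i := i) (by simp [hi])
  · have := (Strat_data (hUy H hH.1).1 (hinj H hH) (hsur H hH)).2
    rwa [← (hUy H hH.1).2] at this
  · refine continuousOn_list_prod _ fun b hb => ?_
    refine (((hcl a).sub (hcl b)).inv₀ fun H hH => ?_).smul
      (continuousOn_id.sub ((hcl b).smul continuousOn_const))
    exact sub_ne_zero.2
      ((hinj H hH).ne (Finset.ne_of_mem_erase (Finset.mem_toList.1 hb)).symm)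

theorem exists_good_of {w : ℝ → ℝ} {𝒜 : Submodule ℝ (Mt n)} {N : Set (Mt n)} (h : Leaf w 𝒜 N)
    (hne : N.Nonempty) {m : ℕ} {l : Mt n → Fin m → ℝ} {P : Mt n → Fin m → Mt n}
    (hS : Strat N l P) : ∃ V, IsOpen V ∧ (N ∩ V).Nonempty ∧ ∃ R : Fin m → Fin m → Prop,
      Good w 𝒜 (N ∩ V) l P R := by
  let e := finBasis ℝ 𝒜
  obtain ⟨V, hV, hne', hk⟩ := shrink
    (κ := (Fin (finrank ℝ 𝒜) × Fin m × Fin m) ⊕ (Fin m × Fin m × Fin m × Fin m) ⊕ Fin m × Fin m) hne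
    (Sum.elim (fun k H => mu (P H) (e k.1) k.2.1 - mu (P H) (e k.1) k.2.2)
      (Sum.elim (fun k H => l H k.1 - l H k.2.1 - (l H k.2.2.1 - l H k.2.2.2))
        fun k H => max (l H k.1 - l H k.2) 0)) (by
      rintro (k | k | k)
      · exact (Strat_mu_cont hS _ _).sub (Strat_mu_cont hS _ _)
      · exact ((hS.cl _).sub (hS.cl _)).sub ((hS.cl _).sub (hS.cl _))
      · exact ((hS.cl _).sub (hS.cl _)).sup continuousOn_const)
  refine ⟨V, hV, hne',
    fun a b => ∀ H ∈ N ∩ V, ∀ A ∈ 𝒜, mu (P H) A a = mu (P H) A b,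
    h.inter hV, hS.mono Set.inter_subset_left, fun a b h => h, fun a b hR H hH => ?_,
    fun a b c d => ?_, fun a b => ?_⟩
  · by_contra hc
    push Not at hc
    refine hR fun H' hH' A hA => ?_
    have e1 : A = ∑ i, e.repr ⟨A, hA⟩ i • (e i : Mt n) := by
      simpa only [Submodule.coe_sum, Submodule.coe_smul] using
        (congrArg Subtype.val (e.sum_repr ⟨A, hA⟩)).symm
    rw [e1, Strat_mu_sum, Strat_mu_sum]
    refine Finset.sum_congr rfl fun i _ => ?_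
    rcases hk (.inl (i, a, b)) with h1 | h1
    · rw [sub_eq_zero.1 (h1 H' hH')]
    · exact absurd (sub_eq_zero.2 (hc _ (e i).2)) (h1 H hH)
  · exact (hk (.inr (.inl (a, b, c, d)))).imp (fun h1 H hH => sub_eq_zero.1 (h1 H hH))
      fun h1 H hH => sub_ne_zero.1 (h1 H hH)
  · exact (hk (.inr (.inr (a, b)))).imp
      (fun h1 H hH => sub_nonpos.1 (max_eq_right_iff.1 (h1 H hH)))
      fun h1 H hH => not_le.1 fun h2 => h1 H hH (max_eq_right (sub_nonpos.2 h2))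

theorem GenAt.of_eq {J J' : Type} {F : ℝ → ℝ} {x : J → ℝ} (h : GenAt F x) {y : J' → ℝ}
    {e : J' → J} (he : Function.Injective e) (hy : ∀ a b, y a - y b = x (e a) - x (e b)) :
    GenAt F y := by
  intro s h1 h2
  have h3 := h (Prod.map e e '' s) (by
    rintro _ ⟨p, hp, rfl⟩
    exact he.ne (h1 p hp)) (by
    rintro _ ⟨p, hp, rfl⟩ ⟨q, hq, e1⟩
    have : q = p.swap := Prod.ext (he (congrArg Prod.fst e1)) (he (congrArg Prod.snd e1))
    exact h2 p hp (this ▸ hq))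
  let φ : s × ℕ → (Prod.map e e '' s) × ℕ := fun q => (⟨Prod.map e e q.1.1, q.1.1, q.1.2, rfl⟩, q.2)
  have hφ : Function.Injective φ := fun p q hpq => by
    have h4 := congrArg (fun z => z.1.1) hpq
    have h5 := congrArg (fun z => z.2) hpq
    exact Prod.ext (Subtype.ext ((he.prodMap he) h4)) h5
  have h4 := h3.comp φ hφ
  simp only [hy]
  exact h4

theorem GenAt.injective {J : Type} {F : ℝ → ℝ} {x : J → ℝ} (h : GenAt F x) (h0 : F 0 = 1) :
    Function.Injective x := by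
  intro i j e
  by_contra hij
  have h1 := (h {(i, j)} (by simpa using hij) (by
    simp only [Set.mem_singleton_iff, forall_eq, Prod.swap_prod_mk, Prod.mk.injEq]
    exact fun h => hij h.2)).transcendental (⟨(i, j), rfl⟩, 0)
  simp only [e, sub_self, iteratedDeriv_zero, h0] at h1
  exact h1 isAlgebraic_one

theorem genAt_strat {N : Set (Mt n)} {m : ℕ} {l : Mt n → Fin m → ℝ} {P : Mt n → Fin m → Mt n}
    (hS : Strat N l P) {H U : Mt n} (hH : H ∈ N) (hU : U * star U = 1) {x : n → ℝ}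
    (e : H = Dg U x) {F : ℝ → ℝ} (h : GenAt F x) : GenAt F (l H) := by
  have h1 : ∀ a, ∃ i, l H a = x i := fun a => by
    have h2 := (hS.res H hH).dg_mul (l H) a
    rw [← hS.eq H hH] at h2
    obtain ⟨i, hi⟩ := eig_near (hS.ne H hH a) h2 hU e
    rw [sub_self, norm_zero] at hi
    exact ⟨i, (sub_eq_zero.1 (abs_nonpos_iff.1 hi)).symm⟩
  choose φ hφ using h1
  exact h.of_eq (e := φ) (fun a b hab => hS.inj H hH (by rw [hφ, hφ, hab])) fun a b => by
    rw [hφ, hφ]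

theorem countable_not_genAt {J : Type} [Finite J] {F : ℝ → ℝ} (hF : AnalyticOnNhd ℝ F Set.univ)
    {y : ℝ → J → ℝ} {I : Set ℝ} (hI : IsConnected I) (hy : ∀ a, AnalyticOnNhd ℝ (fun t => y t a) I)
    {t₀ : ℝ} (ht : t₀ ∈ I) (h : GenAt F (y t₀)) : {t | t ∈ I ∧ ¬ GenAt F (y t)}.Countable := by
  have key : ∀ s : Set (J × J), (∀ p ∈ s, p.1 ≠ p.2) → (∀ p ∈ s, p.swap ∉ s) →
      ∀ Q : MvPolynomial (s × ℕ) ℚ, Q ≠ 0 → {t | t ∈ I ∧ MvPolynomial.aeval
        (fun q : s × ℕ => iteratedDeriv q.2 F (y t q.1.1.1 - y t q.1.1.2)) Q = 0}.Countable := by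
    intro s h1 h2 Q hQ
    have h3 := zeros_countable (g := fun t => MvPolynomial.aeval
      (fun q : s × ℕ => iteratedDeriv q.2 F (y t q.1.1.1 - y t q.1.1.2))
      (MvPolynomial.map (algebraMap ℚ ℝ) Q)) (fun t ht => aeval_analytic
        (z := fun (q : s × ℕ) t => iteratedDeriv q.2 F (y t q.1.1.1 - y t q.1.1.2))
        (fun q => (jet_analytic hF _ _).comp (f := fun t => y t q.1.1.1 - y t q.1.1.2)
          ((hy _ t ht).sub (hy _ t ht))) _) hI ht (by
      rw [MvPolynomial.aeval_map_algebraMap]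
      exact fun e => hQ (algebraicIndependent_iff.1 (h s h1 h2) Q e))
    simpa only [MvPolynomial.aeval_map_algebraMap] using h3
  have h4 : (⋃ s : Set (J × J), ⋃ Q : MvPolynomial (s × ℕ) ℚ, {t | ((∀ p ∈ s, p.1 ≠ p.2) ∧
      (∀ p ∈ s, p.swap ∉ s) ∧ Q ≠ 0) ∧ t ∈ I ∧ MvPolynomial.aeval
        (fun q : s × ℕ => iteratedDeriv q.2 F (y t q.1.1.1 - y t q.1.1.2)) Q = 0}).Countable := by
    refine Set.countable_iUnion fun s => ?_
    have := countable_mv (σ := s × ℕ)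
    refine Set.countable_iUnion fun Q => ?_
    by_cases h5 : (∀ p ∈ s, p.1 ≠ p.2) ∧ (∀ p ∈ s, p.swap ∉ s) ∧ Q ≠ 0
    · exact (key s h5.1 h5.2.1 Q h5.2.2).mono fun t ht => ht.2
    · exact Set.countable_empty.mono fun t ht => h5 ht.1
  refine h4.mono fun t ht => ?_
  have h5 := ht.2
  simp only [GenAt, algebraicIndependent_iff, not_forall] at h5
  obtain ⟨s, h1, h2, Q, h6, h7⟩ := h5
  exact Set.mem_iUnion.2 ⟨s, Set.mem_iUnion.2 ⟨Q, ⟨h1, h2, h7⟩, ht.1, h6⟩⟩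

end Pool.Agent.Work.MP_2482e4_mp.Dt
end

-- merged part: Pool.Agent.Work.MP_2482e4_mp.Dt.Flow
section
/-! A locally closed set that carries curves tangent to a Lipschitz field is invariant under the
flow of the field. -/

open scoped Topology NNReal
open Filter Set Metric

namespace Pool.Agent.Work.MP_2482e4_mp.Dt

variable {E : Type} [NormedAddCommGroup E] [NormedSpace ℝ E] [FiniteDimensional ℝ E]

theorem stay_fwd {M : Set E} {X : E → E} {K : ℝ≥0} (hX : LipschitzWith K X) {x : E} {r : ℝ}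
    (hC : IsClosed (M ∩ closedBall x (2 * r))) (hx : x ∈ M)
    (hT : ∀ p ∈ M ∩ ball x (2 * r), ∃ γ : ℝ → E, γ 0 = p ∧ (∀ᶠ s in 𝓝 (0 : ℝ), γ s ∈ M) ∧
      HasDerivAt γ (X p) 0) {c : ℝ → E} {T : ℝ}
    (hc : ∀ t ∈ Icc 0 T, c t ∈ ball x r ∧ HasDerivAt c (X (c t)) t) (h0 : c 0 ∈ M) :
    ∀ t ∈ Icc 0 T, c t ∈ M := by
  intro t ht
  have hr : 0 < r := pos_of_mem_ball (hc t ht).1
  have : ProperSpace E := FiniteDimensional.proper_real E
  set C := M ∩ closedBall x (2 * r) with hCd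
  have hxC : x ∈ C := ⟨hx, mem_closedBall_self (by positivity)⟩
  have hK : IsCompact C := (isCompact_closedBall x (2 * r)).of_isClosed_subset hC inter_subset_right
  have hcc : ContinuousOn c (Icc 0 T) := fun s hs => (hc s hs).2.continuousAt.continuousWithinAt
  have key := le_gronwallBound_of_liminf_deriv_right_le (f := fun s => infDist (c s) C)
    (f' := fun s => K * infDist (c s) C) (δ := 0) (K := K) (ε := 0) (a := 0) (b := T)
    ((continuous_infDist_pt C).comp_continuousOn hcc) (fun s hs q hq => ?_)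
    (le_of_eq (infDist_zero_of_mem ⟨h0, ball_subset_closedBall (ball_subset_ball (by linarith)
      (hc 0 ⟨le_rfl, ht.1.trans ht.2⟩).1)⟩)) (fun s _ => by simp) t ht
  · rw [gronwallBound_ε0_δ0] at key
    exact ((hC.mem_iff_infDist_zero ⟨x, hxC⟩).2 (le_antisymm key infDist_nonneg)).1
  · have hs' := hc s (Ico_subset_Icc_self hs)
    obtain ⟨p, hp, e⟩ := hK.exists_infDist_eq_dist ⟨x, hxC⟩ (c s)
    have h1 : dist (c s) p < r := e ▸ (infDist_le_dist_of_mem hxC).trans_lt hs'.1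
    have h2 : p ∈ ball x (2 * r) := by
      have := dist_triangle_left p x (c s)
      have h3 := mem_ball.1 hs'.1
      rw [mem_ball]
      linarith
    obtain ⟨γ, γ0, γM, γd⟩ := hT p ⟨hp.1, h2⟩
    have h3 : HasDerivAt (fun z => γ (z - s)) (X p) s := by
      have := HasDerivAt.comp_sub_const (f := γ) s s (by simpa using γd)
      exact this
    have h4 := (hs'.2.sub h3).hasDerivWithinAt.liminf_right_slope_norm_le (r := q) (by
      refine lt_of_le_of_lt ?_ hq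
      rw [e, ← dist_eq_norm]
      exact hX.dist_le_mul _ _)
    have h5 : ∀ᶠ z in 𝓝 s, γ (z - s) ∈ C := by
      have h6 : Tendsto (fun z => z - s) (𝓝 s) (𝓝 0) := by
        simpa using (continuous_sub_right s).tendsto s
      have h7 : ∀ᶠ u in 𝓝 (0 : ℝ), γ u ∈ ball x (2 * r) :=
        γd.continuousAt.eventually (isOpen_ball.mem_nhds (γ0 ▸ h2))
      have h8 : ∀ᶠ u in 𝓝 (0 : ℝ), γ u ∈ C :=
        (γM.and h7).mono fun u hu => ⟨hu.1, ball_subset_closedBall hu.2⟩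
      exact h6.eventually h8
    refine (h4.and_eventually ((h5.filter_mono nhdsWithin_le_nhds).and
      eventually_mem_nhdsWithin)).mono ?_
    rintro z ⟨h6, h7, h8⟩
    refine lt_of_le_of_lt (mul_le_mul_of_nonneg_left ?_ (inv_nonneg.2 (sub_pos.2 h8).le)) h6
    have h9 := infDist_le_dist_of_mem (x := c z) h7
    simp only [Pi.sub_apply, sub_self, γ0, ← dist_eq_norm]
    rw [e]
    linarith

theorem stay_both {M : Set E} {X : E → E} {K : ℝ≥0} (hX : LipschitzWith K X) {x : E} {r : ℝ}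
    (hC : IsClosed (M ∩ closedBall x (2 * r))) (hx : x ∈ M)
    (hT : ∀ p ∈ M ∩ ball x (2 * r), ∃ γ : ℝ → E, γ 0 = p ∧ (∀ᶠ s in 𝓝 (0 : ℝ), γ s ∈ M) ∧
      HasDerivAt γ (X p) 0) {c : ℝ → E} {T : ℝ}
    (hc : ∀ t ∈ Icc (-T) T, c t ∈ ball x r ∧ HasDerivAt c (X (c t)) t) (h0 : c 0 ∈ M) :
    ∀ t ∈ Icc (-T) T, c t ∈ M := by
  intro t ht
  have hT0 : 0 ≤ T := by linarith [ht.1, ht.2]
  rcases le_total 0 t with h | h
  · exact stay_fwd hX hC hx hT (fun s hs => hc s ⟨by linarith [hs.1], hs.2⟩) h0 t ⟨h, ht.2⟩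
  · have := stay_fwd (X := fun y => -X y) (c := fun s => c (-s)) (T := T) hX.neg hC hx
      (fun p hp => ?_) (fun s hs => ?_) (by simpa using h0) (-t) ⟨by linarith, by linarith [ht.1]⟩
    · simpa using this
    · obtain ⟨γ, γ0, γM, γd⟩ := hT p hp
      refine ⟨fun s => γ (-s), by simpa using γ0, ?_, ?_⟩
      · have h6 : Tendsto (fun z : ℝ => -z) (𝓝 0) (𝓝 0) := by
          simpa using continuous_neg.tendsto (0 : ℝ)
        exact h6.eventually γM
      · have := HasDerivAt.scomp (0 : ℝ) (g₁ := γ) (h := fun s : ℝ => -s) (by simpa using γd)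
          (hasDerivAt_neg (0 : ℝ))
        rw [neg_one_smul] at this
        exact this
    · have h1 := hc (-s) ⟨by linarith [hs.2], by linarith [hs.1]⟩
      refine ⟨h1.1, ?_⟩
      have := HasDerivAt.scomp s (g₁ := c) (h := fun s : ℝ => -s) h1.2 (hasDerivAt_neg s)
      rw [neg_one_smul] at this
      exact this

end Pool.Agent.Work.MP_2482e4_mp.Dt
end

-- merged part: Pool.Agent.Work.MP_2482e4_mp.Dt.Clo
section
/-! The closure of the generic points of a leaf is a leaf. -/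

open scoped ComplexOrder Topology ContDiff Matrix.Norms.L2Operator
open Matrix Filter Module Metric

set_option linter.unusedSectionVars false

namespace Pool.Agent.Work.MP_2482e4_mp.Dt
open Gn

variable {n : Type} [Fintype n] [DecidableEq n] {m : ℕ}

theorem closure_leaf {w F : ℝ → ℝ} (hw : ∀ x, x ≠ 0 → AnalyticAt ℝ w x) (w0 : w 0 = 1)
    (hF : AnalyticOnNhd ℝ F Set.univ) {𝒜 : Submodule ℝ (Mt n)} {N : Set (Mt n)}
    (hL : Leaf w 𝒜 N) {H₀ : Mt n} (hH₀ : H₀ ∈ N) {r : ℝ} (hr : 0 < r)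
    (hC : IsClosed (N ∩ closedBall H₀ (2 * r))) {l : Mt n → Fin m → ℝ} {P : Mt n → Fin m → Mt n}
    (hS : Strat (N ∩ ball H₀ r) l P)
    (hZ : ∀ A ∈ 𝒜, ∃ X : Mt n → Mt n, ContDiff ℝ ∞ X ∧ ∀ H, H.IsHermitian → X H = Zf w H A) :
    Leaf w 𝒜 (N ∩ ball H₀ r ∩ closure {H | H ∈ N ∩ ball H₀ r ∧ GenAt F (l H)}) := by
  refine ⟨fun H hH => hL.herm H hH.1.1, fun H hH A hA => ?_,
    fun H hH A hA B hB γ δ X Y h1 h2 h3 h4 => hL.invol H hH.1.1 A hA B hB γ δ X Y h1 h2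
      (h3.mono fun _ e => e.1.1) (h4.mono fun _ e => e.1.1)⟩
  obtain ⟨X, sX, hX⟩ := hZ A hA
  let χ : ContDiffBump H₀ := ⟨2 * r, 3 * r, by positivity, by linarith⟩
  have sY : ContDiff ℝ ∞ fun p => χ p • X p := χ.contDiff.smul sX
  have cY : HasCompactSupport fun p => χ p • X p := χ.hasCompactSupport.smul_right
  obtain ⟨K, hK⟩ := sY.lipschitzWith_of_hasCompactSupport cY (by simp)
  obtain ⟨φ, sφ, φ0, φd⟩ := smooth_flow sY cY
  have hY : ∀ p ∈ N ∩ ball H₀ (2 * r), χ p • X p = Zf w p A := fun p hp => by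
    rw [χ.one_of_mem_closedBall (ball_subset_closedBall hp.2), one_smul, hX p (hL.herm p hp.1)]
  have hsub : ball H₀ r ⊆ ball H₀ (2 * r) := ball_subset_ball (by linarith)
  have h1 : ∀ᶠ z in 𝓝 ((0 : ℝ), H), φ z ∈ ball H₀ r :=
    sφ.continuous.continuousAt.eventually (isOpen_ball.mem_nhds (by rw [φ0]; exact hH.1.2))
  obtain ⟨ε, hε, h2⟩ := nhds_basis_closedBall.eventually_iff.1 h1
  have h3 : ∀ t ∈ Set.Icc (-ε) ε, ∀ p ∈ ball H ε, φ (t, p) ∈ ball H₀ r := fun t ht p hp =>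
    h2 (by
      rw [← closedBall_prod_same]
      exact ⟨by simpa [Real.closedBall_eq_Icc] using ht, ball_subset_closedBall hp⟩)
  have h4 : ∀ p ∈ N, p ∈ ball H ε → ∀ t ∈ Set.Icc (-ε) ε, φ (t, p) ∈ N := fun p hp hp' =>
    stay_both (c := fun t => φ (t, p)) hK hC hH₀ (fun q hq => by
      rw [hY q hq]
      exact hL.curve q hq.1 A hA) (fun t ht => ⟨h3 t ht p hp', φd t p⟩) (by rwa [φ0])
  have h5 : ∀ p ∈ N, p ∈ ball H ε → ∀ t ∈ Set.Ioo (-ε) ε, φ (t, p) ∈ N ∩ ball H₀ r ∧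
      HasDerivAt (fun s => φ (s, p)) (Zf w (φ (t, p)) A) t := fun p hp hp' t ht => by
    have a1 := h4 p hp hp' t (Set.Ioo_subset_Icc_self ht)
    have a2 := h3 t (Set.Ioo_subset_Icc_self ht) p hp'
    exact ⟨⟨a1, a2⟩, hY _ ⟨a1, hsub a2⟩ ▸ φd t p⟩
  have h0 : (0 : ℝ) ∈ Set.Ioo (-ε) ε := ⟨by linarith, hε⟩
  have h6 : ∀ t ∈ Set.Ioo (-ε) ε,
      φ (t, H) ∈ closure {H | H ∈ N ∩ ball H₀ r ∧ GenAt F (l H)} := fun t ht => by
    have a1 := isOpen_ball.inter_closure ⟨mem_ball_self hε, hH.2⟩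
    rw [← closure_closure]
    refine map_mem_closure (f := fun p => φ (t, p))
      (sφ.continuous.comp (continuous_const.prodMk continuous_id)) a1 ?_
    rintro p ⟨hp, hp', hg⟩
    have a2 := countable_not_genAt hF (y := fun s => l (φ (s, p))) (isConnected_Ioo (by linarith))
      (fun a s hs => l_analytic hw w0 hS (γ := fun s => φ (s, p))
        ((isOpen_Ioo.eventually_mem hs).mono fun u hu => h5 p hp'.1 hp u hu) a) h0 (by rwa [φ0])
    have a3 := isOpen_Ioo.inter_closure ⟨ht, a2.dense_compl ℝ t⟩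
    refine map_mem_closure (f := fun s => φ (s, p))
      (sφ.continuous.comp (continuous_id.prodMk continuous_const)) a3 ?_
    rintro s ⟨hs, hs'⟩
    exact ⟨(h5 p hp'.1 hp s hs).1, by_contra fun e => hs' ⟨hs, e⟩⟩
  refine ⟨fun s => φ (s, H), φ0 H, (isOpen_Ioo.eventually_mem h0).mono fun s hs =>
    ⟨(h5 H hH.1.1 (mem_ball_self hε) s hs).1, h6 s hs⟩, ?_⟩
  have := (h5 H hH.1.1 (mem_ball_self hε) 0 h0).2
  rwa [φ0] at this

theorem exists_good_dense {f : ℝ → ℝ} (hf : AnF f) {𝒜 : Submodule ℝ (Mt n)} {N : Set (Mt n)}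
    (hL : Leaf (wf f) 𝒜 N) {U : Mt n} (hU : U * star U = 1) {x : n → ℝ} (hH₀ : Dg U x ∈ N)
    (hx : GenAt (fun u => f (Real.exp u)) x) {r : ℝ} (hr : 0 < r)
    (hC : IsClosed (N ∩ closedBall (Dg U x) r))
    (hZ : ∀ A ∈ 𝒜, ∃ X : Mt n → Mt n, ContDiff ℝ ∞ X ∧
      ∀ H, H.IsHermitian → X H = Zf (wf f) H A) :
    ∃ N' ⊆ N, N'.Nonempty ∧ ∃ (m : ℕ) (l : Mt n → Fin m → ℝ) (P : Mt n → Fin m → Mt n)
      (R : Fin m → Fin m → Prop), Good (wf f) 𝒜 N' l P R ∧ Dn f N' l := by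
  obtain ⟨O, hO, h0, m, l, P, hS⟩ := exists_strat_at hL.herm hH₀ hU rfl
    (hx.injective (by simp [hf.one]))
  obtain ⟨ρ, hρ, hb⟩ := Metric.isOpen_iff.1 hO _ h0
  set q := min ρ (r / 2) with hq
  have hq0 : 0 < q := lt_min hρ (by positivity)
  have hS' : Strat (N ∩ ball (Dg U x) q) l P :=
    hS.mono fun H hH => ⟨hH.1, hb (ball_subset_ball (min_le_left _ _) hH.2)⟩
  have hC' : IsClosed (N ∩ closedBall (Dg U x) (2 * q)) := by
    have h1 : closedBall (Dg U x) (2 * q) ⊆ closedBall (Dg U x) r :=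
      closedBall_subset_closedBall (by linarith [min_le_right ρ (r / 2)])
    have := hC.inter (isClosed_closedBall (x := Dg U x) (ε := 2 * q))
    rwa [Set.inter_assoc, Set.inter_eq_right.2 h1] at this
  have hL' := closure_leaf (fun x hx => wf_analytic hf hx) (wf_zero hf.one) hf.an hL hH₀ hq0 hC'
    hS' hZ
  have h1 : Dg U x ∈ N ∩ ball (Dg U x) q := ⟨hH₀, mem_ball_self hq0⟩
  obtain ⟨V, hV, hne, R, hG⟩ := exists_good_of hL'
    ⟨_, h1, subset_closure ⟨h1, genAt_strat hS' h1 hU rfl hx⟩⟩ (hS'.mono Set.inter_subset_left)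
  refine ⟨_, fun H hH => hH.1.1.1, hne, m, l, P, R, hG, Subtype.dense_iff.2 fun H hH => ?_⟩
  refine closure_mono ?_ (hV.inter_closure ⟨hH.2, hH.1.2⟩)
  rintro p ⟨hp, hp'⟩
  exact ⟨⟨p, ⟨hp'.1, subset_closure hp'⟩, hp⟩, hp'.2, rfl⟩

end Pool.Agent.Work.MP_2482e4_mp.Dt
end

-- merged part: Pool.Agent.Work.MP_2482e4_mp.Dt.Leaf
section
/-! The leaf of an autoparallel submanifold contains the base point and is closed near it. -/

open scoped ComplexOrder Topology ContDiff Matrix.Norms.L2Operator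
open Matrix Filter Module

set_option linter.unusedSectionVars false

namespace Pool.Agent.Work.MP_2482e4_mp.Dt
open Gn

variable {n : Type} [Fintype n] [DecidableEq n]

variable {E : Type} [NormedAddCommGroup E] [NormedSpace ℝ E] [FiniteDimensional ℝ E]
variable {ι : E →ₗ[ℝ] Mt n} {g : E → E →L[ℝ] E →L[ℝ] ℝ} {f : ℝ → ℝ}

theorem leaf_of_adm_at (hι : IsHermModel ι) (hg : IsPetz ι f g) (hf : ∀ t, 0 < t → 0 < f t)
    (hfs : ∀ t, 0 < t → f t = t * f t⁻¹) (hf1 : f 1 = 1)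
    (hsm : ∀ q ∈ states ι, ContDiffAt ℝ ∞ g q) {ρ : E} (hρ : ρ ∈ states ι) {V : Submodule ℝ E}
    (hV : ∀ X ∈ V, trL ι X = 0) (h : Admissible ι g ρ V) :
    ∃ N : Set (Mt n), Leaf (wf f) (eRepS ι g ρ V) N ∧ ι (lg ι ρ) ∈ N ∧
      (∃ r > 0, IsClosed (N ∩ Metric.closedBall (ι (lg ι ρ)) r)) ∧
      ∀ H' ∈ N, ∀ L : Submodule ℝ (Mt n), (∀ X ∈ L, X.IsHermitian) → H' ∈ L →
        (∀ X ∈ L, ∀ A ∈ eRep ι g ρ V, Zf (wf f) X A ∈ L) → ι (lg ι ρ) ∈ L := by
  have := nonempty_of_states hρ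
  obtain ⟨N, hNs, hNm, hauto, hρN, hT⟩ := h
  obtain ⟨Φ, F, hρs, hΦ, hΦ', hN⟩ := hNm ρ hρN
  have hA := tangent_eq_near (trL_iff hι) (fun q hq => nrm_of_states hι (hNs hq))
    (fun q hq => hsm q (hNs hq)) (fun q hq => petz_pos hι hg hf (hNs hq).1) hρs hΦ hΦ' hN hauto
    hρN hT
  obtain ⟨r, hr, hball⟩ := Metric.eventually_nhds_iff_ball.1
    (((Φ.tendsto_symm hρs).eventually (eventually_nhdsWithin_iff.1 hA)).and
      (Φ.open_target.mem_nhds (Φ.map_source hρs)))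
  obtain ⟨Z, hZ, hZi, hZι⟩ := exists_Zc hι hg hf hfs hsm
  obtain ⟨Q, hQ, -⟩ := exists_Q F
  set O := Φ.source ∩ Φ ⁻¹' Metric.ball (Φ ρ) r with hO
  have hOo : IsOpen O := Φ.isOpen_inter_preimage Metric.isOpen_ball
  set M := {y | chi ι y ∈ N ∧ chi ι y ∈ O} with hM
  have hD : ∀ x ∈ M, ∀ v, fderiv ℝ (chi ι) x v ∈ tangent N (chi ι x) ↔
      ∃ C ∈ eRepS ι g ρ V, ι v = Zf (wf f) (ι x) C := fun x hx v => by
    have h1 := (hball _ hx.2.2).1
    rw [Φ.left_inv hx.2.1] at h1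
    rw [h1 hx.1, SetLike.mem_coe, chi_mem_iff hι hg hf hfs hρ hV]
  have hcd : ∀ x ∈ M, ContDiffAt ℝ ∞ (fun y => Q (Φ (chi ι y))) x := fun x hx =>
    Q.contDiff.contDiffAt.comp x ((chart_cd hΦ hx.2.1).comp x ((chi_cd hι x).of_le le_top))
  have hh : ∀ x ∈ M, ∀ v, fderiv ℝ (fun y => Q (Φ (chi ι y))) x v = 0 ↔
      ∃ C ∈ eRepS ι g ρ V, ι v = Zf (wf f) (ι x) C := fun x hx v => by
    have h1 : HasFDerivAt (fun y => Q (Φ (chi ι y))) _ x := Q.hasFDerivAt.comp x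
      (((chart_cd hΦ hx.2.1).differentiableAt (by simp)).hasFDerivAt.comp x
        ((chi_cd hι x).differentiableAt (by simp)).hasFDerivAt)
    rw [h1.fderiv, ← hD x hx, tangent_iff hΦ hΦ' hN hx.2.1 hx.1, ← hQ]
    rfl
  have hZA : ∀ x, ∀ A ∈ eRepS ι g ρ V, ι (Z x (jL ι A)) = Zf (wf f) (ι x) A := fun x A hA => by
    rw [hZι, ι_jL hι hA.1]
  have htan : ∀ x ∈ M, ∀ A ∈ eRepS ι g ρ V, Z x (jL ι A) ∈ tangent M x := fun x hx A hA =>
    tangent_chi hι hNs hOo hx.2 ((hD x hx _).2 ⟨A, hA, hZA x A hA⟩)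
  have hρM : lg ι ρ ∈ M := by
    simp only [hM, Set.mem_ofPred_eq, chi_lg hι hρ]
    exact ⟨hρN, hρs, Metric.mem_ball_self hr⟩
  refine ⟨ι '' M, ⟨?_, ?_, ?_⟩, ⟨lg ι ρ, hρM, rfl⟩, ?_, ?_⟩
  · rintro _ ⟨x, -, rfl⟩
    exact herm_ι hι x
  · rintro _ ⟨x, hx, rfl⟩ A hA
    obtain ⟨γ, h0, h1, h2⟩ := htan x hx A hA
    refine ⟨fun t => ι (γ t), by simp only [h0], h1.mono fun t ht => ⟨_, ht, rfl⟩, ?_⟩
    rw [← hZA x A hA]
    exact (iL ι).hasFDerivAt.comp_hasDerivAt 0 h2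
  · rintro _ ⟨x, hx, rfl⟩ A hA B hB γ δ X Y γ0 δ0 γN δN γd δd hX hY
    have hd : ∀ a, DifferentiableAt ℝ (fun y => Z y a) x := fun a =>
      (hZ.differentiable (by simp) x).clm_apply (differentiableAt_const a)
    have one : ∀ A ∈ eRepS ι g ρ V, ∀ B ∈ eRepS ι g ρ V, ∀ (γ : ℝ → Mt n) (X : Mt n), γ 0 = ι x →
        (∀ᶠ s in 𝓝 (0 : ℝ), γ s ∈ ι '' M) → HasDerivAt γ (Zf (wf f) (ι x) A) 0 →
        HasDerivAt (fun s => Zf (wf f) (γ s) B) X 0 →
        X = ι (fderiv ℝ (fun y => Z y (jL ι B)) x (Z x (jL ι A))) := by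
      intro A hA B hB γ X γ0 γN γd hX
      have h1 : HasDerivAt (fun s => jL ι (γ s)) (Z x (jL ι A)) 0 := by
        have := (jL ι).hasFDerivAt.comp_hasDerivAt 0 γd
        rwa [← hZA x A hA, jL_ι hι] at this
      have h2 := (iL ι).hasFDerivAt.comp_hasDerivAt 0 (HasFDerivAt.comp_hasDerivAt_of_eq (0 : ℝ)
        (hd (jL ι B)).hasFDerivAt h1 (by simp only [γ0, jL_ι hι]))
      refine hX.unique (h2.congr_of_eventuallyEq ?_)
      filter_upwards [γN] with s hs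
      obtain ⟨y, -, hy⟩ := hs
      simp only [Function.comp_apply, iL_apply, ← hy, jL_ι hι, hZA y B hB]
    have key := VectorField.fderiv_apply_lieBracket (V := fun y => Z y (jL ι A))
      (W := fun y => Z y (jL ι B)) ((hcd x hx).of_le (m := 2) (by decide)) (by simp) (hd _) (hd _)
    have z : ∀ A ∈ eRepS ι g ρ V, ∀ᶠ y in 𝓝[M] x,
        fderiv ℝ (fun y => Q (Φ (chi ι y))) y (Z y (jL ι A)) = 0 := fun A hA =>
      eventually_nhdsWithin_of_forall fun y hy => (hh y hy _).2 ⟨A, hA, hZA y A hA⟩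
    rw [fderiv_tangent_zero (z B hB) (htan x hx A hA), fderiv_tangent_zero (z A hA) (htan x hx B hB),
      sub_zero] at key
    obtain ⟨C, hC, e⟩ := (hh x hx _).1 key
    refine ⟨C, hC, ?_⟩
    rw [one A hA B hB γ X γ0 γN γd hX, one B hB A hA δ Y δ0 δN δd hY, ← e, ← map_sub]
    rfl
  · have c1 : Continuous fun H : Mt n => chi ι (jL ι H) :=
      (continuous_iff_continuousAt.2 fun x => (chi_cd hι x).continuousAt).comp (jL ι).continuous
    obtain ⟨q, hq, hb⟩ := Metric.nhds_basis_closedBall.mem_iff.1 ((hOo.preimage c1).mem_nhds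
      (x := ι (lg ι ρ)) (by rw [Set.mem_preimage, jL_ι hι]; exact hρM.2))
    refine ⟨q, hq, ?_⟩
    have c2 : ContinuousOn (fun H : Mt n => (ι (jL ι H) - H, Q (Φ (chi ι (jL ι H)))))
        (Metric.closedBall (ι (lg ι ρ)) q) :=
      (((iL ι).continuous.comp (jL ι).continuous).sub continuous_id).continuousOn.prodMk
        (Q.continuous.comp_continuousOn (Φ.continuousOn.comp c1.continuousOn fun H hH => (hb hH).1))
    have e : ι '' M ∩ Metric.closedBall (ι (lg ι ρ)) q = Metric.closedBall (ι (lg ι ρ)) q ∩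
        (fun H : Mt n => (ι (jL ι H) - H, Q (Φ (chi ι (jL ι H))))) ⁻¹' {0} := by
      ext H
      simp only [Set.mem_inter_iff, Set.mem_preimage, Set.mem_singleton_iff, Prod.mk_eq_zero]
      constructor
      · rintro ⟨⟨x, hx, rfl⟩, h2⟩
        refine ⟨h2, by rw [jL_ι hι, sub_self], ?_⟩
        rw [jL_ι hι]
        exact (hQ _).2 ((hN _ hx.2.1).1 hx.1)
      · rintro ⟨h1, h2, h3⟩
        exact ⟨⟨jL ι H, ⟨(hN _ (hb h1).1).2 ((hQ _).1 h3), hb h1⟩, sub_eq_zero.1 h2⟩, h1⟩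
    rw [e]
    exact c2.preimage_isClosed_of_isClosed Metric.isClosed_closedBall isClosed_singleton
  · rintro _ ⟨x, hx, rfl⟩ L hL hxL hinv
    set p := chi ι x with hp
    have hl : ∀ t : ℝ, HasDerivAt (fun t : ℝ => Φ p + t • (Φ ρ - Φ p)) (Φ ρ - Φ p) t := fun t => by
      simpa using ((hasDerivAt_id t).smul_const (Φ ρ - Φ p)).const_add (Φ p)
    have hb : ∀ t ∈ Set.Icc (0 : ℝ) 1, Φ p + t • (Φ ρ - Φ p) ∈ Metric.ball (Φ ρ) r := fun t ht =>
      (convex_ball (Φ ρ) r).add_smul_sub_mem hx.2.2 (Metric.mem_ball_self hr) ht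
    have hF : ∀ t : ℝ, Φ p + t • (Φ ρ - Φ p) ∈ F := fun t =>
      F.add_mem ((hN p hx.2.1).1 hx.1)
        (F.smul_mem t (F.sub_mem ((hN ρ hρs).1 hρN) ((hN p hx.2.1).1 hx.1)))
    have hq : ∀ z ∈ Metric.ball (Φ ρ) r, z ∈ F → Φ.symm z ∈ N ∧ Φ.symm z ∈ O := fun z hz hzF => by
      have h1 := (hball z hz).2
      refine ⟨?_, Φ.map_target h1, ?_⟩
      · rwa [hN _ (Φ.map_target h1), Φ.right_inv h1]
      · rwa [Set.mem_preimage, Φ.right_inv h1]
    have hc : ∀ t ∈ Set.Icc (0 : ℝ) 1,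
        ContDiffAt ℝ ∞ (fun z => lg ι (Φ.symm z)) (Φ p + t • (Φ ρ - Φ p)) := fun t ht =>
      ((lg_cd hι (hNs (hq _ (hb t ht) (hF t)).1).1).of_le le_top).comp _
        (chart_cd' hΦ' (hball _ (hb t ht)).2)
    have hy : ∀ t ∈ Set.Icc (0 : ℝ) 1, HasDerivAt (fun t : ℝ => lg ι (Φ.symm (Φ p + t • (Φ ρ - Φ p))))
        (fderiv ℝ (fun z => lg ι (Φ.symm z)) (Φ p + t • (Φ ρ - Φ p)) (Φ ρ - Φ p)) t := fun t ht => by
      have := ((hc t ht).differentiableAt (by simp)).hasFDerivAt.comp_hasDerivAt t (hl t)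
      exact this
    have := stay_path hZ hZi (L := L.comap ι) (W := {a | ι a ∈ eRep ι g ρ V})
      (fun x hx a ha => by
        rw [Submodule.mem_comap, hZι]
        exact hinv _ hx _ ha) hy
      (fun t ht => ((((hc t ht).fderiv_right (m := 0) (by simp)).continuousAt.comp
        (f := fun t : ℝ => Φ p + t • (Φ ρ - Φ p)) (hl t).continuousAt).clm_apply
          continuousAt_const).continuousWithinAt)
      (fun t ht => ?_) ?_
    · simpa [Φ.left_inv hρs] using this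
    · have h1 := hq _ (hb t ht) (hF t)
      have h2 := chi_lg hι (hNs h1.1)
      obtain ⟨C, hC, e⟩ := (hD (lg ι (Φ.symm (Φ p + t • (Φ ρ - Φ p)))) (by
        simp only [hM, Set.mem_ofPred_eq, h2]
        exact h1) (fderiv ℝ (fun z => lg ι (Φ.symm z)) (Φ p + t • (Φ ρ - Φ p)) (Φ ρ - Φ p))).1 (by
        have h3 := ((chi_cd hι _).differentiableAt (by simp)).hasFDerivAt.comp_hasDerivAt t (hy t ht)
        refine ⟨fun s => chi ι (lg ι (Φ.symm (Φ p + (t + s) • (Φ ρ - Φ p)))), by simp, ?_, ?_⟩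
        · have h4 : ContinuousAt (fun s : ℝ => Φ p + (t + s) • (Φ ρ - Φ p)) 0 := by fun_prop
          filter_upwards [h4.eventually (Metric.isOpen_ball.mem_nhds (by simpa using hb t ht))]
            with s hs
          have h5 := (hq _ hs (hF _)).1
          rwa [chi_lg hι (hNs h5)]
        · exact HasDerivAt.comp_const_add t 0 (by rw [add_zero]; exact h3))
      exact ⟨jL ι C, by rw [Set.mem_ofPred_eq, ι_jL hι hC.1]; exact hC,
        hι.1 (by rw [e, hZA _ C hC])⟩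
    · obtain ⟨c, hc⟩ := lg_chi hι x
      have h1 := hinv _ hxL 1 (one_mem_eRep ρ V)
      rw [Zf_of_commute _ (herm_ι hι x) (Commute.one_right _), wf_zero hf1, one_smul] at h1
      simp only [zero_smul, add_zero, Submodule.mem_comap]
      rw [hp, Φ.left_inv hx.2.1, hc]
      exact L.add_mem hxL (L.smul_mem c h1)

end Pool.Agent.Work.MP_2482e4_mp.Dt
end
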