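import Pool.Agent.Work.MP_2482e4_mp.Gn.Main
import Pool.Agent.Work.MP_2482e4_mp.Dt.Leaf
import Pool.Agent.Work.MP_2482e4_mp.Dt.Jet

open scoped ComplexOrder Topology ContDiff Matrix.Norms.L2Operator
open Matrix Filter Module MeasureTheory

set_option linter.unusedSectionVars false

namespace Pool.Agent.Work.MP_2482e4_mp.Dt
open Gn

variable {n : Type} [Fintype n] [DecidableEq n]
variable {E : Type} [NormedAddCommGroup E] [NormedSpace ℝ E]
variable {ι : E →ₗ[ℝ] Mt n} {g : E → E →L[ℝ] E →L[ℝ] ℝ} {f : ℝ → ℝ}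

theorem prod_of_adm_at [FiniteDimensional ℝ E] (hι : IsHermModel ι) (hg : IsPetz ι f g)
    (hf : AnF f) (hsm : ∀ q ∈ states ι, ContDiffAt ℝ ∞ g q) {ρ : E} (hρ : ρ ∈ states ι)
    {U : Mt n} (hU : U * star U = 1) {x : n → ℝ} (e : ι (lg ι ρ) = Dg U x)
    (hx : GenAt (fun u => f (Real.exp u)) x) {V : Submodule ℝ E}
    (hV : ∀ X ∈ V, trL ι X = 0) (h : Admissible ι g ρ V) :
    IsProductType (ι (lg ι ρ)) (eRep ι g ρ V) := by
  have := nonempty_of_states hρ
  obtain ⟨N, hN, h0, ⟨r, hr, hC⟩, htr⟩ := leaf_of_adm_at hι hg hf.pos hf.symm hf.one hsm hρ hV h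
  obtain ⟨Z, hZ, -, hZι⟩ := exists_Zc hι hg hf.pos hf.symm hsm
  have hA : ∀ A ∈ eRepS ι g ρ V, A.IsHermitian := fun A hA => hA.1
  rw [e] at h0 hC
  obtain ⟨N', hsub, ⟨H', hH'⟩, m, l, P, R, hG, hD⟩ := exists_good_dense hf hN hU h0 hx hr hC
    fun A hA' => ⟨fun H => iL ι (Z (jL ι H) (jL ι A)),
      (iL ι).contDiff.comp ((hZ.comp (jL ι).contDiff).clm_apply contDiff_const), fun H hH => by
        beta_reduce
        rw [iL_apply, hZι, ι_jL hι hH, ι_jL hι (hA A hA')]⟩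
  obtain ⟨S, hS, hull⟩ := exists_hull hA hG.leaf.herm
    (fun F hF h0 H hH A hA' => g_stab hf hG hD hA hF h0 hH hA')
    (fun H hH A hA' B hB k => g_tor_mem hf hG hD hA hH hA' hB k)
  exact prod_transport (wf_neg hf.symm) (hull.prod (hS hH')) (htr H' (hsub hH'))

theorem main_at (hι : IsHermModel ι) (hf : AnF f) (hg : IsPetz ι f g)
    (hsm : ∀ q ∈ states ι, ContDiffAt ℝ ∞ g q) {ρ : E} (hρ : ρ ∈ states ι) {U : Mt n}
    (hU : U * star U = 1) {x : n → ℝ} (hx : GenAt (fun u => f (Real.exp u)) x)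
    (e : ι ρ = U * diagonal (fun i => ((Real.exp (x i) / ∑ j, Real.exp (x j) : ℝ) : ℂ)) * star U)
    {V : Submodule ℝ E} (hV : ∀ X ∈ V, (ι X).trace = 0) :
    Admissible ι g ρ V ↔ IsProductType (cfc Real.log (ι ρ)) (eRep ι g ρ V) := by
  have : FiniteDimensional ℝ E := FiniteDimensional.of_injective ι hι.1
  have := nonempty_of_states hρ
  have hV' : ∀ X ∈ V, trL ι X = 0 := fun X hX => (trL_iff hι X).1 (hV X hX)
  have hs : 0 < ∑ j, Real.exp (x j) :=
    Finset.sum_pos (fun j _ => Real.exp_pos _) Finset.univ_nonempty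
  rw [cfc_log_eq hι hρ]
  refine ⟨prod_of_adm_at hι hg hf hsm hρ hU
    (ι_lg_Dg hι hU (d := fun i => Real.exp (x i) / ∑ j, Real.exp (x j)) e
      fun i => by positivity).1 (hx.of_eq (e := id) Function.injective_id fun a b => ?_) hV',
    adm_of_prod hι hg hf.pos hf.symm hf.one hf.smooth hsm hρ hV'⟩
  rw [Real.log_div (Real.exp_pos _).ne' hs.ne', Real.log_div (Real.exp_pos _).ne' hs.ne',
    Real.log_exp, Real.log_exp]
  simp

theorem residual_dt : {ν : PrI | IsDiffTransc (fMeas ν)} ∈ residual PrI :=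
  Filter.mem_of_superset residual_generic fun ν hν => dt_of_generic (fMeas_smooth ν) hν

end Pool.Agent.Work.MP_2482e4_mp.Dt
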